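import Pool.Agent.Lib.MP_8fac41_lc.FR.B.SeqN
import Pool.Agent.Lib.MP_8fac41_lc.FR.E.Deep

/-!
# Distributivity and decisions (module FR-B-Decide)

`Distr P D`: for families of open dense sets indexed by `D`.
`Distr.choose`: `hd` for `G' x p ↔ ∃ z, G x z p`, then choice. `Distr.split`: `G x (z : Bool) p ↔ if z then Fo p (b x) else Fo p (b x)ᶜ`, `fo_decide`.
`exists_subset`: `Distr.split` for `b x = bmem (ob P x) Y`, then `fo_beq_of_sub`.
`UL U b` is the Boolean value of `{x | b x} ∈ U`. `fo_UL`: `fo_iSup`, `fo_iInf`. `fo_UL_compl`, `fo_UL_of_split`: by `Distr.split` (densely) some `r` decides `b x` for all `x`, let `X` be the set of the `x` with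
`Fo r (b x)`: `X ∈ U` or `Xᶜ ∈ U`. `fo_UL_mono`: intersect the witness `S` with the given set.
-/

universe u

namespace Pool.Agent.Lib.MP_8fac41_lc.FR

open Pool.Agent.Lib.MP_4d8715_gt.KR

variable {P : Type u} [Preorder P] {D : Type u}

/-- the intersection of families of open dense sets indexed by `D` is dense -/
def Distr (P : Type u) [Preorder P] (D : Type u) : Prop :=
  ∀ (G : D → P → Prop) (p : P), (∀ x p q, G x p → q ≤ p → G x q) → (∀ x, ∀ q ≤ p, ∃ r ≤ q, G x r) →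
    ∃ q ≤ p, ∀ x, G x q

theorem Distr.choose (hd : Distr P D) {Z : Type*} (G : D → Z → P → Prop) (p : P)
    (hopen : ∀ x z p q, G x z p → q ≤ p → G x z q) (hdense : ∀ x, ∀ q ≤ p, ∃ r ≤ q, ∃ z, G x z r) :
    ∃ q ≤ p, ∃ f : D → Z, ∀ x, G x (f x) q := by
  obtain ⟨q, hq, h⟩ := hd (fun x p => ∃ z, G x z p) p
    (fun x p q h hq => h.imp fun z hz => hopen x z p q hz hq) (fun x q hq => hdense x q hq)
  choose f hf using h
  exact ⟨q, hq, f, hf⟩

theorem Distr.split (hd : Distr P D) (b : D → RO P) (p : P) :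
    ∃ q ≤ p, ∃ X : Set D, (∀ x ∈ X, Fo q (b x)) ∧ ∀ x ∉ X, Fo q (b x)ᶜ := by
  obtain ⟨q, hq, f, hf⟩ := hd.choose (Z := Prop) (fun x z q => (z → Fo q (b x)) ∧ (¬ z → Fo q (b x)ᶜ)) p
    (fun x z p q h hq => ⟨fun hz => (h.1 hz).mono hq, fun hz => (h.2 hz).mono hq⟩) (by
      intro x q _
      obtain ⟨r, hr, h⟩ := fo_decide (b x) q
      rcases h with h | h
      · exact ⟨r, hr, True, fun _ => h, fun h' => absurd trivial h'⟩
      · exact ⟨r, hr, False, fun h' => h'.elim, fun _ => h⟩)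
  exact ⟨q, hq, {x | f x}, fun x hx => (hf x).1 hx, fun x hx => (hf x).2 hx⟩

/-- the Boolean value of `{x | b x} ∈ U` -/
noncomputable def UL (U : Ultrafilter D) (b : D → RO P) : RO P := ⨆ S : {S : Set D // S ∈ U}, ⨅ x : S.1, b x.1

variable {U : Ultrafilter D}

theorem fo_UL {p : P} {b : D → RO P} : Fo p (UL U b) ↔ ∀ q ≤ p, ∃ r ≤ q, ∃ S ∈ U, ∀ x ∈ S, Fo r (b x) := by
  unfold UL
  rw [fo_iSup]
  constructor
  · intro h q hq
    obtain ⟨r, hr, S, hS⟩ := h q hq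
    exact ⟨r, hr, S.1, S.2, fun x hx => fo_iInf.1 hS ⟨x, hx⟩⟩
  · intro h q hq
    obtain ⟨r, hr, S, hSU, hS⟩ := h q hq
    exact ⟨r, hr, ⟨S, hSU⟩, fo_iInf.2 fun x => hS x.1 x.2⟩

theorem fo_UL_of {p : P} {b : D → RO P} {S : Set D} (hS : S ∈ U) (h : ∀ x ∈ S, Fo p (b x)) : Fo p (UL U b) :=
  fo_UL.2 fun q hq => ⟨q, le_rfl, S, hS, fun x hx => (h x hx).mono hq⟩

theorem fo_UL_compl (hd : Distr P D) {p : P} {b : D → RO P} : Fo p (UL U b)ᶜ ↔ Fo p (UL U fun x => (b x)ᶜ) := by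
  constructor
  · intro h
    refine fo_UL.2 fun q hq => ?_
    obtain ⟨r, hr, X, h1, h2⟩ := hd.split b q
    have hX : X ∉ U := fun hX => fo_compl.1 h r (hr.trans hq) (fo_UL_of hX h1)
    exact ⟨r, hr, Xᶜ, Ultrafilter.compl_mem_iff_notMem.2 hX, fun x hx => h2 x hx⟩
  · intro h
    refine fo_compl.2 fun q hq h' => ?_
    obtain ⟨r, hr, S, hS, h1⟩ := fo_UL.1 h q hq
    obtain ⟨s, hs, T, hT, h2⟩ := fo_UL.1 h' r hr
    obtain ⟨x, hx⟩ := U.nonempty_of_mem (Filter.inter_mem hS hT)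
    exact fo_compl.1 (h1 x hx.1) s hs (h2 x hx.2)

/-- monotonicity, for two arguments (take `c = b` for one) -/
theorem fo_UL_mono {p : P} {b c e : D → RO P} {S : Set D} (hS : S ∈ U)
    (h : ∀ x ∈ S, ∀ q ≤ p, Fo q (b x) → Fo q (c x) → Fo q (e x)) (hb : Fo p (UL U b)) (hc : Fo p (UL U c)) :
    Fo p (UL U e) := by
  refine fo_UL.2 fun q hq => ?_
  obtain ⟨r, hr, T, hT, h1⟩ := fo_UL.1 hb q hq
  obtain ⟨s, hs, T', hT', h2⟩ := fo_UL.1 hc r (hr.trans hq)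
  refine ⟨s, hs.trans hr, S ∩ (T ∩ T'), Filter.inter_mem hS (Filter.inter_mem hT hT'), fun x hx => ?_⟩
  exact h x hx.1 s ((hs.trans hr).trans hq) ((h1 x hx.2.1).mono hs) (h2 x hx.2.2)

/-- contradictory values -/
theorem fo_UL_false {p : P} {b : D → RO P} {S : Set D} (hS : S ∈ U) (h : ∀ x ∈ S, ∀ q ≤ p, ¬ Fo q (b x)) :
    ¬ Fo p (UL U b) := by
  intro h1
  obtain ⟨r, hr, T, hT, h2⟩ := fo_UL.1 h1 p le_rfl
  obtain ⟨x, hx⟩ := U.nonempty_of_mem (Filter.inter_mem hS hT)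
  exact h x hx.1 r hr (h2 x hx.2)

/-- for standard truth values -/
theorem fo_UL_std {p : P} {b : D → RO P} {S : Set D} (h1 : ∀ x ∈ S, Fo p (b x)) (h2 : ∀ x ∉ S, ∀ q ≤ p, ¬ Fo q (b x)) :
    Fo p (UL U b) ↔ S ∈ U := by
  constructor
  · intro h
    by_contra hS
    exact fo_UL_false (Ultrafilter.compl_mem_iff_notMem.2 hS) (fun x hx => h2 x hx) h
  · intro h
    exact fo_UL_of h h1

variable [LinearOrder D] [WellFoundedLT D]

theorem exists_subset (hd : Distr P D) {p : P} {Y : BSet (RO P)} (hY : Fo p (Kb.Sub Y (obS P D))) :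
    ∃ q ≤ p, ∃ X : Set D, Fo q (BSet.beq Y (sbS P X)) := by
  obtain ⟨q, hq, X, h1, h2⟩ := hd.split (fun x => BSet.bmem (ob P x) Y) p
  refine ⟨q, hq, X, fo_beq_of_sub (hY.mono hq) fo_sub_sbS fun a r hr => ?_⟩
  rw [fo_mem_sbS]
  constructor
  · intro h
    by_contra ha
    exact fo_compl.1 (h2 a ha) r hr h
  · intro ha
    exact (h1 a ha).mono hr

theorem fo_beq_sbS {p : P} {X Y : Set D} : Fo p (BSet.beq (sbS P X) (sbS P Y)) ↔ X = Y := by
  constructor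
  · intro h
    have h1 := fo_beq_iff.1 h
    ext a
    have h2 := h1 (ob P a) p le_rfl
    rwa [fo_mem_sbS, fo_mem_sbS] at h2
  · rintro rfl
    exact fo_beq_refl _

/-- the name of `U` -/
noncomputable def uB (P : Type u) [Preorder P] {D : Type u} [LinearOrder D] [WellFoundedLT D]
    (U : Ultrafilter D) : BSet (RO P) := BSet.mk {X : Set D // X ∈ U} (fun X => sbS P X.1) (fun _ => ⊤)

theorem enu_uB (p : P) (U : Ultrafilter D) : Enu p (uB P U) (fun X : {X : Set D // X ∈ U} => sbS P X.1) := by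
  refine ⟨fun a => ?_, fun q hq x hx => ?_⟩
  · unfold uB
    rw [BSet.basic_bmem_mk]
    refine Fo.of_le (x := ⊤) fo_top (le_iSup_of_le a ?_)
    rw [BSet.beq_refl, top_inf_eq]
  · unfold uB at hx
    rw [BSet.basic_bmem_mk] at hx
    obtain ⟨r, h1, a, h2⟩ := fo_iSup.1 hx q le_rfl
    exact ⟨r, h1, a, (fo_inf.1 h2).2⟩

theorem fo_mem_uB {p : P} {X : Set D} : Fo p (BSet.bmem (sbS P X) (uB P U)) ↔ X ∈ U := by
  constructor
  · intro h
    obtain ⟨q, -, Y, h2⟩ := (enu_uB p U).cov p le_rfl _ h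
    rw [fo_beq_sbS.1 h2]
    exact Y.2
  · intro h
    exact (enu_uB p U).mem ⟨X, h⟩

end Pool.Agent.Lib.MP_8fac41_lc.FR
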