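import Pool.Agent.Lib.MP_8fac41_lc.FR.P.Dist
import Pool.Agent.Lib.MP_8fac41_lc.FR.B.Decide
import Pool.Agent.Lib.MP_8fac41_lc.FR.U.Defs

/-!
# The poset `E D X` of the combinatorial part: interface with the Boolean part
-/

universe u

namespace Pool.Agent.Lib.MP_8fac41_lc.FR

open Cardinal Pool.MP_8fac41_lc.FR

theorem nuf_of_nrm {A : Type u} [LinearOrder A] {U : Ultrafilter A} (h : Nrm U) : NUF U :=
  ⟨fun a => h.tail a, fun X hX => h.normal (fun a y => y ∈ X a) hX⟩

section

variable (D X : Type u) [LinearOrder D] [WellFoundedLT D] [LinearOrder X] [WellFoundedLT X] [Sett D X]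

/-- the ultrafilter `U₀` on `D` -/
abbrev V0 : Ultrafilter D := Sett.U0 X

/-- the ultrafilter `U₁` on `D` -/
abbrev V1 : Ultrafilter D := Sett.U1 X

/-- the ultrafilter `W` on `X` -/
abbrev VW : Ultrafilter X := Sett.W D

end

variable {D X : Type u} [LinearOrder D] [WellFoundedLT D] [LinearOrder X] [WellFoundedLT X] [Sett D X]

variable (D X) in
theorem nuf0 : NUF (V0 D X) := nuf_of_nrm Sett.n0

variable (D X) in
theorem nuf1 : NUF (V1 D X) := nuf_of_nrm Sett.n1

variable (D X) in
theorem nufW : NUF (VW D X) := nuf_of_nrm Sett.nW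

variable (D X) in
theorem distr_E : Distr (E D X) D := by
  intro G p hopen hdense
  obtain ⟨q, hq, h⟩ := dist (I := D) (Cardinal.cantor' _ one_lt_two).le p (fun x => {q | G x q})
    (fun x a b hb ha => hopen x a b ha hb) (fun x a ha => by
      obtain ⟨r, h1, h2⟩ := hdense x a ha
      exact ⟨r, h1, h2⟩)
  exact ⟨q, hq.1, h⟩

omit [LinearOrder D] [WellFoundedLT D] [LinearOrder X] [WellFoundedLT X] [Sett D X] in
theorem nonempty_X (D X : Type u) [LinearOrder D] [WellFoundedLT D] [LinearOrder X] [WellFoundedLT X] [Sett D X] :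
    Nonempty X := by
  obtain ⟨a, _⟩ := Ultrafilter.nonempty_of_mem (Filter.univ_mem (f := (VW D X : Filter X)))
  exact ⟨a⟩

end Pool.Agent.Lib.MP_8fac41_lc.FR
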