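import Pool.Agent.Lib.MP_8fac41_lc.FR.B.ValB
import Pool.Agent.Lib.MP_8fac41_lc.FR.U.Defs

/-!
# The name of `U` is complete (module FR-B-ComplB)

`fo_Compl`: `fo_iInf`, `fo_himp`; `a` is forced to be in `obS P D`, densely (`fo_reg`, `enu_obS`) it is `ob P x0` for some `x0 : D` (replace it by `fo_ext`, or transport the hypotheses along the equality). `exists_val` for `I = Set.Iio x0`, `d = ob P x0`
(`fo_mem_ob`). `Z` is forced to be the set of all `z ∈ obS P D` such that `z ∈ X'` whenever `App F b X'` (such `b` are elements of `ob P x0` by the first part of `Kb.FunOn`, so densely `ob P x`, `x < x0`); so `Z` is forced to be equal (`fo_beq_iff` or `fo_beq_of_sub`) to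
`sbS P {z | ∀ x < x0, z ∈ X x}`, which is in `U` by `NUF.bdd`, so in `uB P U` (`fo_mem_uB`).
-/

universe u

namespace Pool.Agent.Lib.MP_8fac41_lc.FR

open Pool.Agent.Lib.MP_4d8715_gt.KR

variable {P : Type u} [Preorder P] {D : Type u} [LinearOrder D] [WellFoundedLT D] {U : Ultrafilter D}

theorem fo_Compl (hd : Distr P D) (hU : NUF U) (p : P) : Fo p (Kc.Compl (obS P D) (uB P U)) := by
  refine fo_iInf.2 fun a => fo_iInf.2 fun F => fo_iInf.2 fun Z => fo_himp.2 fun q1 hq1 ha =>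
    fo_himp.2 fun q2 hq2 hF => fo_himp.2 fun q3 hq3 hZ => fo_reg fun q4 hq4 => ?_
  obtain ⟨q5, hq5, x0, hx0⟩ := (enu_obS q4).cov q4 le_rfl a (ha.mono ((hq4.trans hq3).trans hq2))
  have hF' : Fo q5 (Kb.FunTo F (ob P x0) (uB P U)) :=
    fo_ext (ψ := fun w => Kb.FunTo F w (uB P U)) (Kb.ext_FunTo_d F _) hx0
      (hF.mono ((hq5.trans hq4).trans hq3))
  obtain ⟨q6, hq6, X, hXU, hX⟩ := exists_val hd hF' (Set.Iio x0) (fun x hx => fo_mem_ob.2 hx)
  have h63 : q6 ≤ q3 := (hq6.trans hq5).trans hq4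
  refine ⟨q6, hq6.trans hq5, ?_⟩
  have hb : Fo q6 (BSet.beq (sbS P {z | ∀ x < x0, z ∈ X x}) Z) := by
    refine fo_beq_of_sub fo_sub_sbS ?_ ?_
    · refine fo_Sub.2 fun z q hq hz => ?_
      exact (fo_inf.1 ((fo_iffB.1 (fo_iInf.1 hZ z) q (hq.trans h63)).1 hz)).1
    · intro c q hq
      rw [fo_mem_sbS, fo_iffB.1 (fo_iInf.1 hZ (ob P c)) q (hq.trans h63), fo_inf]
      constructor
      · intro hc
        refine ⟨(enu_obS q).mem c, fo_iInf.2 fun b => fo_iInf.2 fun V => fo_himp.2 fun r hr h => ?_⟩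
        have h1 : Fo r (BSet.bmem b (ob P x0)) :=
          fo_App_dom ((fo_inf.1 hF').1.mono ((hr.trans hq).trans hq6)) h
        refine fo_reg fun s hs => ?_
        obtain ⟨t, ht, x, hx⟩ := (enu_ob s x0).cov s le_rfl b (h1.mono hs)
        have h2 : Fo t (Kb.App F (ob P x.1) V) :=
          fo_ext (ψ := fun w => Kb.App F w V) (Kb.ext_App_a F V) hx (h.mono (ht.trans hs))
        have h3 := (hX x.1 x.2 V t (((ht.trans hs).trans hr).trans hq)).1 h2
        refine ⟨t, ht, fo_ext (ψ := fun w => BSet.bmem (ob P c) w) (BSet.ext_bmem_right _)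
          (fo_beq_symm h3) (fo_mem_sbS.2 (hc x.1 x.2))⟩
      · rintro ⟨-, h⟩ x hx
        have h1 : Fo q (Kb.App F (ob P x) (sbS P (X x))) := (hX x hx _ q hq).2 (fo_beq_refl _)
        exact fo_mem_sbS.1 ((fo_himp.1 (fo_iInf.1 (fo_iInf.1 h (ob P x)) (sbS P (X x)))) q le_rfl h1)
  exact fo_ext (ψ := fun w => BSet.bmem w (uB P U)) (BSet.ext_bmem_left _) hb
    (fo_mem_uB.2 (hU.bdd x0 X fun x _ => hXU x))

end Pool.Agent.Lib.MP_8fac41_lc.FR
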