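import Pool.Agent.Lib.MP_8fac41_lc.FR.B.ValB
import Pool.Agent.Lib.MP_8fac41_lc.FR.U.Defs

/-!
# The name of `U` is normal (module FR-B-DiagB)

`fo_Diag`: `fo_iInf`, `fo_himp`. `exists_val` for `I = Set.univ`, `d = obS P D`. `Z` is forced to be the set of all `z ∈ obS P D` such that `z ∈ X'` whenever `b ∈ z`, `App F b X'`. For `z = ob P x0` the elements `b` of `z` are densely `ob P x` with `x < x0` (`enu_ob`). So `Z` is forced to be equal
(`fo_beq_of_sub`) to `sbS P {z | ∀ x < z, z ∈ X x}`, which is in `U` by `NUF.diag`, so in `uB P U` (`fo_mem_uB`).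
-/

universe u

namespace Pool.Agent.Lib.MP_8fac41_lc.FR

open Pool.Agent.Lib.MP_4d8715_gt.KR

variable {P : Type u} [Preorder P] {D : Type u} [LinearOrder D] [WellFoundedLT D] {U : Ultrafilter D}

theorem fo_Diag (hd : Distr P D) (hU : NUF U) (p : P) : Fo p (Kc.Diag (obS P D) (uB P U)) := by
  refine fo_iInf.2 fun F => fo_iInf.2 fun Z => fo_himp.2 fun q2 hq2 hF =>
    fo_himp.2 fun q3 hq3 hZ => fo_reg fun q4 hq4 => ?_
  obtain ⟨q6, hq6, X, hXU, hX⟩ := exists_val hd (hF.mono (hq4.trans hq3)) Set.univ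
    (fun x _ => (enu_obS q4).mem x)
  have h63 : q6 ≤ q3 := hq6.trans hq4
  refine ⟨q6, hq6, ?_⟩
  have hb : Fo q6 (BSet.beq (sbS P {z | ∀ x < z, z ∈ X x}) Z) := by
    refine fo_beq_of_sub fo_sub_sbS ?_ ?_
    · refine fo_Sub.2 fun z q hq hz => ?_
      exact (fo_inf.1 ((fo_iffB.1 (fo_iInf.1 hZ z) q (hq.trans h63)).1 hz)).1
    · intro c q hq
      rw [fo_mem_sbS, fo_iffB.1 (fo_iInf.1 hZ (ob P c)) q (hq.trans h63), fo_inf]
      constructor
      · intro hc
        refine ⟨(enu_obS q).mem c, fo_iInf.2 fun b => fo_iInf.2 fun V => fo_himp.2 fun r0 hr0 h0 =>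
          fo_himp.2 fun r hr h => ?_⟩
        have h1 : Fo r (BSet.bmem b (ob P c)) := h0.mono hr
        refine fo_reg fun s hs => ?_
        obtain ⟨t, ht, x, hx⟩ := (enu_ob s c).cov s le_rfl b (h1.mono hs)
        have h2 : Fo t (Kb.App F (ob P x.1) V) :=
          fo_ext (ψ := fun w => Kb.App F w V) (Kb.ext_App_a F V) hx (h.mono (ht.trans hs))
        have h3 := (hX x.1 (Set.mem_univ _) V t ((((ht.trans hs).trans hr).trans hr0).trans hq)).1 h2
        refine ⟨t, ht, fo_ext (ψ := fun w => BSet.bmem (ob P c) w) (BSet.ext_bmem_right _)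
          (fo_beq_symm h3) (fo_mem_sbS.2 (hc x.1 x.2))⟩
      · rintro ⟨-, h⟩ x hx
        have h1 : Fo q (Kb.App F (ob P x) (sbS P (X x))) :=
          (hX x (Set.mem_univ _) _ q hq).2 (fo_beq_refl _)
        have h2 := (fo_himp.1 (fo_iInf.1 (fo_iInf.1 h (ob P x)) (sbS P (X x)))) q le_rfl
          (fo_mem_ob.2 hx)
        exact fo_mem_sbS.1 (fo_himp.1 h2 q le_rfl h1)
  exact fo_ext (ψ := fun w => BSet.bmem w (uB P U)) (BSet.ext_bmem_left _) hb
    (fo_mem_uB.2 (hU.diag X hXU))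

end Pool.Agent.Lib.MP_8fac41_lc.FR
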