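import Pool.Agent.Lib.MP_8fac41_lc.FR.B.Decide
import Pool.Agent.Lib.MP_8fac41_lc.FR.U.Strong

/-!
# The standard names are ordinals; `ω` (module FR-B-OrdL)

`fo_Ordl`, `fo_Lim`: `fo_all_mem`, `fo_ex_mem`, `enu_obS`, `enu_ob`, `fo_mem_ob`, `fo_Sub`.
`exists_omega`: let `a : D` be the least element as in `NUF.limit_point` (nonempty below, no greatest element below `a`; so every element below `a` is the least element or an immediate
successor: otherwise it would be a smaller such element). `Ind (ob P a)`: the empty set is `ob P ⊥`, `⊥ < a`; if `b < a` and `y = b ∪ {b}` then `y = ob P c`, where `c < a` is the immediate successor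
of `b` (`fo_beq_iff`, `enu_ob`). Minimality: if `Ind w'` then by induction on `b < a` `Fo q (bmem (ob P b) w')`; `fo_Sub` and `enu_ob`.
(See `Kb.Omega_omega` in `MP_4d8715_gt/KR/E/Base.lean` for a similar proof, and `Kb.Emp_eq`, `Kb.Suc_eq`.)
-/

universe u

namespace Pool.Agent.Lib.MP_8fac41_lc.FR

open Pool.Agent.Lib.MP_4d8715_gt.KR

variable {P : Type u} [Preorder P] {A : Type u} [LinearOrder A] [WellFoundedLT A]

private theorem ordL_sub_obS (p : P) (a : A) : Fo p (Kb.Sub (ob P a) (obS P A)) := by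
  refine fo_Sub.2 fun z q hq hz => fo_reg fun r hr => ?_
  obtain ⟨s, hs, b, hb⟩ := (enu_ob r a).cov r le_rfl z (hz.mono hr)
  exact ⟨s, hs, fo_ext (ψ := fun y => BSet.bmem y (obS P A)) (BSet.ext_bmem_left _)
    (fo_beq_symm hb) ((enu_obS s).mem b.1)⟩

private theorem ordL_sub_ob (p : P) {a b : A} (h : b ≤ a) : Fo p (Kb.Sub (ob P b) (ob P a)) := by
  refine fo_Sub.2 fun z q hq hz => fo_reg fun r hr => ?_
  obtain ⟨s, hs, c, hc⟩ := (enu_ob r b).cov r le_rfl z (hz.mono hr)
  exact ⟨s, hs, fo_ext (ψ := fun y => BSet.bmem y (ob P a)) (BSet.ext_bmem_left _)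
    (fo_beq_symm hc) (fo_mem_ob.2 (c.2.trans_le h))⟩

theorem fo_Ordl (p : P) : Fo p (Kc.Ordl (obS P A)) := by
  unfold Kc.Ordl
  refine fo_inf.2 ⟨?_, ?_⟩
  · refine (fo_all_mem (enu_obS p) (ψ := fun y => Kb.Sub y (obS P A))
      (Kb.ext_Sub_x (obS P A)) le_rfl).2 fun a => ?_
    exact ordL_sub_obS p a
  · refine (fo_all_mem (enu_obS p) (ψ := fun y => ⨅ z, BSet.bmem z y ⇨ Kb.Sub z y)
      (BSet.Ext.iInf fun z => (BSet.ext_bmem_right z).himp (Kb.ext_Sub_y z)) le_rfl).2 fun a => ?_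
    refine (fo_all_mem (enu_ob p a) (ψ := fun z => Kb.Sub z (ob P a))
      (Kb.ext_Sub_x (ob P a)) le_rfl).2 fun b => ?_
    exact ordL_sub_ob p b.2.le

theorem fo_Lim (p : P) [Nonempty A] (h : ∀ a : A, ∃ b, a < b) : Fo p (Kc.Lim (obS P A)) := by
  unfold Kc.Lim
  refine fo_inf.2 ⟨fo_Ordl p, fo_inf.2 ⟨?_, ?_⟩⟩
  · refine fo_iSup.2 fun q hq => ?_
    obtain ⟨a⟩ := (inferInstance : Nonempty A)
    exact ⟨q, le_rfl, ob P a, (enu_obS q).mem a⟩
  · refine (fo_all_mem (enu_obS p)
      (ψ := fun a => ⨆ b, BSet.bmem b (obS P A) ⊓ BSet.bmem a b)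
      (BSet.Ext.iSup fun b => (BSet.ext_const _).inf (BSet.ext_bmem_left b)) le_rfl).2 fun a => ?_
    obtain ⟨b, hb⟩ := h a
    refine fo_iSup.2 fun q hq => ?_
    exact ⟨q, le_rfl, ob P b, fo_inf.2 ⟨(enu_obS q).mem b, fo_mem_ob.2 hb⟩⟩

/-- `b` is the immediate successor of `c` -/
private theorem ordL_suc {b c : A} (hcb : c < b) (hno : ∀ d, c < d → ¬ d < b) (p : P)
    (z : BSet (RO P)) : Fo p (BSet.bmem z (ob P b)) ↔
      Fo p (BSet.bmem z (ob P c) ⊔ BSet.beq z (ob P c)) := by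
  constructor
  · intro h
    refine fo_sup.2 fun q hq => ?_
    obtain ⟨r, hr, d, hd⟩ := (enu_ob q b).cov q le_rfl z (h.mono hq)
    refine ⟨r, hr, ?_⟩
    rcases lt_trichotomy d.1 c with h1 | h1 | h1
    · left
      exact fo_ext (ψ := fun y => BSet.bmem y (ob P c)) (BSet.ext_bmem_left _)
        (fo_beq_symm hd) (fo_mem_ob.2 h1)
    · right
      rw [← h1]
      exact hd
    · exact absurd d.2 (hno d.1 h1)
  · intro h
    refine fo_reg fun q hq => ?_
    obtain ⟨r, hr, h1⟩ := fo_sup.1 h q hq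
    refine ⟨r, hr, ?_⟩
    rcases h1 with h1 | h1
    · exact fo_Sub.1 (ordL_sub_ob r hcb.le) z r le_rfl h1
    · exact fo_ext (ψ := fun y => BSet.bmem y (ob P b)) (BSet.ext_bmem_left _)
        (fo_beq_symm h1) (fo_mem_ob.2 hcb)

private theorem ordL_emp {b : A} (hb : ∀ c, ¬ c < b) (p : P) (z : BSet (RO P)) :
    ¬ Fo p (BSet.bmem z (ob P b)) := by
  intro h
  obtain ⟨-, -, c, -⟩ := (enu_ob p b).cov p le_rfl z h
  exact hb c.1 c.2

variable (P) in
theorem exists_omega {U : Ultrafilter A} (hU : NUF U) :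
    ∃ a : A, ∀ p : P, Fo p (Kb.Omega (ob P a)) ∧ Fo p (BSet.bmem (ob P a) (obS P A)) := by
  classical
  have hlp := hU.limit_point
  obtain ⟨a, ⟨⟨b1, hb1⟩, hlim⟩, hmin⟩ : ∃ a : A, ((∃ b, b < a) ∧ ∀ b < a, ∃ c, b < c ∧ c < a) ∧
      ∀ a' < a, ¬ ((∃ b, b < a') ∧ ∀ b < a', ∃ c, b < c ∧ c < a') := by
    refine ⟨(wellFounded_lt (α := A)).min {a | (∃ b, b < a) ∧ ∀ b < a, ∃ c, b < c ∧ c < a} hlp,
      (wellFounded_lt (α := A)).min_mem _ hlp, fun a' ha' h => ?_⟩
    exact (wellFounded_lt (α := A)).not_lt_min _ h ha'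
  refine ⟨a, fun p => ⟨?_, (enu_obS p).mem a⟩⟩
  -- successors
  have hsucc : ∀ b < a, ∃ c, b < c ∧ c < a ∧ ∀ d, b < d → ¬ d < c := by
    intro b hb
    have hne : ({c : A | b < c}).Nonempty := ⟨a, hb⟩
    refine ⟨(wellFounded_lt (α := A)).min {c | b < c} hne,
      (wellFounded_lt (α := A)).min_mem _ hne, ?_, fun d hd h => ?_⟩
    · obtain ⟨c, hc1, hc2⟩ := hlim b hb
      refine lt_of_le_of_lt ?_ hc2
      exact not_lt.1 ((wellFounded_lt (α := A)).not_lt_min _ hc1)
    · exact (wellFounded_lt (α := A)).not_lt_min _ hd h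
  -- the least element
  obtain ⟨b0, hb0, hb0'⟩ : ∃ b0 < a, ∀ c, ¬ c < b0 := by
    have hne : ({c : A | c < a}).Nonempty := ⟨b1, hb1⟩
    refine ⟨(wellFounded_lt (α := A)).min {c | c < a} hne,
      (wellFounded_lt (α := A)).min_mem {c | c < a} hne, fun c hc => ?_⟩
    have h1 : c < a := hc.trans ((wellFounded_lt (α := A)).min_mem {c | c < a} hne)
    exact (wellFounded_lt (α := A)).not_lt_min {c | c < a} h1 hc
  unfold Kb.Omega
  refine fo_inf.2 ⟨?_, ?_⟩
  · unfold Kb.Ind
    refine fo_inf.2 ⟨?_, ?_⟩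
    · refine fo_iInf.2 fun o => fo_himp.2 fun q hq ho => ?_
      unfold Kb.Emp at ho
      have h1 : Fo q (BSet.beq (ob P b0) o) := by
        refine fo_beq_iff.2 fun z r hr => ⟨fun hz => ?_, fun hz => ?_⟩
        · exact absurd hz (ordL_emp hb0' r z)
        · exact absurd hz (fo_compl.1 (fo_iInf.1 ho z) r hr)
      exact fo_ext (ψ := fun y => BSet.bmem y (ob P a)) (BSet.ext_bmem_left _) h1
        (fo_mem_ob.2 hb0)
    · refine fo_iInf.2 fun x => fo_iInf.2 fun y => fo_himp.2 fun q hq hx =>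
        fo_himp.2 fun r hr hy => fo_reg fun s hs => ?_
      obtain ⟨t, ht, b, hb⟩ := (enu_ob s a).cov s le_rfl x ((hx.mono hr).mono hs)
      obtain ⟨c, hbc, hca, hno⟩ := hsucc b.1 b.2
      refine ⟨t, ht, ?_⟩
      have hyt := hy.mono (ht.trans hs)
      have h1 : Fo t (BSet.beq (ob P c) y) := by
        refine fo_beq_iff.2 fun z v hv => ?_
        have h2 := fo_iffB.1 (fo_iInf.1 hyt z) v hv
        rw [ordL_suc hbc hno v z, h2]
        have hbv := hb.mono hv
        constructor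
        · intro h3
          refine fo_sup.2 fun e he => ?_
          obtain ⟨f, hf, h4⟩ := fo_sup.1 h3 e he
          refine ⟨f, hf, ?_⟩
          have hbf := (hbv.mono he).mono hf
          rcases h4 with h4 | h4
          · left
            exact fo_ext (ψ := fun w => BSet.bmem z w) (BSet.ext_bmem_right _)
              (fo_beq_symm hbf) h4
          · right
            exact fo_beq_trans h4 (fo_beq_symm hbf)
        · intro h3
          refine fo_sup.2 fun e he => ?_
          obtain ⟨f, hf, h4⟩ := fo_sup.1 h3 e he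
          refine ⟨f, hf, ?_⟩
          have hbf := (hbv.mono he).mono hf
          rcases h4 with h4 | h4
          · left
            exact fo_ext (ψ := fun w => BSet.bmem z w) (BSet.ext_bmem_right _) hbf h4
          · right
            exact fo_beq_trans h4 hbf
      exact fo_ext (ψ := fun y => BSet.bmem y (ob P a)) (BSet.ext_bmem_left _) h1
        (fo_mem_ob.2 hca)
  · refine fo_iInf.2 fun w' => fo_himp.2 fun q hq hw => ?_
    unfold Kb.Ind at hw
    obtain ⟨hw1, hw2⟩ := fo_inf.1 hw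
    have key : ∀ b : A, b < a → Fo q (BSet.bmem (ob P b) w') := by
      intro b
      induction b using WellFoundedLT.induction with
      | ind b ih =>
        intro hb
        by_cases h1 : ∃ c, c < b
        · have h2 : ∃ c < b, ∀ d, c < d → ¬ d < b := by
            by_contra h3
            refine hmin b hb ⟨h1, fun c hc => ?_⟩
            by_contra h4
            exact h3 ⟨c, hc, fun d hd hdb => h4 ⟨d, hd, hdb⟩⟩
          obtain ⟨c, hcb, hno⟩ := h2
          have h3 := ih c hcb (hcb.trans hb)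
          have h4 : Fo q (Kb.Suc (ob P b) (ob P c)) := by
            unfold Kb.Suc
            refine fo_iInf.2 fun z => fo_iffB.2 fun r hr => ?_
            exact ordL_suc hcb hno r z
          exact fo_himp.1 (fo_himp.1 (fo_iInf.1 (fo_iInf.1 hw2 (ob P c)) (ob P b)) q le_rfl h3)
            q le_rfl h4
        · push Not at h1
          have h2 : Fo q (Kb.Emp (ob P b)) := by
            unfold Kb.Emp
            refine fo_iInf.2 fun z => fo_compl.2 fun r hr => ?_
            exact ordL_emp (fun c => not_lt.2 (h1 c)) r z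
          exact fo_himp.1 (fo_iInf.1 hw1 (ob P b)) q le_rfl h2
    refine fo_Sub.2 fun z r hr hz => fo_reg fun s hs => ?_
    obtain ⟨t, ht, b, hb⟩ := (enu_ob s a).cov s le_rfl z (hz.mono hs)
    refine ⟨t, ht, ?_⟩
    exact fo_ext (ψ := fun y => BSet.bmem y w') (BSet.ext_bmem_left _) (fo_beq_symm hb)
      ((key b.1 b.2).mono ((ht.trans hs).trans hr))

end Pool.Agent.Lib.MP_8fac41_lc.FR
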