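import Pool.Agent.Lib.MP_8fac41_lc.FR.B.UltraF
import Pool.Agent.Lib.MP_8fac41_lc.FR.B.OrdL
import Pool.Agent.Lib.MP_8fac41_lc.FR.B.ComplB
import Pool.Agent.Lib.MP_8fac41_lc.FR.B.DiagB

/-!
# The name of `U` is a normal ultrafilter
-/

universe u

namespace Pool.Agent.Lib.MP_8fac41_lc.FR

open Pool.Agent.Lib.MP_4d8715_gt.KR

variable {P : Type u} [Preorder P] {D : Type u} [LinearOrder D] [WellFoundedLT D] {U : Ultrafilter D}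

theorem fo_NormU (hd : Distr P D) (hU : NUF U) {w : BSet (RO P)} {p : P}
    (hw : Fo p (BSet.bmem w (obS P D))) : Fo p (Kc.NormU w (obS P D) (uB P U)) := by
  unfold Kc.NormU
  exact fo_inf.2 ⟨fo_Ordl p, fo_inf.2 ⟨hw, fo_inf.2 ⟨fo_UltraF hd p, fo_inf.2 ⟨fo_NonPr hU p,
    fo_inf.2 ⟨fo_Compl hd hU p, fo_Diag hd hU p⟩⟩⟩⟩⟩

end Pool.Agent.Lib.MP_8fac41_lc.FR
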