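import Pool.Agent.Lib.MP_8fac41_lc.FR.B.S1Mem
import Pool.Agent.Lib.MP_8fac41_lc.FR.T.NoTh

/-!
# A representing sequence gives a thread (module FR-B-S1Thr)

Apply `no_thread c0 (Gx c0 xs)` (`T/NoTh.lean`): `hopen`: `Fo.mono`, `le_iff`. `hdense`: `Distr.split` (`distr_E D X`) for `eqA xs a`.
`hmem`: `gx_mem` (the members of `U₁` are nonempty).
`h1`: `eqA xs β ξ` is forced (`ξ ∈ Z`), `rB ξ α β` is forced (`fo_rB`), so `ob _ α ∈ xs ξ`; and for `c < α`: `c ∈ xs ξ` iff `rB ξ c β` iff `rB ξ c α` (`fo_rB'`, `TS.tree`, `TS.trans`). So `eqA xs α ξ` is forced, `ξ ∈ Y` (otherwise its complement is forced).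
`h2`: `ξ ∈ Y`: `ob _ α ∈ xs ξ`; `ξ ∈ Z`: so `rB ξ α β`, `fo_rB`.
-/

universe u

namespace Pool.Agent.Lib.MP_8fac41_lc.FR

open Pool.Agent.Lib.MP_4d8715_gt.KR Cardinal Pool.MP_8fac41_lc.FR

variable {D X : Type u} [LinearOrder D] [WellFoundedLT D] [LinearOrder X] [WellFoundedLT X] [Sett D X]
  {rep : X → D → X}

/-- unfolding `eqA` -/
private theorem fo_eqA {xs : D → BSet (RO (E D X))} {a : X} {i : D} {p : E D X} :
    Fo p (eqA xs a i) ↔ Fo p (BSet.bmem (ob (E D X) a) (xs i)) ∧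
      ∀ c < a, ∀ q ≤ p, (Fo q (BSet.bmem (ob (E D X) c) (xs i)) ↔ Fo q (rB i c a)) := by
  unfold eqA
  rw [fo_inf, fo_iInf]
  constructor
  · intro h
    exact ⟨h.1, fun c hc q hq => fo_iffB.1 (h.2 ⟨c, hc⟩) q hq⟩
  · intro h
    exact ⟨h.1, fun c => fo_iffB.2 fun q hq => h.2 c.1 c.2 q hq⟩

/-- below `α`, the predecessors of `α` and of `β` agree if `α` is below `β` -/
private theorem rB_iff {p : E D X} {i : D} {c α β : X} (hα : α ∈ p.1.a) (hβ : β ∈ p.1.a)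
    (hc : c < α) (h : p.1.r i α β) : Fo p (rB i c β) ↔ Fo p (rB i c α) := by
  rw [fo_rB', fo_rB']
  have h2 : ∀ r : E D X, r ≤ p → r.1.r i α β := fun r hr =>
    ((le_iff.1 (show r.1 ≤ p.1 from hr)).2 i α hα β hβ).2 h
  constructor
  · intro h3 q hq
    obtain ⟨r, hr, h4⟩ := h3 q hq
    exact ⟨r, hr, (ts r).tree i c α β h4 (h2 r (hr.trans hq)) hc⟩
  · intro h3 q hq
    obtain ⟨r, hr, h4⟩ := h3 q hq
    exact ⟨r, hr, (ts r).trans i c α β h4 (h2 r (hr.trans hq))⟩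

theorem gx_false (hr : Rep (V1 D X) rep) {c0 : E D X} {xs : D → BSet (RO (E D X))}
    (hxs : ∀ c : X, Fo c0 (iffB (BSet.bmem (ob (E D X) c) (AB D rep))
      (UL (V1 D X) fun i => BSet.bmem (ob (E D X) (rep c i)) (xs i)))) : False := by
  refine no_thread c0 (Gx c0 xs) ?_ ?_ ?_ ?_ ?_
  · rintro α Y p q hq ⟨h1, h2, h3, h4⟩
    exact ⟨hq.trans h1, (le_iff.1 (show q.1 ≤ p.1 from hq)).1 h2, fun i hi => (h3 i hi).mono hq,
      fun i hi => (h4 i hi).mono hq⟩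
  · intro p hp α hα
    obtain ⟨q, hq, Y, h1, h2⟩ := (distr_E D X).split (eqA xs α) p
    exact ⟨q, hq, Y, hq.trans hp, (le_iff.1 (show q.1 ≤ p.1 from hq)).1 hα, h1, h2⟩
  · intro α Y p h
    exact Ultrafilter.nonempty_of_mem (gx_mem hr hxs h)
  · rintro α β Y Z p hα hβ hlt ⟨-, -, -, hY⟩ ⟨-, -, hZ, -⟩ ξ hξ hr1
    by_contra hn
    have h1 := fo_eqA.1 (hZ ξ hξ)
    refine fo_compl.1 (hY ξ hn) p le_rfl (fo_eqA.2 ⟨?_, fun c hc q hq => ?_⟩)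
    · exact (h1.2 α hlt p le_rfl).2 ((fo_rB hα hβ).2 hr1)
    · rw [h1.2 c (hc.trans hlt) q hq]
      have hle := le_iff.1 (show q.1 ≤ p.1 from hq)
      exact rB_iff (hle.1 hα) (hle.1 hβ) hc ((hle.2 ξ α hα β hβ).2 hr1)
  · rintro α β Y Z p hα hβ hlt ⟨-, -, hY, -⟩ ⟨-, -, hZ, -⟩ ξ hξ hξ'
    have h1 := fo_eqA.1 (hY ξ hξ)
    have h2 := fo_eqA.1 (hZ ξ hξ')
    exact (fo_rB hα hβ).1 ((h2.2 α hlt p le_rfl).1 h1.1)

end Pool.Agent.Lib.MP_8fac41_lc.FR
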