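import Pool.Agent.Lib.MP_8fac41_lc.FR.B.S1In
import Pool.Agent.Lib.MP_8fac41_lc.FR.B.S1Thr
import Pool.Agent.Lib.MP_8fac41_lc.FR.U.Rep

/-!
# There is a fresh subset over the ultrapower by `U₁`
-/

universe u

namespace Pool.Agent.Lib.MP_8fac41_lc.FR

open Pool.Agent.Lib.MP_4d8715_gt.KR Cardinal Pool.MP_8fac41_lc.FR

variable {D X : Type u} [LinearOrder D] [WellFoundedLT D] [LinearOrder X] [WellFoundedLT X] [Sett D X]

theorem exists_fresh (p : E D X) :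
    Fo p (⨆ A, Kc.Unb (obS (E D X) X) A ⊓
      Kc.Fresh (obS (E D X) D) (uB (E D X) (V1 D X)) (obS (E D X) X) A) := by
  have hDX : #D < #X := Sett.DX
  obtain ⟨rep, hr⟩ := exists_rep (nuf1 D X) (nufW D X) hDX
  refine Fo.of_le ?_ (le_iSup _ (AB D rep))
  refine fo_inf.2 ⟨fo_AB_unb hr p, ?_⟩
  unfold Kc.Fresh
  refine fo_inf.2 ⟨fo_sub_nmS, fo_inf.2 ⟨fo_compl.2 fun q hq h => ?_, fo_AB_in hr p⟩⟩
  obtain ⟨xs, hxs⟩ := inUlt_elim (distr_E D X) hr h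
  exact gx_false hr hxs

end Pool.Agent.Lib.MP_8fac41_lc.FR
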