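import Pool.Agent.Lib.MP_8fac41_lc.FR.B.S0
import Pool.Agent.Lib.MP_8fac41_lc.FR.B.S1
import Pool.Agent.Lib.MP_8fac41_lc.FR.B.NormB

/-!
# The Boolean value of the statement
-/

universe u

namespace Pool.Agent.Lib.MP_8fac41_lc.FR

open Pool.Agent.Lib.MP_4d8715_gt.KR Cardinal Pool.MP_8fac41_lc.FR

variable {D X : Type u} [LinearOrder D] [WellFoundedLT D] [LinearOrder X] [WellFoundedLT X] [Sett D X]

theorem fo_Config (p : E D X) : Fo p (Kc.Config (RO (E D X))) := by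
  obtain ⟨a, ha⟩ := exists_omega (A := D) (E D X) (nuf1 D X)
  obtain ⟨ha1, ha2⟩ := ha p
  have hne' : Nonempty X := nonempty_X D X
  have key : Fo p (Kb.Omega (ob (E D X) a) ⊓
      (Kc.NormU (ob (E D X) a) (obS (E D X) D) (uB (E D X) (V0 D X)) ⊓
      (Kc.NormU (ob (E D X) a) (obS (E D X) D) (uB (E D X) (V1 D X)) ⊓
      (Kc.Lim (obS (E D X) X) ⊓
      ((⨆ A, Kc.Unb (obS (E D X) X) A ⊓
        Kc.Fresh (obS (E D X) D) (uB (E D X) (V0 D X)) (obS (E D X) X) A)ᶜ ⊓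
      (⨆ A, Kc.Unb (obS (E D X) X) A ⊓
        Kc.Fresh (obS (E D X) D) (uB (E D X) (V1 D X)) (obS (E D X) X) A)))))) := by
    refine fo_inf.2 ⟨ha1, fo_inf.2 ⟨fo_NormU (distr_E D X) (nuf0 D X) ha2,
      fo_inf.2 ⟨fo_NormU (distr_E D X) (nuf1 D X) ha2,
      fo_inf.2 ⟨fo_Lim p (nufW D X).exists_gt, fo_inf.2 ⟨fo_compl.2 fun q hq h => ?_, exists_fresh p⟩⟩⟩⟩⟩
    obtain ⟨r, hr, A, h2⟩ := fo_iSup.1 h q le_rfl
    exact not_fresh r A (fo_inf.1 h2).2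
  unfold Kc.Config
  exact Fo.of_le key (le_iSup_of_le (ob (E D X) a) (le_iSup_of_le (obS (E D X) D)
    (le_iSup_of_le (uB (E D X) (V0 D X)) (le_iSup_of_le (uB (E D X) (V1 D X))
    (le_iSup_of_le (obS (E D X) X) le_rfl)))))

variable (D X) in
theorem bv_Config : Fml.bv Fm.fConfig (![] : Fin 0 → BSet (RO (E D X))) = ⊤ := by
  rw [Fm.bv3_fConfig, eq_top_iff_fo]
  exact fun p => fo_Config p

end Pool.Agent.Lib.MP_8fac41_lc.FR
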