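import Pool.Agent.Lib.MP_8fac41_lc.FR.B.Elim3

/-!
# Elements of the ultrapower are given by sequences (module FR-B-Elim)

`exists_ultD` gives `F, Dn, T`; take `xs = F`. Let `q ≤ p` force `ob P c ∈ x`: densely there is `H` with `fnB H ∈ Dn`, `H ∈_U F`, `T(fnB H) = ob P c`; `eq_of_collapse`: `H =_U rep c`, so `rep c ∈_U F`
(`fo_UL_mono`). Conversely let `q` force `rep c ∈_U F`: `UltD.clo` (`G = F`) gives (densely) `H'` with `fnB H' ∈ Dn`, `H' =_U rep c`; `UltD.val`, `collapse_of_eq`: `T(fnB H') = ob P c`, `H' ∈_U F`, so `ob P c ∈ x`.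
-/

universe u

namespace Pool.Agent.Lib.MP_8fac41_lc.FR

open Pool.Agent.Lib.MP_4d8715_gt.KR

variable {P : Type u} [Preorder P] {D K : Type u} [LinearOrder D] [WellFoundedLT D] [LinearOrder K]
  [WellFoundedLT K] {U : Ultrafilter D} {rep : K → D → K}

theorem inUlt_elim (hd : Distr P D) (hr : Rep U rep) {p : P} {x : BSet (RO P)}
    (h : Fo p (Kc.InUlt (obS P D) (uB P U) x)) :
    ∃ xs : D → BSet (RO P), ∀ c : K,
      Fo p (iffB (BSet.bmem (ob P c) x) (UL U fun i => BSet.bmem (ob P (rep c i)) (xs i))) := by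
  obtain ⟨F, Dn, T, hu, hx⟩ := exists_ultD h
  refine ⟨F, fun c => fo_iffB.2 fun q hq => ⟨fun hz => fo_reg fun r hr' => ?_, fun hz => ?_⟩⟩
  · obtain ⟨s, hs, H, h1, h2, h3⟩ := (hx q hq (ob P c)).1 hz r hr'
    have hsp : s ≤ p := hs.trans (hr'.trans hq)
    have h4 := eq_of_collapse hd hr hu c s hsp H h1 h3
    refine ⟨s, hs, fo_UL_mono (S := Set.univ) Filter.univ_mem ?_ h4 h2⟩
    intro i _ w _ ha hb
    exact fo_ext (ψ := fun v => BSet.bmem v (F i)) (BSet.ext_bmem_left _) ha hb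
  · refine (hx q hq (ob P c)).2 fun r hr' => ?_
    obtain ⟨s, hs, H', h1, h2⟩ := hu.clo r (hr'.trans hq) F (fun i => ob P (rep c i))
      (Or.inr rfl) (hz.mono hr')
    have hsp : s ≤ p := hs.trans (hr'.trans hq)
    obtain ⟨y, h3, -⟩ := hu.val s hsp (fnB H') h1
    have h4 := collapse_of_eq hd hr hu c s hsp H' y h1 h3 h2
    refine ⟨s, hs, H', h1, ?_, ?_⟩
    · refine fo_UL_mono (S := Set.univ) Filter.univ_mem ?_ h2 (hz.mono (hs.trans hr'))
      intro i _ w _ ha hb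
      exact fo_ext (ψ := fun v => BSet.bmem v (F i)) (BSet.ext_bmem_left _) (fo_beq_symm ha) hb
    · exact fo_ext (ψ := fun v => Kb.App T (fnB H') v) (Kb.ext_App_b _ _) h4 h3

end Pool.Agent.Lib.MP_8fac41_lc.FR
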