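import Pool.Agent.Lib.MP_8fac41_lc.FR.B.MemU

/-!
# Unfolding the statement `InUlt` (module FR-B-Elim1)

`UltD U p F Dn T`: the condition `p` forces that `f = fnB F`, `Dn`, `T` are as in the definition of `Fs.InUlt`, expressed with sequences.
`exists_ultD`: unfold `Kc.InUlt`; three times `exists_fo` gives names `f, Dn, T` (the statement respects equality: `BSet.Ext.iSup`, `BSet.Ext.inf`, ... and the lemmas
`Kb.ext_...`, `Kc.ext_...`), `exists_fnB` gives `F`. Members `g` of `Dn` are forced to be functions, so `g = fnB G` by `exists_fnB`; `fo_MemU`, `fo_EqlU`.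
-/

universe u

namespace Pool.Agent.Lib.MP_8fac41_lc.FR

open Pool.Agent.Lib.MP_4d8715_gt.KR

variable {P : Type u} [Preorder P] {D : Type u} [LinearOrder D] [WellFoundedLT D] {U : Ultrafilter D}

/-- the data of an element of the ultrapower -/
structure UltD (U : Ultrafilter D) (p : P) (F : D → BSet (RO P)) (Dn T : BSet (RO P)) : Prop where
  fn : ∀ q ≤ p, ∀ g, Fo q (BSet.bmem g Dn) → ∃ G : D → BSet (RO P), Fo q (BSet.beq g (fnB G))
  val : ∀ q ≤ p, ∀ g, Fo q (BSet.bmem g Dn) → ∃ y, Fo q (Kb.App T g y) ∧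
    ∀ r ≤ q, ∀ z, Fo r (Kb.App T g z) → Fo r (BSet.beq z y)
  clo : ∀ q ≤ p, ∀ G H : D → BSet (RO P), (Fo q (BSet.bmem (fnB G) Dn) ∨ G = F) →
    Fo q (UL U fun x => BSet.bmem (H x) (G x)) → ∃ r ≤ q, ∃ H' : D → BSet (RO P),
      Fo r (BSet.bmem (fnB H') Dn) ∧ Fo r (UL U fun x => BSet.beq (H' x) (H x))
  col : ∀ q ≤ p, ∀ (G : D → BSet (RO P)) (y z : BSet (RO P)), Fo q (BSet.bmem (fnB G) Dn) →
    Fo q (Kb.App T (fnB G) y) → (Fo q (BSet.bmem z y) ↔ ∀ r ≤ q, ∃ s ≤ r, ∃ H : D → BSet (RO P),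
      Fo s (BSet.bmem (fnB H) Dn) ∧ Fo s (UL U fun x => BSet.bmem (H x) (G x)) ∧ Fo s (Kb.App T (fnB H) z))

/-- the body of the definition of `Kc.InUlt` -/
private noncomputable def bodyB (d V x f Dn T : BSet (RO P)) : RO P :=
  Kb.FunOn f d ⊓ ((⨅ g, BSet.bmem g Dn ⇨ Kb.FunOn g d) ⊓ (Kb.FunOn T Dn ⊓ ((⨅ g, ⨅ h, BSet.bmem g Dn ⊔
    BSet.beq g f ⇨ Kb.FunOn h d ⇨ Kc.MemU V h g ⇨ (⨆ h', BSet.bmem h' Dn ⊓ Kc.EqlU V h' h)) ⊓
    ((⨅ g, ⨅ y, ⨅ z, BSet.bmem g Dn ⇨ Kb.App T g y ⇨ iffB (BSet.bmem z y)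
      (⨆ h, BSet.bmem h Dn ⊓ (Kc.MemU V h g ⊓ Kb.App T h z))) ⊓ (⨅ z, iffB
    (BSet.bmem z x) (⨆ h, BSet.bmem h Dn ⊓ (Kc.MemU V h f ⊓ Kb.App T h z)))))))

private theorem inUlt_eq (d V x : BSet (RO P)) :
    Kc.InUlt d V x = ⨆ f, ⨆ Dn, ⨆ T, bodyB d V x f Dn T := rfl

open BSet in
private theorem ext_body_f (d V x Dn T : BSet (RO P)) : Ext (fun f => bodyB d V x f Dn T) := by
  unfold bodyB
  refine (Kb.ext_FunOn_f d).inf ((ext_const _).inf ((ext_const _).inf (Ext.inf ?_ ((ext_const _).inf ?_))))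
  · exact Ext.iInf fun g => Ext.iInf fun h => ((ext_const _).sup (ext_beq_right g)).himp (ext_const _)
  · exact Ext.iInf fun z => (ext_const _).iffB (Ext.iSup fun h => (ext_const _).inf
      ((Kc.ext_MemU_g V h).inf (ext_const _)))

open BSet in
private theorem ext_body_T (d V x f Dn : BSet (RO P)) : Ext (fun T => bodyB d V x f Dn T) := by
  unfold bodyB
  refine (ext_const _).inf ((ext_const _).inf ((Kb.ext_FunOn_f Dn).inf ((ext_const _).inf (Ext.inf ?_ ?_))))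
  · exact Ext.iInf fun g => Ext.iInf fun y => Ext.iInf fun z => (ext_const _).himp
      ((Kb.ext_App_f g y).himp ((ext_const _).iffB (Ext.iSup fun h => (ext_const _).inf
        ((ext_const _).inf (Kb.ext_App_f h z)))))
  · exact Ext.iInf fun z => (ext_const _).iffB (Ext.iSup fun h => (ext_const _).inf
      ((ext_const _).inf (Kb.ext_App_f h z)))

open BSet in
private theorem ext_body_D (d V x f T : BSet (RO P)) : Ext (fun Dn => bodyB d V x f Dn T) := by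
  unfold bodyB
  refine (ext_const _).inf (Ext.inf ?_ ((Kb.ext_FunOn_d T).inf (Ext.inf ?_ (Ext.inf ?_ ?_))))
  · exact Ext.iInf fun g => (ext_bmem_right g).himp (ext_const _)
  · exact Ext.iInf fun g => Ext.iInf fun h => ((ext_bmem_right g).sup (ext_const _)).himp
      ((ext_const _).himp ((ext_const _).himp (Ext.iSup fun h' => (ext_bmem_right h').inf (ext_const _))))
  · exact Ext.iInf fun g => Ext.iInf fun y => Ext.iInf fun z => (ext_bmem_right g).himp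
      ((ext_const _).himp ((ext_const _).iffB (Ext.iSup fun h => (ext_bmem_right h).inf (ext_const _))))
  · exact Ext.iInf fun z => (ext_const _).iffB (Ext.iSup fun h => (ext_bmem_right h).inf (ext_const _))

/-- the members of `⨆ h, ...` in terms of sequences -/
private theorem fo_sup_fn {p : P} {Dn T : BSet (RO P)}
    (hfn : ∀ q ≤ p, ∀ g, Fo q (BSet.bmem g Dn) → ∃ G : D → BSet (RO P), Fo q (BSet.beq g (fnB G)))
    (G : D → BSet (RO P)) (z : BSet (RO P)) {q : P} (hq : q ≤ p) :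
    Fo q (⨆ h, BSet.bmem h Dn ⊓ (Kc.MemU (uB P U) h (fnB G) ⊓ Kb.App T h z)) ↔
      ∀ r ≤ q, ∃ s ≤ r, ∃ H : D → BSet (RO P),
        Fo s (BSet.bmem (fnB H) Dn) ∧ Fo s (UL U fun x => BSet.bmem (H x) (G x)) ∧
          Fo s (Kb.App T (fnB H) z) := by
  rw [fo_iSup]
  constructor
  · intro h r hr
    obtain ⟨s, hs, g, h1⟩ := h r hr
    obtain ⟨h2, h3⟩ := fo_inf.1 h1
    obtain ⟨H, hH⟩ := hfn s ((hs.trans hr).trans hq) g h2
    have h4 : BSet.Ext (fun g => BSet.bmem g Dn ⊓ (Kc.MemU (uB P U) g (fnB G) ⊓ Kb.App T g z)) :=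
      (BSet.ext_bmem_left Dn).inf ((Kc.ext_MemU_h (uB P U) (fnB G)).inf (Kb.ext_App_a T z))
    have h5 := fo_ext h4 hH h1
    obtain ⟨h6, h7⟩ := fo_inf.1 h5
    obtain ⟨h8, h9⟩ := fo_inf.1 h7
    exact ⟨s, hs, H, h6, fo_MemU.1 h8, h9⟩
  · intro h r hr
    obtain ⟨s, hs, H, h1, h2, h3⟩ := h r hr
    exact ⟨s, hs, fnB H, fo_inf.2 ⟨h1, fo_inf.2 ⟨fo_MemU.2 h2, h3⟩⟩⟩

theorem exists_ultD {p : P} {x : BSet (RO P)} (h : Fo p (Kc.InUlt (obS P D) (uB P U) x)) :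
    ∃ (F : D → BSet (RO P)) (Dn T : BSet (RO P)), UltD U p F Dn T ∧ ∀ q ≤ p, ∀ z,
      (Fo q (BSet.bmem z x) ↔ ∀ r ≤ q, ∃ s ≤ r, ∃ H : D → BSet (RO P),
        Fo s (BSet.bmem (fnB H) Dn) ∧ Fo s (UL U fun x => BSet.bmem (H x) (F x)) ∧ Fo s (Kb.App T (fnB H) z)) := by
  rw [inUlt_eq] at h
  obtain ⟨f, h⟩ := exists_fo (BSet.Ext.iSup fun Dn => BSet.Ext.iSup fun T =>
    ext_body_f (obS P D) (uB P U) x Dn T) h
  obtain ⟨Dn, h⟩ := exists_fo (BSet.Ext.iSup fun T => ext_body_D (obS P D) (uB P U) x f T) h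
  obtain ⟨T, h⟩ := exists_fo (ext_body_T (obS P D) (uB P U) x f Dn) h
  obtain ⟨F, hF⟩ := exists_fnB (fo_inf.1 h).1
  have h := fo_ext (ext_body_f (obS P D) (uB P U) x Dn T) hF h
  unfold bodyB at h
  obtain ⟨-, h⟩ := fo_inf.1 h
  obtain ⟨hA, h⟩ := fo_inf.1 h
  obtain ⟨hT, h⟩ := fo_inf.1 h
  obtain ⟨hC, h⟩ := fo_inf.1 h
  obtain ⟨hE, hx⟩ := fo_inf.1 h
  have hfn : ∀ q ≤ p, ∀ g, Fo q (BSet.bmem g Dn) → ∃ G : D → BSet (RO P), Fo q (BSet.beq g (fnB G)) :=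
    fun q hq g hg => exists_fnB (fo_himp.1 (fo_iInf.1 hA g) q hq hg)
  refine ⟨F, Dn, T, ⟨hfn, ?_, ?_, ?_⟩, ?_⟩
  · intro q hq g hg
    have h1 := fo_himp.1 (fo_iInf.1 (fo_inf.1 hT).2 g) q hq hg
    have h2 : BSet.Ext (fun b => ⨅ c, iffB (Kb.App T g c) (BSet.beq c b)) :=
      BSet.Ext.iInf fun c => (BSet.ext_const _).iffB (BSet.ext_beq_right c)
    obtain ⟨y, hy⟩ := exists_fo h2 h1
    refine ⟨y, (fo_iffB.1 (fo_iInf.1 hy y) q le_rfl).2 (fo_beq_refl _), fun r hr z hz => ?_⟩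
    exact (fo_iffB.1 (fo_iInf.1 hy z) r hr).1 hz
  · intro q hq G H hG hH
    have h1 := fo_himp.1 (fo_iInf.1 (fo_iInf.1 hC (fnB G)) (fnB H)) q hq (by
      rw [fo_sup]
      intro r hr
      refine ⟨r, le_rfl, ?_⟩
      rcases hG with hG | hG
      · exact Or.inl (hG.mono hr)
      · rw [hG]
        exact Or.inr (fo_beq_refl _))
    have h2 := fo_himp.1 h1 q le_rfl (fo_FunOn_fnB H)
    have h3 := fo_himp.1 h2 q le_rfl (fo_MemU.2 hH)
    obtain ⟨r, hr, h', h4⟩ := fo_iSup.1 h3 q le_rfl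
    obtain ⟨h5, h6⟩ := fo_inf.1 h4
    obtain ⟨H', hH'⟩ := hfn r (hr.trans hq) h' h5
    have h7 : BSet.Ext (fun h' => BSet.bmem h' Dn ⊓ Kc.EqlU (uB P U) h' (fnB H)) :=
      (BSet.ext_bmem_left Dn).inf (Kc.ext_EqlU_h (uB P U) (fnB H))
    have h8 := fo_inf.1 (fo_ext h7 hH' h4)
    exact ⟨r, hr, H', h8.1, fo_EqlU.1 h8.2⟩
  · intro q hq G y z hG hy
    have h1 := fo_himp.1 (fo_iInf.1 (fo_iInf.1 (fo_iInf.1 hE (fnB G)) y) z) q hq hG
    have h2 := fo_himp.1 h1 q le_rfl hy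
    rw [fo_iffB.1 h2 q le_rfl]
    exact fo_sup_fn hfn G z hq
  · intro q hq z
    rw [fo_iffB.1 (fo_iInf.1 hx z) q hq]
    exact fo_sup_fn hfn F z hq

end Pool.Agent.Lib.MP_8fac41_lc.FR
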