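import Pool.Agent.Lib.MP_8fac41_lc.FR.B.Elim1
import Pool.Agent.Lib.MP_8fac41_lc.FR.U.RepBasic

/-!
# The collapse of representing functions, first half (module FR-B-Elim2)

`near_rep`: if `{x | H x ∈ (rep c x)ˇ} ∈ U` is forced, then densely (`Distr.choose`: for every `x` some `z : Option K` such that either `z = some a`, `a < rep c x`, `H x = ob P a` is forced, or
`z = none` and `(bmem (H x) (ob P (rep c x)))ᶜ` is forced) there is `k : D → K` with `{x | k x < rep c x} ∈ U` and `{x | H x = k x} ∈ U` forced; `Rep.exists_lt` gives `b < c` with `rep b =_U k`.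

`collapse_of_eq` (b): by induction on `c`: if `{x | G x = rep c x} ∈ U` is forced and `y = T(fnB G)`, then `y = ob P c`. Proof: `fo_beq_iff`. If `z ∈ y` then (`UltD.col`) densely there is `H` with `fnB H ∈ Dn`,
`H ∈_U G`, `z = T(fnB H)`; then `H ∈_U rep c`, `near_rep`: `H =_U rep b`, `b < c`, so `z = ob P b` by induction, `z ∈ ob P c`. Conversely if `z ∈ ob P c` then densely `z = ob P b`, `b < c` (`enu_ob`);
`rep b ∈_U G`; `UltD.clo` for `H = fun x => ob P (rep b x)` gives `H'` with `fnB H' ∈ Dn`, `H' =_U rep b`; `UltD.val` gives `z' = T(fnB H')`, `z' = ob P b` by induction, and `H' ∈_U G`, so `z ∈ y` by `UltD.col`.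
-/

universe u

namespace Pool.Agent.Lib.MP_8fac41_lc.FR

open Pool.Agent.Lib.MP_4d8715_gt.KR

variable {P : Type u} [Preorder P] {D K : Type u} [LinearOrder D] [WellFoundedLT D] [LinearOrder K]
  [WellFoundedLT K] {U : Ultrafilter D} {rep : K → D → K}

theorem near_rep (hd : Distr P D) (hr : Rep U rep) {p : P} {H : D → BSet (RO P)} {c : K}
    (h : Fo p (UL U fun x => BSet.bmem (H x) (ob P (rep c x)))) :
    ∃ q ≤ p, ∃ b < c, Fo q (UL U fun x => BSet.beq (H x) (ob P (rep b x))) := by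
  obtain ⟨q, hq, f, hf⟩ := hd.choose (Z := Option K)
    (fun x z q => (∃ a, z = some a ∧ a < rep c x ∧ Fo q (BSet.beq (H x) (ob P a))) ∨
      (z = none ∧ Fo q (BSet.bmem (H x) (ob P (rep c x)))ᶜ)) p (by
      rintro x z q r (⟨a, h1, h2, h3⟩ | ⟨h1, h2⟩) hrq
      · exact Or.inl ⟨a, h1, h2, h3.mono hrq⟩
      · exact Or.inr ⟨h1, h2.mono hrq⟩) (by
      intro x q _
      obtain ⟨r, hr, h1 | h1⟩ := fo_decide (BSet.bmem (H x) (ob P (rep c x))) q
      · obtain ⟨s, hs, a, h2⟩ := (enu_ob r (rep c x)).cov r le_rfl _ h1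
        exact ⟨s, hs.trans hr, some a.1, Or.inl ⟨a.1, rfl, a.2, h2⟩⟩
      · exact ⟨r, hr, none, Or.inr ⟨rfl, h1⟩⟩)
  obtain ⟨r, hrq, S, hS, h1⟩ := fo_UL.1 h q hq
  have h2 : ∀ x ∈ S, ∃ a, f x = some a ∧ a < rep c x ∧ Fo q (BSet.beq (H x) (ob P a)) := by
    intro x hx
    rcases hf x with h3 | ⟨_, h3⟩
    · exact h3
    · exact absurd (h1 x hx) (fo_compl.1 h3 r hrq)
  have h3 : {x | (f x).getD (rep c x) < rep c x} ∈ U := by
    refine Filter.mem_of_superset hS fun x hx => ?_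
    obtain ⟨a, ha, hb, _⟩ := h2 x hx
    show (f x).getD (rep c x) < rep c x
    rw [ha]
    exact hb
  obtain ⟨b, hb, h4⟩ := hr.exists_lt h3
  refine ⟨r, hrq.trans hq, b, hb, fo_UL_of (Filter.inter_mem hS h4) ?_⟩
  rintro x ⟨hx1, hx2⟩
  obtain ⟨a, ha, _, h5⟩ := h2 x hx1
  have h6 : rep b x = a := by
    have h7 : rep b x = (f x).getD (rep c x) := hx2
    rw [h7, ha]
    rfl
  rw [h6]
  exact h5.mono hrq

theorem collapse_of_eq (hd : Distr P D) (hr : Rep U rep) {p : P} {F : D → BSet (RO P)} {Dn T : BSet (RO P)}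
    (hu : UltD U p F Dn T) (c : K) : ∀ q ≤ p, ∀ (G : D → BSet (RO P)) (y : BSet (RO P)),
      Fo q (BSet.bmem (fnB G) Dn) → Fo q (Kb.App T (fnB G) y) →
      Fo q (UL U fun x => BSet.beq (G x) (ob P (rep c x))) → Fo q (BSet.beq y (ob P c)) := by
  induction c using WellFoundedLT.induction with
  | ind c ih =>
  intro q hq G y h1 h2 h3
  refine fo_beq_iff.2 fun z r hrq => ⟨fun hz => fo_reg fun s hs => ?_, fun hz => fo_reg fun s hs => ?_⟩
  · obtain ⟨t, ht, H, h4, h5, h6⟩ := (hu.col r (hrq.trans hq) G y z (h1.mono hrq) (h2.mono hrq)).1 hz s hs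
    have h7 : Fo t (UL U fun x => BSet.bmem (H x) (ob P (rep c x))) := by
      refine fo_UL_mono (S := Set.univ) Filter.univ_mem ?_ h5 (h3.mono (ht.trans (hs.trans hrq)))
      intro x _ w _ ha hb
      exact fo_ext (ψ := fun v => BSet.bmem (H x) v) (BSet.ext_bmem_right _) hb ha
    obtain ⟨t', ht', b, hb, h8⟩ := near_rep hd hr h7
    have h9 := ih b hb t' (ht'.trans (ht.trans (hs.trans (hrq.trans hq)))) H z (h4.mono ht') (h6.mono ht') h8
    exact ⟨t', ht'.trans ht, fo_ext (ψ := fun w => BSet.bmem w (ob P c)) (BSet.ext_bmem_left _)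
      (fo_beq_symm h9) (fo_mem_ob.2 hb)⟩
  · obtain ⟨t, ht, ⟨b, hb⟩, h4⟩ := (enu_ob s c).cov s le_rfl z (hz.mono hs)
    have htq : t ≤ q := ht.trans (hs.trans hrq)
    have h5 : Fo t (UL U fun x => BSet.bmem (ob P (rep b x)) (G x)) := by
      refine fo_UL_mono (hr.lt b c hb) ?_ (h3.mono htq) (h3.mono htq)
      intro x hx w _ ha _
      exact fo_ext (ψ := fun v => BSet.bmem (ob P (rep b x)) v) (BSet.ext_bmem_right _)
        (fo_beq_symm ha) (fo_mem_ob.2 hx)
    obtain ⟨t', ht', H', h6, h7⟩ := hu.clo t (htq.trans hq) G (fun x => ob P (rep b x))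
      (Or.inl (h1.mono htq)) h5
    have htp : t' ≤ p := ht'.trans (htq.trans hq)
    obtain ⟨z', h8, _⟩ := hu.val t' htp (fnB H') h6
    have h9 := ih b hb t' htp H' z' h6 h8 h7
    have h10 : Fo t' (UL U fun x => BSet.bmem (H' x) (G x)) := by
      refine fo_UL_mono (S := Set.univ) Filter.univ_mem ?_ h7 (h5.mono ht')
      intro x _ w _ ha hb
      exact fo_ext (ψ := fun v => BSet.bmem v (G x)) (BSet.ext_bmem_left _) (fo_beq_symm ha) hb
    have h11 : Fo t' (BSet.bmem z' y) :=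
      (hu.col t' htp G y z' (h1.mono (ht'.trans htq)) (h2.mono (ht'.trans htq))).2
        fun w hw => ⟨w, le_rfl, H', h6.mono hw, h10.mono hw, h8.mono hw⟩
    refine ⟨t', ht'.trans ht, fo_ext (ψ := fun w => BSet.bmem w y) (BSet.ext_bmem_left _) ?_ h11⟩
    exact fo_beq_trans h9 (fo_beq_symm (h4.mono ht'))

end Pool.Agent.Lib.MP_8fac41_lc.FR
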