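import Pool.Agent.Lib.MP_8fac41_lc.FR.B.Elim2

/-!
# The collapse of representing functions, second half (module FR-B-Elim3)

`eq_of_collapse` (a): by induction on `c`: if `fnB G ∈ Dn` and `T(fnB G) = ob P c`, then `{x | G x = rep c x} ∈ U` is forced. Proof: otherwise (`fo_decide`, `fo_UL_compl`) some `q' ≤ q` forces
`UL U fun x => (beq (G x) (ob P (rep c x)))ᶜ`, so for some `r ≤ q'`, `S ∈ U`, for `x ∈ S`: `Fo r (beq (G x) (ob P (rep c x)))ᶜ`. For `x ∈ S` some name `k x` is (maximum principle `exists_fo`, from `BSet.beq_ext`) forced to be in exactly one of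
`G x`, `ob P (rep c x)`. By `Distr.split` there is `s ≤ r` which decides for every `x ∈ S` whether `k x ∈ G x`, `k x ∉ ob P (rep c x)` (case A) or `k x ∉ G x`, `k x ∈ ob P (rep c x)` (case B). One of the cases happens
for `U`-many `x`.
Case A: `k ∈_U G`, so by `UltD.clo` (densely) `H'` with `fnB H' ∈ Dn`, `H' =_U k`, so `H' ∈_U G`; `z = T(fnB H')` (`UltD.val`) is in `ob P c` by `UltD.col`, so densely `z = ob P b`, `b < c`; by induction `H' =_U rep b`. So `k =_U rep b`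
and `rep b ∈_U rep c` (`Rep.lt`), so `k ∈_U rep c`, a contradiction.
Case B: `k ∈_U rep c`, `near_rep`: `k =_U rep b`, `b < c`. `ob P b ∈ ob P c = T(fnB G)`, so by `UltD.col` densely there is `H` with `fnB H ∈ Dn`, `H ∈_U G`, `T(fnB H) = ob P b`; by induction `H =_U rep b =_U k`, so `k ∈_U G`, a contradiction.
(`collapse_of_eq` is not needed.)
-/

universe u

namespace Pool.Agent.Lib.MP_8fac41_lc.FR

open Pool.Agent.Lib.MP_4d8715_gt.KR

variable {P : Type u} [Preorder P] {D K : Type u} [LinearOrder D] [WellFoundedLT D] [LinearOrder K]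
  [WellFoundedLT K] {U : Ultrafilter D} {rep : K → D → K}

/-- names which are forced to be different are densely separated by an element -/
private theorem exists_sep {r : P} {x y : BSet (RO P)} (h : Fo r (BSet.beq x y)ᶜ) :
    ∃ s ≤ r, ∃ k : BSet (RO P), (Fo s (BSet.bmem k x) ∧ Fo s (BSet.bmem k y)ᶜ) ∨
      (Fo s (BSet.bmem k x)ᶜ ∧ Fo s (BSet.bmem k y)) := by
  by_contra hcon
  push Not at hcon
  refine fo_compl.1 h r le_rfl (fo_beq_iff.2 fun z q hq => ⟨fun hz => fo_reg fun s hs => ?_,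
    fun hz => fo_reg fun s hs => ?_⟩)
  · obtain ⟨t, ht, h1 | h1⟩ := fo_decide (BSet.bmem z y) s
    · exact ⟨t, ht, h1⟩
    · exact absurd h1 ((hcon t (ht.trans (hs.trans hq)) z).1 (hz.mono (ht.trans hs)))
  · obtain ⟨t, ht, h1 | h1⟩ := fo_decide (BSet.bmem z x) s
    · exact ⟨t, ht, h1⟩
    · exact absurd (hz.mono (ht.trans hs)) ((hcon t (ht.trans (hs.trans hq)) z).2 h1)

theorem eq_of_collapse (hd : Distr P D) (hr : Rep U rep) {p : P} {F : D → BSet (RO P)} {Dn T : BSet (RO P)}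
    (hu : UltD U p F Dn T) (c : K) : ∀ q ≤ p, ∀ G : D → BSet (RO P),
      Fo q (BSet.bmem (fnB G) Dn) → Fo q (Kb.App T (fnB G) (ob P c)) →
      Fo q (UL U fun x => BSet.beq (G x) (ob P (rep c x))) := by
  induction c using WellFoundedLT.induction with
  | ind c ih =>
  intro q hq G h1 h2
  refine fo_reg fun q1 hq1 => ?_
  obtain ⟨r0, hr0, h3 | h3⟩ := fo_decide (UL U fun x => BSet.beq (G x) (ob P (rep c x))) q1
  · exact ⟨r0, hr0, h3⟩
  exfalso
  obtain ⟨r, hrr0, S, hS, h4⟩ := fo_UL.1 ((fo_UL_compl hd).1 h3) r0 le_rfl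
  have hrq : r ≤ q := hrr0.trans (hr0.trans hq1)
  obtain ⟨s, hs, f, hf⟩ := hd.choose (Z := BSet (RO P) × Bool)
    (fun x z w => x ∈ S →
      (z.2 = true ∧ Fo w (BSet.bmem z.1 (G x)) ∧ Fo w (BSet.bmem z.1 (ob P (rep c x)))ᶜ) ∨
      (z.2 = false ∧ Fo w (BSet.bmem z.1 (G x))ᶜ ∧ Fo w (BSet.bmem z.1 (ob P (rep c x))))) r (by
      intro x z w v h5 hvw hx
      rcases h5 hx with ⟨h6, h7, h8⟩ | ⟨h6, h7, h8⟩
      · exact Or.inl ⟨h6, h7.mono hvw, h8.mono hvw⟩
      · exact Or.inr ⟨h6, h7.mono hvw, h8.mono hvw⟩) (by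
      intro x w hw
      by_cases hx : x ∈ S
      · obtain ⟨v, hv, k, hk | hk⟩ := exists_sep ((h4 x hx).mono hw)
        · exact ⟨v, hv, (k, true), fun _ => Or.inl ⟨rfl, hk.1, hk.2⟩⟩
        · exact ⟨v, hv, (k, false), fun _ => Or.inr ⟨rfl, hk.1, hk.2⟩⟩
      · exact ⟨w, le_rfl, (ob P (rep c x), true), fun h => absurd h hx⟩)
  have hsq : s ≤ q := hs.trans hrq
  rcases U.mem_or_compl_mem {x | (f x).2 = true} with hA | hB
  · -- case A
    have hA' : ∀ x ∈ S ∩ {x | (f x).2 = true}, Fo s (BSet.bmem (f x).1 (G x)) ∧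
        Fo s (BSet.bmem (f x).1 (ob P (rep c x)))ᶜ := by
      rintro x ⟨hx1, hx2⟩
      rcases hf x hx1 with h5 | h5
      · exact h5.2
      · exfalso
        have h6 : (f x).2 = true := hx2
        rw [h5.1] at h6
        exact Bool.false_ne_true h6
    have hS1 : S ∩ {x | (f x).2 = true} ∈ U := Filter.inter_mem hS hA
    have h5 : Fo s (UL U fun x => BSet.bmem (f x).1 (G x)) := fo_UL_of hS1 fun x hx => (hA' x hx).1
    obtain ⟨t, ht, H', h6, h7⟩ := hu.clo s (hsq.trans hq) G (fun x => (f x).1) (Or.inl (h1.mono hsq)) h5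
    have htq : t ≤ q := ht.trans hsq
    have h8 : Fo t (UL U fun x => BSet.bmem (H' x) (G x)) := by
      refine fo_UL_mono (S := Set.univ) Filter.univ_mem ?_ h7 (h5.mono ht)
      intro x _ w _ ha hb
      exact fo_ext (ψ := fun v => BSet.bmem v (G x)) (BSet.ext_bmem_left _) (fo_beq_symm ha) hb
    obtain ⟨z, h9, _⟩ := hu.val t (htq.trans hq) (fnB H') h6
    have h10 : Fo t (BSet.bmem z (ob P c)) :=
      (hu.col t (htq.trans hq) G (ob P c) z (h1.mono htq) (h2.mono htq)).2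
        fun w hw => ⟨w, le_rfl, H', h6.mono hw, h8.mono hw, h9.mono hw⟩
    obtain ⟨t', ht', ⟨b, hb⟩, h11⟩ := (enu_ob t c).cov t le_rfl z h10
    have h12 : Fo t' (Kb.App T (fnB H') (ob P b)) :=
      fo_ext (ψ := fun v => Kb.App T (fnB H') v) (Kb.ext_App_b T (fnB H')) h11 (h9.mono ht')
    have h13 := ih b hb t' (ht'.trans (htq.trans hq)) H' (h6.mono ht') h12
    have h14 : Fo t' (UL U fun x => BSet.beq (f x).1 (ob P (rep b x))) := by
      refine fo_UL_mono (S := Set.univ) Filter.univ_mem ?_ (h7.mono ht') h13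
      intro x _ w _ ha hb
      exact fo_beq_trans (fo_beq_symm ha) hb
    refine fo_UL_false (Filter.inter_mem hS1 (hr.lt b c hb)) ?_ h14
    rintro x ⟨hx1, hx2⟩ w hw h15
    refine fo_compl.1 (hA' x hx1).2 w (hw.trans (ht'.trans ht)) ?_
    exact fo_ext (ψ := fun v => BSet.bmem v (ob P (rep c x))) (BSet.ext_bmem_left _)
      (fo_beq_symm h15) (fo_mem_ob.2 hx2)
  · -- case B
    have hB' : ∀ x ∈ S ∩ {x | (f x).2 = true}ᶜ, Fo s (BSet.bmem (f x).1 (G x))ᶜ ∧
        Fo s (BSet.bmem (f x).1 (ob P (rep c x))) := by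
      rintro x ⟨hx1, hx2⟩
      rcases hf x hx1 with h5 | h5
      · exact absurd h5.1 hx2
      · exact h5.2
    have hS1 : S ∩ {x | (f x).2 = true}ᶜ ∈ U := Filter.inter_mem hS hB
    have h5 : Fo s (UL U fun x => BSet.bmem (f x).1 (ob P (rep c x))) :=
      fo_UL_of hS1 fun x hx => (hB' x hx).2
    obtain ⟨t, ht, b, hb, h6⟩ := near_rep hd hr h5
    have htq : t ≤ q := ht.trans hsq
    obtain ⟨t', ht', H', h7, h8, h9⟩ := (hu.col t (htq.trans hq) G (ob P c) (ob P b) (h1.mono htq)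
      (h2.mono htq)).1 (fo_mem_ob.2 hb) t le_rfl
    have h10 := ih b hb t' (ht'.trans (htq.trans hq)) H' h7 h9
    have h11 : Fo t' (UL U fun x => BSet.beq (H' x) (f x).1) := by
      refine fo_UL_mono (S := Set.univ) Filter.univ_mem ?_ h10 (h6.mono ht')
      intro x _ w _ ha hb
      exact fo_beq_trans ha (fo_beq_symm hb)
    have h12 : Fo t' (UL U fun x => BSet.bmem (f x).1 (G x)) := by
      refine fo_UL_mono (S := Set.univ) Filter.univ_mem ?_ h11 h8
      intro x _ w _ ha hb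
      exact fo_ext (ψ := fun v => BSet.bmem v (G x)) (BSet.ext_bmem_left _) ha hb
    refine fo_UL_false hS1 ?_ h12
    intro x hx w hw h13
    exact fo_compl.1 (hB' x hx).1 w (hw.trans (ht'.trans ht)) h13

end Pool.Agent.Lib.MP_8fac41_lc.FR
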