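import Pool.Agent.Lib.MP_4d8715_gt.KR.R.Defs
import Pool.Agent.Lib.MP_4d8715_gt.KR.E.Base
import Pool.Agent.Lib.MP_4d8715_gt.KR.Z.Full

/-!
# The forcing relation and Boolean values

`P` is a preordered type, `RO P` its complete Boolean algebra, `Fo p x` says that the condition `p` forces
(belongs to) the Boolean value `x`.
-/

universe u

namespace Pool.Agent.Lib.MP_8fac41_lc.FR

open Pool.Agent.Lib.MP_4d8715_gt.KR

variable {P : Type u} [Preorder P]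

/-- the condition `p` forces `x` -/
def Fo (p : P) (x : RO P) : Prop := p ∈ x.carrier

theorem Fo.of_le {p : P} {x y : RO P} (h : Fo p x) (hxy : x ≤ y) : Fo p y := hxy h

theorem Fo.mono {p q : P} {x : RO P} (h : Fo p x) (hq : q ≤ p) : Fo q x := x.down p h q hq

/-- density: it suffices to force `x` densely below `p` -/
theorem fo_reg {p : P} {x : RO P} (h : ∀ q ≤ p, ∃ r ≤ q, Fo r x) : Fo p x :=
  x.reg p fun q hq => (h q hq).imp fun _ hr => ⟨hr.1, hr.2⟩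

theorem fo_top {p : P} : Fo p (⊤ : RO P) := RO.mem_top p

theorem fo_bot {p : P} : ¬ Fo p (⊥ : RO P) := RO.mem_bot p

theorem fo_inf {p : P} {x y : RO P} : Fo p (x ⊓ y) ↔ Fo p x ∧ Fo p y := RO.mem_inf

theorem fo_sup {p : P} {x y : RO P} : Fo p (x ⊔ y) ↔ ∀ q ≤ p, ∃ r ≤ q, Fo r x ∨ Fo r y := by
  constructor
  · intro h q hq
    obtain ⟨r, hr, h2⟩ := RO.mem_sup.1 h q hq
    exact ⟨r, hr, h2⟩
  · intro h
    refine RO.mem_sup.2 fun q hq => ?_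
    obtain ⟨r, hr, h2⟩ := h q hq
    exact ⟨r, hr, h2⟩

theorem fo_compl {p : P} {x : RO P} : Fo p xᶜ ↔ ∀ q ≤ p, ¬ Fo q x := RO.mem_compl

theorem fo_himp {p : P} {x y : RO P} : Fo p (x ⇨ y) ↔ ∀ q ≤ p, Fo q x → Fo q y := RO.mem_himp

theorem fo_iffB {p : P} {x y : RO P} : Fo p (iffB x y) ↔ ∀ q ≤ p, (Fo q x ↔ Fo q y) := by
  unfold iffB
  rw [fo_inf, fo_himp, fo_himp]
  exact ⟨fun h q hq => ⟨h.1 q hq, h.2 q hq⟩, fun h => ⟨fun q hq => (h q hq).1, fun q hq => (h q hq).2⟩⟩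

theorem fo_iInf {ι : Sort*} {p : P} {f : ι → RO P} : Fo p (⨅ i, f i) ↔ ∀ i, Fo p (f i) := RO.mem_iInf

theorem fo_iSup {ι : Sort*} {p : P} {f : ι → RO P} :
    Fo p (⨆ i, f i) ↔ ∀ q ≤ p, ∃ r ≤ q, ∃ i, Fo r (f i) := by
  constructor
  · intro h q hq
    obtain ⟨r, hr, i, h2⟩ := RO.mem_iSup.1 h q hq
    exact ⟨r, hr, i, h2⟩
  · intro h
    refine RO.mem_iSup.2 fun q hq => ?_
    obtain ⟨r, hr, i, h2⟩ := h q hq
    exact ⟨r, hr, i, h2⟩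

theorem le_iff_fo {x y : RO P} : x ≤ y ↔ ∀ p, Fo p x → Fo p y := Iff.rfl

theorem eq_iff_fo {x y : RO P} : x = y ↔ ∀ p, Fo p x ↔ Fo p y := by
  constructor
  · rintro rfl p
    exact Iff.rfl
  · intro h
    exact le_antisymm (fun p hp => (h p).1 hp) (fun p hp => (h p).2 hp)

theorem eq_top_iff_fo {x : RO P} : x = ⊤ ↔ ∀ p, Fo p x := by
  constructor
  · rintro rfl p
    exact fo_top
  · intro h
    exact le_antisymm le_top (fun p _ => h p)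

theorem fo_decide (x : RO P) (p : P) : ∃ q ≤ p, Fo q x ∨ Fo q xᶜ := by
  by_cases h : ∃ q ≤ p, Fo q x
  · obtain ⟨q, h1, h2⟩ := h
    exact ⟨q, h1, Or.inl h2⟩
  · exact ⟨p, le_rfl, Or.inr (fo_compl.2 fun q hq h1 => h ⟨q, hq, h1⟩)⟩

/-- the Boolean value of an open set of conditions -/
noncomputable def ro (A : Set P) : RO P := RO.gen A

theorem fo_ro {A : Set P} (hA : ∀ p ∈ A, ∀ q ≤ p, q ∈ A) {p : P} : Fo p (ro A) ↔ ∀ q ≤ p, ∃ r ≤ q, r ∈ A := by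
  constructor
  · intro h q hq
    obtain ⟨r, hr, t, ht, hrt⟩ := h q hq
    exact ⟨r, hr, hA t ht r hrt⟩
  · intro h q hq
    obtain ⟨r, hr, h2⟩ := h q hq
    exact ⟨r, hr, r, h2, le_rfl⟩

instance : Nonempty (BSet (RO P)) := ⟨BSet.mk PEmpty (fun i => i.elim) (fun i => i.elim)⟩

/-! ### Equality, the maximum principle -/

theorem fo_ext {ψ : BSet (RO P) → RO P} (hψ : BSet.Ext ψ) {p : P} {x y : BSet (RO P)}
    (h : Fo p (BSet.beq x y)) (hx : Fo p (ψ x)) : Fo p (ψ y) :=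
  (fo_inf.2 ⟨h, hx⟩).of_le (hψ x y)

theorem fo_beq_refl {p : P} (x : BSet (RO P)) : Fo p (BSet.beq x x) := by
  rw [BSet.beq_refl]
  exact fo_top

theorem fo_beq_symm {p : P} {x y : BSet (RO P)} (h : Fo p (BSet.beq x y)) : Fo p (BSet.beq y x) := by
  rw [BSet.beq_symm]
  exact h

theorem fo_beq_trans {p : P} {x y z : BSet (RO P)} (h : Fo p (BSet.beq x y)) (h' : Fo p (BSet.beq y z)) :
    Fo p (BSet.beq x z) :=
  (fo_inf.2 ⟨h, h'⟩).of_le (BSet.beq_trans x y z)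

/-- the maximum principle (`BSet.exists_max`) -/
theorem exists_fo {ψ : BSet (RO P) → RO P} (hψ : BSet.Ext ψ) {p : P} (h : Fo p (⨆ x, ψ x)) :
    ∃ x, Fo p (ψ x) := by
  obtain ⟨x, hx⟩ := BSet.exists_max ψ hψ
  exact ⟨x, by rw [hx]; exact h⟩

/-- extensionality -/
theorem fo_beq_iff {p : P} {x y : BSet (RO P)} :
    Fo p (BSet.beq x y) ↔ ∀ z, ∀ q ≤ p, (Fo q (BSet.bmem z x) ↔ Fo q (BSet.bmem z y)) := by
  rw [BSet.beq_ext, fo_iInf]
  constructor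
  · intro h z q hq
    have h2 := h z
    rw [fo_inf, fo_himp, fo_himp] at h2
    exact ⟨h2.1 q hq, h2.2 q hq⟩
  · intro h z
    rw [fo_inf, fo_himp, fo_himp]
    exact ⟨fun q hq => (h z q hq).1, fun q hq => (h z q hq).2⟩

/-- `p0` forces that the elements of `X` are exactly the `E i` -/
structure Enu (p0 : P) (X : BSet (RO P)) {ι : Type*} (E : ι → BSet (RO P)) : Prop where
  mem : ∀ i, Fo p0 (BSet.bmem (E i) X)
  cov : ∀ p ≤ p0, ∀ x, Fo p (BSet.bmem x X) → ∃ q ≤ p, ∃ i, Fo q (BSet.beq x (E i))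

theorem Enu.mono {p0 p1 : P} {X : BSet (RO P)} {ι : Type*} {E : ι → BSet (RO P)} (h : Enu p0 X E)
    (hp : p1 ≤ p0) : Enu p1 X E :=
  ⟨fun i => (h.mem i).mono hp, fun p h1 x hx => h.cov p (h1.trans hp) x hx⟩

theorem fo_all_mem {p0 : P} {X : BSet (RO P)} {ι : Type*} {E : ι → BSet (RO P)} (h : Enu p0 X E)
    {ψ : BSet (RO P) → RO P} (hψ : BSet.Ext ψ) {p : P} (hp : p ≤ p0) :
    Fo p (⨅ x, BSet.bmem x X ⇨ ψ x) ↔ ∀ i, Fo p (ψ (E i)) := by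
  rw [fo_iInf]
  constructor
  · intro h1 i
    exact (fo_himp.1 (h1 (E i))) p le_rfl ((h.mem i).mono hp)
  · intro h1 x
    refine fo_himp.2 fun q hq hx => ?_
    refine fo_reg fun r hr => ?_
    obtain ⟨s, hs, i, hi⟩ := h.cov r ((hr.trans hq).trans hp) x (hx.mono hr)
    exact ⟨s, hs, fo_ext hψ (fo_beq_symm hi) ((h1 i).mono ((hs.trans hr).trans hq))⟩

theorem fo_ex_mem {p0 : P} {X : BSet (RO P)} {ι : Type*} {E : ι → BSet (RO P)} (h : Enu p0 X E)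
    {ψ : BSet (RO P) → RO P} (hψ : BSet.Ext ψ) {p : P} (hp : p ≤ p0) :
    Fo p (⨆ x, BSet.bmem x X ⊓ ψ x) ↔ ∀ q ≤ p, ∃ r ≤ q, ∃ i, Fo r (ψ (E i)) := by
  rw [fo_iSup]
  constructor
  · intro h1 q hq
    obtain ⟨r, hr, x, hx⟩ := h1 q hq
    obtain ⟨h2, h3⟩ := fo_inf.1 hx
    obtain ⟨s, hs, i, hi⟩ := h.cov r ((hr.trans hq).trans hp) x h2
    exact ⟨s, hs.trans hr, i, fo_ext hψ hi (h3.mono hs)⟩
  · intro h1 q hq
    obtain ⟨r, hr, i, hi⟩ := h1 q hq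
    exact ⟨r, hr, E i, fo_inf.2 ⟨(h.mem i).mono ((hr.trans hq).trans hp), hi⟩⟩

end Pool.Agent.Lib.MP_8fac41_lc.FR
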