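import Pool.Agent.Lib.MP_8fac41_lc.FR.B.Intro1

/-!
# The collapse of the standard functions (module FR-B-IntroCol)

`fo_iInf`, `fo_himp`: let `q ≤ p` force `bmem g (Fn P D K)` and `App (Co ..) g y`; we want `Fo q (iffB (bmem z y) (⨆ h, ...))`. Density (`fo_reg`): `g = stF P k` (`enu_Fn`, replace `g` by `stF P k` with `fo_ext`: the statement respects equality, `Kc.ext_MemU_g`), `y = ob P (repInv U rep hr k)` (`fo_App_Co`, `Kb.ext_App_a`).
`fo_iffB`. (→) `z ∈ y`: densely `z = ob P b` with `b < repInv k` (`enu_ob`). Witness `h = stF P (rep b)`: `enu_Fn`; `fo_MemU`: `ob P (rep b i) ∈ ob P (k i)` for `U`-many `i`, since `rep b <_U rep (repInv k) =_U k` (`Rep.lt`, `repInv_spec`, `fo_mem_ob`, `fo_UL_of`); `fo_App_Co`, `repInv_eq_of` (`repInv (rep b) = b`).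
(←) densely there is `h` with `h ∈ Fn`, `MemU h g`, `App (Co ..) h z`; densely `h = stF P k'`; `fo_MemU`, `fo_UL_std`, `fo_mem_ob`: `{i | k' i < k i} ∈ U`, so `repInv k' < repInv k` (`repInv_lt_iff`), `z = ob P (repInv k')`, `z ∈ y` (`fo_mem_ob`).
-/

universe u

namespace Pool.Agent.Lib.MP_8fac41_lc.FR

open Pool.Agent.Lib.MP_4d8715_gt.KR

variable {P : Type u} [Preorder P] {D K : Type u} [LinearOrder D] [WellFoundedLT D] [LinearOrder K]
  [WellFoundedLT K] {U : Ultrafilter D} {rep : K → D → K}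

theorem intro_col (hr : Rep U rep) (p : P) :
    Fo p (⨅ g, ⨅ y, ⨅ z, BSet.bmem g (Fn P D K) ⇨ Kb.App (Co P U rep hr) g y ⇨ iffB (BSet.bmem z y)
      (⨆ h, BSet.bmem h (Fn P D K) ⊓ (Kc.MemU (uB P U) h g ⊓ Kb.App (Co P U rep hr) h z))) := by
  refine fo_iInf.2 fun g => fo_iInf.2 fun y => fo_iInf.2 fun z => ?_
  refine fo_himp.2 fun q1 _ hg => fo_himp.2 fun q2 hq2 hy => fo_reg fun q hq => ?_
  obtain ⟨s, hs, k, hk⟩ := (enu_Fn q).cov q le_rfl g (hg.mono (hq.trans hq2))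
  refine ⟨s, hs, ?_⟩
  have hy1 : Fo s (Kb.App (Co P U rep hr) (stF P k) y) :=
    fo_ext (ψ := fun w => Kb.App (Co P U rep hr) w y) (Kb.ext_App_a _ _) hk (hy.mono (hs.trans hq))
  have hy2 : Fo s (BSet.beq y (ob P (repInv U rep hr k))) := (fo_App_Co hr k y).1 hy1
  refine fo_iffB.2 fun t ht => ⟨fun hz => ?_, fun h => ?_⟩
  · have hz1 : Fo t (BSet.bmem z (ob P (repInv U rep hr k))) :=
      fo_ext (ψ := fun w => BSet.bmem z w) (BSet.ext_bmem_right _) (hy2.mono ht) hz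
    refine fo_reg fun r hr' => ?_
    obtain ⟨v, hv, b, hb⟩ := (enu_ob r (repInv U rep hr k)).cov r le_rfl z (hz1.mono hr')
    refine ⟨v, hv, ?_⟩
    have hvs : v ≤ s := hv.trans (hr'.trans ht)
    have h1 : Fo v (BSet.bmem (stF P (rep b.1)) (Fn P D K)) := (enu_Fn v).mem (rep b.1)
    have h2 : Fo v (Kc.MemU (uB P U) (stF P (rep b.1)) (stF P k)) := by
      refine fo_MemU.2 ?_
      have hS : {x | rep b.1 x < k x} ∈ U := by
        filter_upwards [hr.lt b.1 _ b.2, repInv_spec hr k] with x hx1 hx2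
        have hx1' : rep b.1 x < rep (repInv U rep hr k) x := hx1
        have hx2' : rep (repInv U rep hr k) x = k x := hx2
        rw [hx2'] at hx1'
        exact hx1'
      exact fo_UL_of hS fun x hx => fo_mem_ob.2 hx
    have h3 : Fo v (Kc.MemU (uB P U) (stF P (rep b.1)) g) :=
      fo_ext (ψ := fun w => Kc.MemU (uB P U) (stF P (rep b.1)) w) (Kc.ext_MemU_g _ _)
        (fo_beq_symm (hk.mono hvs)) h2
    have h4 : Fo v (Kb.App (Co P U rep hr) (stF P (rep b.1)) z) := by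
      refine (fo_App_Co hr (rep b.1) z).2 ?_
      have e : repInv U rep hr (rep b.1) = b.1 :=
        repInv_eq_of hr (by
          have : {x | rep b.1 x = rep b.1 x} = Set.univ := by
            ext x; simp
          rw [this]
          exact Filter.univ_mem)
      rw [e]
      exact hb
    exact (fo_inf.2 ⟨h1, fo_inf.2 ⟨h3, h4⟩⟩).of_le
      (le_iSup (fun h => BSet.bmem h (Fn P D K) ⊓
        (Kc.MemU (uB P U) h g ⊓ Kb.App (Co P U rep hr) h z)) (stF P (rep b.1)))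
  · refine fo_reg fun r hr' => ?_
    obtain ⟨v, hv, h', h1⟩ := fo_iSup.1 h r hr'
    obtain ⟨h2, h3⟩ := fo_inf.1 h1
    obtain ⟨h4, h5⟩ := fo_inf.1 h3
    obtain ⟨w, hw, k', hk'⟩ := (enu_Fn v).cov v le_rfl h' h2
    have hws : w ≤ s := hw.trans (hv.trans (hr'.trans ht))
    refine ⟨w, hw.trans hv, ?_⟩
    have h6 : Fo w (Kc.MemU (uB P U) (stF P k') g) :=
      fo_ext (ψ := fun x => Kc.MemU (uB P U) x g) (Kc.ext_MemU_h _ _) hk' (h4.mono hw)
    have h7 : Fo w (Kc.MemU (uB P U) (stF P k') (stF P k)) :=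
      fo_ext (ψ := fun x => Kc.MemU (uB P U) (stF P k') x) (Kc.ext_MemU_g _ _) (hk.mono hws) h6
    have h8 := fo_MemU.1 h7
    have hS : {x | k' x < k x} ∈ U :=
      (fo_UL_std (p := w) (b := fun x => BSet.bmem (ob P (k' x)) (ob P (k x)))
        (fun x hx => fo_mem_ob.2 hx) (fun x hx q _ hq => hx (fo_mem_ob.1 hq))).1 h8
    have hlt : repInv U rep hr k' < repInv U rep hr k := (repInv_lt_iff hr).2 hS
    have h9 : Fo w (Kb.App (Co P U rep hr) (stF P k') z) :=
      fo_ext (ψ := fun x => Kb.App (Co P U rep hr) x z) (Kb.ext_App_a _ _) hk' (h5.mono hw)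
    have h10 : Fo w (BSet.beq z (ob P (repInv U rep hr k'))) := (fo_App_Co hr k' z).1 h9
    have h11 : Fo w (BSet.bmem (ob P (repInv U rep hr k')) (ob P (repInv U rep hr k))) :=
      fo_mem_ob.2 hlt
    have h12 : Fo w (BSet.bmem z (ob P (repInv U rep hr k))) :=
      fo_ext (ψ := fun x => BSet.bmem x (ob P (repInv U rep hr k))) (BSet.ext_bmem_left _)
        (fo_beq_symm h10) h11
    exact fo_ext (ψ := fun x => BSet.bmem z x) (BSet.ext_bmem_right _)
      (fo_beq_symm (hy2.mono hws)) h12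

end Pool.Agent.Lib.MP_8fac41_lc.FR
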