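import Pool.Agent.Lib.MP_8fac41_lc.FR.B.Intro1

/-!
# The value of the collapse (module FR-B-IntroX)

`fo_iInf`, `fo_iffB`. (→) let `q ≤ p` force `z ∈ x`: densely `z = ob P c` (`hs`, `fo_Sub`, `enu_obS`); by `h`, `UL U` of `bmem (ob P (rep c i)) (xs i)` is forced; witness `stF P (rep c)`: `enu_Fn`, `fo_MemU`, `fo_App_Co`, `repInv_eq_of`.
(←) densely there is `h` with `h ∈ Fn`, `MemU h (fnB xs)`, `App (Co ..) h z`, densely `h = stF P k`, so `z = ob P c` for `c = repInv U rep hr k`, `rep c =_U k` (`repInv_spec`), `fo_MemU`: `UL U` of `bmem (ob P (k i)) (xs i)`, so (`fo_UL_mono`) of `bmem (ob P (rep c i)) (xs i)`; by `h` `ob P c ∈ x`.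
-/

universe u

namespace Pool.Agent.Lib.MP_8fac41_lc.FR

open Pool.Agent.Lib.MP_4d8715_gt.KR

variable {P : Type u} [Preorder P] {D K : Type u} [LinearOrder D] [WellFoundedLT D] [LinearOrder K]
  [WellFoundedLT K] {U : Ultrafilter D} {rep : K → D → K}

theorem intro_x (hr : Rep U rep) {p : P} {x : BSet (RO P)} (hs : Fo p (Kb.Sub x (obS P K)))
    (xs : D → BSet (RO P))
    (h : ∀ c : K, Fo p (iffB (BSet.bmem (ob P c) x) (UL U fun i => BSet.bmem (ob P (rep c i)) (xs i)))) :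
    Fo p (⨅ z, iffB (BSet.bmem z x)
      (⨆ h, BSet.bmem h (Fn P D K) ⊓ (Kc.MemU (uB P U) h (fnB xs) ⊓ Kb.App (Co P U rep hr) h z))) := by
  refine fo_iInf.2 fun z => fo_iffB.2 fun q hq => ⟨fun hz => ?_, fun hz => fo_reg fun r hr' => ?_⟩
  · refine fo_iSup.2 fun r hr' => ?_
    have h1 : Fo r (BSet.bmem z (obS P K)) := (fo_Sub.1 hs z q hq hz).mono hr'
    obtain ⟨s, hsr, c, hc⟩ := (enu_obS r).cov r le_rfl z h1
    have hsq : s ≤ q := hsr.trans hr'
    have h2 : Fo s (BSet.bmem (ob P c) x) :=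
      fo_ext (ψ := fun v => BSet.bmem v x) (BSet.ext_bmem_left _) hc (hz.mono hsq)
    have h3 := (fo_iffB.1 (h c) s (hsq.trans hq)).1 h2
    refine ⟨s, hsr, stF P (rep c), fo_inf.2 ⟨(enu_Fn s).mem (rep c), fo_inf.2 ⟨?_, ?_⟩⟩⟩
    · exact fo_MemU.2 h3
    · rw [fo_App_Co hr, repInv_eq_of hr (Filter.mem_of_superset Filter.univ_mem fun _ _ => rfl)]
      exact hc
  · obtain ⟨s, hsr, k', hk'⟩ := fo_iSup.1 hz r hr'
    obtain ⟨h1, h2⟩ := fo_inf.1 hk'
    obtain ⟨h3, h4⟩ := fo_inf.1 h2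
    obtain ⟨t, hts, k, hk⟩ := (enu_Fn s).cov s le_rfl k' h1
    have htp : t ≤ p := (hts.trans (hsr.trans hr')).trans hq
    have h5 : Fo t (Kc.MemU (uB P U) (stF P k) (fnB xs)) :=
      fo_ext (ψ := fun v => Kc.MemU (uB P U) v (fnB xs)) (Kc.ext_MemU_h _ _) hk (h3.mono hts)
    have h6 : Fo t (Kb.App (Co P U rep hr) (stF P k) z) :=
      fo_ext (ψ := fun v => Kb.App (Co P U rep hr) v z) (Kb.ext_App_a _ _) hk (h4.mono hts)
    have h7 : Fo t (BSet.beq z (ob P (repInv U rep hr k))) := (fo_App_Co hr k z).1 h6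
    have h8 : Fo t (UL U fun i => BSet.bmem (ob P (k i)) (xs i)) := fo_MemU.1 h5
    have h9 : Fo t (UL U fun i => BSet.bmem (ob P (rep (repInv U rep hr k) i)) (xs i)) := by
      refine fo_UL_mono (repInv_spec hr k) ?_ h8 h8
      intro i hi w _ ha _
      have hi' : rep (repInv U rep hr k) i = k i := hi
      rw [hi']
      exact ha
    have h10 := (fo_iffB.1 (h (repInv U rep hr k)) t htp).2 h9
    exact ⟨t, hts.trans hsr, fo_ext (ψ := fun v => BSet.bmem v x) (BSet.ext_bmem_left _)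
      (fo_beq_symm h7) h10⟩

end Pool.Agent.Lib.MP_8fac41_lc.FR
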