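import Pool.Agent.Lib.MP_8fac41_lc.FR.B.IntroClo
import Pool.Agent.Lib.MP_8fac41_lc.FR.B.IntroCol
import Pool.Agent.Lib.MP_8fac41_lc.FR.B.IntroX

/-!
# Sequences give elements of the ultrapower
-/

universe u

namespace Pool.Agent.Lib.MP_8fac41_lc.FR

open Pool.Agent.Lib.MP_4d8715_gt.KR

variable {P : Type u} [Preorder P] {D K : Type u} [LinearOrder D] [WellFoundedLT D] [LinearOrder K]
  [WellFoundedLT K] {U : Ultrafilter D} {rep : K → D → K}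

theorem inUlt_intro (hd : Distr P D) [Nonempty K] (hr : Rep U rep) {p : P} {x : BSet (RO P)}
    (hs : Fo p (Kb.Sub x (obS P K))) (xs : D → BSet (RO P)) (hxs : ∀ i, Fo p (Kb.Sub (xs i) (obS P K)))
    (h : ∀ c : K, Fo p (iffB (BSet.bmem (ob P c) x) (UL U fun i => BSet.bmem (ob P (rep c i)) (xs i)))) :
    Fo p (Kc.InUlt (obS P D) (uB P U) x) := by
  unfold Kc.InUlt
  refine Fo.of_le ?_ (le_iSup_of_le (fnB xs) (le_iSup_of_le (Fn P D K) (le_iSup_of_le (Co P U rep hr) le_rfl)))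
  refine fo_inf.2 ⟨fo_FunOn_fnB xs, fo_inf.2 ⟨?_, fo_inf.2 ⟨fo_FunOn_Co p hr, fo_inf.2 ⟨intro_clo hd p xs hxs,
    fo_inf.2 ⟨intro_col hr p, intro_x hr hs xs h⟩⟩⟩⟩⟩
  refine (fo_all_mem (enu_Fn p) (ψ := fun g => Kb.FunOn g (obS P D)) (Kb.ext_FunOn_f _) le_rfl).2 fun g => ?_
  exact fo_FunOn_stF p g

end Pool.Agent.Lib.MP_8fac41_lc.FR
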