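import Pool.Agent.Lib.MP_8fac41_lc.FR.B.MemU
import Pool.Agent.Lib.MP_8fac41_lc.FR.U.RepBasic

/-!
# Standard functions and their collapse (module FR-B-Intro1)

`stF g` is the standard name of the function `g : D → K`, `Fn` the name of the set of all these functions, `Co` the name of the function which maps `stF g` to (the name of) the ordinal represented by `g`.
`fo_beq_stF`: `fo_beq_fnB`, `fo_beq_ob`. `fo_FunOn_Co`: `fo_FunOn_relB`, `enu_Fn`, `fo_beq_stF`. `near_std`: if `{x | H x ∈ Ǩ} ∈ U` is forced then densely `H =_U g` for some `g : D → K` (`Distr.choose`, `enu_obS`).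
`fo_App_Co`: `fo_App_relB_self`.
-/

universe u

namespace Pool.Agent.Lib.MP_8fac41_lc.FR

open Pool.Agent.Lib.MP_4d8715_gt.KR

section

variable (P : Type u) [Preorder P] {D K : Type u} [LinearOrder D] [WellFoundedLT D] [LinearOrder K]
  [WellFoundedLT K]

/-- the name of the function `g` -/
noncomputable def stF (g : D → K) : BSet (RO P) := fnB (fun x => ob P (g x))

/-- the name of the set of all functions -/
noncomputable def Fn (D K : Type u) [LinearOrder D] [WellFoundedLT D] [LinearOrder K] [WellFoundedLT K] :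
    BSet (RO P) := BSet.mk (D → K) (fun g => stF P g) (fun _ => ⊤)

/-- the ordinal represented by `g` -/
noncomputable def repInv (U : Ultrafilter D) (rep : K → D → K) (hr : Rep U rep) (g : D → K) : K :=
  Classical.choose (hr.cov g)

/-- the name of the collapse -/
noncomputable def Co (U : Ultrafilter D) (rep : K → D → K) (hr : Rep U rep) : BSet (RO P) :=
  relB (fun g : D → K => stF P g) (fun g => ob P (repInv U rep hr g))

end

variable {P : Type u} [Preorder P] {D K : Type u} [LinearOrder D] [WellFoundedLT D] [LinearOrder K]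
  [WellFoundedLT K] {U : Ultrafilter D} {rep : K → D → K}

theorem repInv_spec (hr : Rep U rep) (g : D → K) : {x | rep (repInv U rep hr g) x = g x} ∈ U :=
  Classical.choose_spec (hr.cov g)

theorem repInv_lt_iff (hr : Rep U rep) {g h : D → K} :
    repInv U rep hr g < repInv U rep hr h ↔ {x | g x < h x} ∈ U := by
  have h1 := repInv_spec hr g
  have h2 := repInv_spec hr h
  rw [← hr.lt_iff]
  constructor
  · intro h3
    refine Filter.mem_of_superset (Filter.inter_mem (Filter.inter_mem h1 h2) h3) ?_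
    rintro x ⟨⟨h4, h5⟩, h6⟩
    have h4' : rep (repInv U rep hr g) x = g x := h4
    have h5' : rep (repInv U rep hr h) x = h x := h5
    have h6' : rep (repInv U rep hr g) x < rep (repInv U rep hr h) x := h6
    rw [h4', h5'] at h6'
    exact h6'
  · intro h3
    refine Filter.mem_of_superset (Filter.inter_mem (Filter.inter_mem h1 h2) h3) ?_
    rintro x ⟨⟨h4, h5⟩, h6⟩
    have h4' : rep (repInv U rep hr g) x = g x := h4
    have h5' : rep (repInv U rep hr h) x = h x := h5
    have h6' : g x < h x := h6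
    rw [← h4', ← h5'] at h6'
    exact h6'

theorem repInv_eq_of (hr : Rep U rep) {g : D → K} {c : K} (h : {x | g x = rep c x} ∈ U) :
    repInv U rep hr g = c := by
  refine hr.eq_of (Filter.mem_of_superset (Filter.inter_mem (repInv_spec hr g) h) ?_)
  rintro x ⟨h1, h2⟩
  have h1' : rep (repInv U rep hr g) x = g x := h1
  have h2' : g x = rep c x := h2
  exact h1'.trans h2'

theorem fo_beq_stF {p : P} {g h : D → K} : Fo p (BSet.beq (stF P g) (stF P h)) ↔ g = h := by
  unfold stF
  rw [fo_beq_fnB]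
  constructor
  · intro h1
    funext x
    exact fo_beq_ob.1 (h1 x)
  · rintro rfl x
    exact fo_beq_refl _

theorem enu_Fn (p : P) : Enu p (Fn P D K) (fun g : D → K => stF P g) := by
  refine ⟨fun g => ?_, fun q hq x hx => ?_⟩
  · unfold Fn
    rw [BSet.basic_bmem_mk]
    refine Fo.of_le (x := ⊤) fo_top (le_iSup_of_le g ?_)
    rw [BSet.beq_refl, top_inf_eq]
  · unfold Fn at hx
    rw [BSet.basic_bmem_mk] at hx
    obtain ⟨r, h1, a, h2⟩ := fo_iSup.1 hx q le_rfl
    exact ⟨r, h1, a, (fo_inf.1 h2).2⟩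

private theorem stF_inj {p : P} (g h : D → K) : ∀ q ≤ p, Fo q (BSet.beq (stF P g) (stF P h)) → g = h :=
  fun _ _ h1 => fo_beq_stF.1 h1

theorem fo_FunOn_stF (p : P) (g : D → K) : Fo p (Kb.FunOn (stF P g) (obS P D)) := fo_FunOn_fnB _

theorem fo_FunOn_Co (p : P) (hr : Rep U rep) : Fo p (Kb.FunOn (Co P U rep hr) (Fn P D K)) :=
  fo_FunOn_relB (enu_Fn p) stF_inj _

theorem fo_App_Co {p : P} (hr : Rep U rep) (g : D → K) (y : BSet (RO P)) :
    Fo p (Kb.App (Co P U rep hr) (stF P g) y) ↔ Fo p (BSet.beq y (ob P (repInv U rep hr g))) :=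
  fo_App_relB_self (X := fun g : D → K => stF P g) stF_inj (fun g => ob P (repInv U rep hr g)) g y

theorem near_std (hd : Distr P D) [Nonempty K] {p : P} {H : D → BSet (RO P)}
    (h : Fo p (UL U fun x => BSet.bmem (H x) (obS P K))) :
    ∃ q ≤ p, ∃ g : D → K, Fo q (UL U fun x => BSet.beq (H x) (ob P (g x))) := by
  obtain ⟨r, hr, S, hS, hx⟩ := fo_UL.1 h p le_rfl
  obtain ⟨q, hq, f, hf⟩ := hd.choose (fun x (z : K) s => x ∈ S → Fo s (BSet.beq (H x) (ob P z))) r
    (fun x z s t h1 hts h2 => (h1 h2).mono hts) (fun x s hs => by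
      by_cases hxS : x ∈ S
      · obtain ⟨t, ht, a, ha⟩ := (enu_obS s).cov s le_rfl (H x) ((hx x hxS).mono hs)
        exact ⟨t, ht, a, fun _ => ha⟩
      · exact ⟨s, le_rfl, Classical.arbitrary K, fun h2 => absurd h2 hxS⟩)
  exact ⟨q, hq.trans hr, f, fo_UL_of hS fun x hxS => hf x hxS⟩

end Pool.Agent.Lib.MP_8fac41_lc.FR
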