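import Pool.Agent.Lib.MP_8fac41_lc.FR.B.Intro1

/-!
# The standard functions are closed (module FR-B-IntroClo)

`fo_iInf`, `fo_himp`: let `q ≤ p` force `bmem g (Fn P D K) ⊔ beq g (fnB xs)`, `FunOn h (obS P D)`, `MemU h g`. `exists_fnB`: `h = fnB H` is forced. Density (`fo_reg`): `fo_sup`; if `g ∈ Fn` then densely `g = stF P k` (`enu_Fn`), so `UL U` of
`bmem (H i) (ob P (k i))` is forced (`Kc.ext_MemU_g`, `Kc.ext_MemU_h`, `fo_MemU`), hence (`fo_UL_mono`; the elements of `ob P (k i)` are elements of `obS P K`, `enu_ob`, `enu_obS`) `UL U` of `bmem (H i) (obS P K)`. If `g = fnB xs` the same holds by `hxs` (`fo_Sub`). `near_std` gives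
(densely) `k' : D → K` with `UL U` of `beq (H i) (ob P (k' i))`; `h' = stF P k'` is a witness (`fo_EqlU` and symmetry of `beq`; `le_iSup`).
-/

universe u

namespace Pool.Agent.Lib.MP_8fac41_lc.FR

open Pool.Agent.Lib.MP_4d8715_gt.KR

variable {P : Type u} [Preorder P] {D K : Type u} [LinearOrder D] [WellFoundedLT D] [LinearOrder K]
  [WellFoundedLT K] {U : Ultrafilter D} {rep : K → D → K}

private theorem sub_ob (p : P) (a : K) : Fo p (Kb.Sub (ob P a) (obS P K)) := by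
  refine fo_Sub.2 fun z q hq hz => fo_reg fun r hr => ?_
  obtain ⟨s, hs, b, h⟩ := (enu_ob r a).cov r le_rfl z (hz.mono hr)
  exact ⟨s, hs, fo_ext (ψ := fun y => BSet.bmem y (obS P K)) (BSet.ext_bmem_left _) (fo_beq_symm h)
    ((enu_obS s).mem b.1)⟩

private theorem clo_aux (hd : Distr P D) [Nonempty K] {t : P} {G H : D → BSet (RO P)} {g h : BSet (RO P)}
    (hG : ∀ i, Fo t (Kb.Sub (G i) (obS P K))) (hg : Fo t (BSet.beq g (fnB G)))
    (hh : Fo t (BSet.beq h (fnB H))) (hm : Fo t (Kc.MemU (uB P U) h g)) :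
    ∃ q ≤ t, Fo q (⨆ h', BSet.bmem h' (Fn P D K) ⊓ Kc.EqlU (uB P U) h' h) := by
  have h1 : Fo t (Kc.MemU (uB P U) (fnB H) (fnB G)) := by
    refine fo_ext (ψ := fun g => Kc.MemU (uB P U) (fnB H) g) (Kc.ext_MemU_g _ _) hg ?_
    exact fo_ext (ψ := fun h => Kc.MemU (uB P U) h g) (Kc.ext_MemU_h _ _) hh hm
  have h2 := fo_MemU.1 h1
  have h3 : Fo t (UL U fun x => BSet.bmem (H x) (obS P K)) :=
    fo_UL_mono Filter.univ_mem (fun x _ q hq h4 _ => fo_Sub.1 (hG x) (H x) q hq h4) h2 h2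
  obtain ⟨q, hq, k, hk⟩ := near_std hd h3
  refine ⟨q, hq, ?_⟩
  have h5 : Fo q (Kc.EqlU (uB P U) (stF P k) (fnB H)) := by
    unfold stF
    refine fo_EqlU.2 ?_
    exact fo_UL_mono Filter.univ_mem (fun x _ r hr h6 _ => fo_beq_symm h6) hk hk
  have h6 : Fo q (Kc.EqlU (uB P U) (stF P k) h) :=
    fo_ext (ψ := fun h => Kc.EqlU (uB P U) (stF P k) h) (Kc.ext_EqlU_g _ _) (fo_beq_symm (hh.mono hq)) h5
  exact (fo_inf.2 ⟨(enu_Fn q).mem k, h6⟩).of_le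
    (le_iSup (fun h' => BSet.bmem h' (Fn P D K) ⊓ Kc.EqlU (uB P U) h' h) (stF P k))

theorem intro_clo (hd : Distr P D) [Nonempty K] (p : P) (xs : D → BSet (RO P))
    (hxs : ∀ i, Fo p (Kb.Sub (xs i) (obS P K))) :
    Fo p (⨅ g, ⨅ h, BSet.bmem g (Fn P D K) ⊔ BSet.beq g (fnB xs) ⇨ Kb.FunOn h (obS P D) ⇨
      Kc.MemU (uB P U) h g ⇨ (⨆ h', BSet.bmem h' (Fn P D K) ⊓ Kc.EqlU (uB P U) h' h)) := by
  refine fo_iInf.2 fun g => fo_iInf.2 fun h => fo_himp.2 fun q hq hg => fo_himp.2 fun r hr hh =>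
    fo_himp.2 fun s hs hm => fo_reg fun t ht => ?_
  obtain ⟨H, hH⟩ := exists_fnB hh
  obtain ⟨t1, ht1, h1⟩ := fo_sup.1 hg t (ht.trans (hs.trans hr))
  rcases h1 with h1 | h1
  · obtain ⟨t2, ht2, k, hk⟩ := (enu_Fn t1).cov t1 le_rfl g h1
    have h3 : t2 ≤ s := ht2.trans (ht1.trans ht)
    obtain ⟨t3, ht3, h4⟩ := clo_aux hd (G := fun i => ob P (k i)) (fun i => sub_ob t2 (k i)) hk
      (hH.mono (h3.trans hs)) (hm.mono h3)
    exact ⟨t3, ht3.trans (ht2.trans ht1), h4⟩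
  · have h3 : t1 ≤ s := ht1.trans ht
    obtain ⟨t3, ht3, h4⟩ := clo_aux hd (G := xs)
      (fun i => (hxs i).mono (h3.trans (hs.trans (hr.trans hq)))) h1 (hH.mono (h3.trans hs)) (hm.mono h3)
    exact ⟨t3, ht3.trans ht1, h4⟩

end Pool.Agent.Lib.MP_8fac41_lc.FR
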