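import Pool.Agent.Lib.MP_8fac41_lc.FR.B.Config
import Pool.Agent.Lib.MP_8fac41_lc.FR.U.Goal
import Pool.Agent.Lib.MP_4d8715_gt.KR.Z.Main

/-!
# The theorem
-/

universe u

namespace Pool.Agent.Lib.MP_8fac41_lc.FR

open Pool.Agent.Lib.MP_4d8715_gt.KR Cardinal Pool.MP_8fac41_lc.FR

/-- `κ` carries a nonprincipal `κ`-complete ultrafilter -/
def IsMeas (κ : Cardinal.{u}) : Prop :=
  ∃ (α : Type u) (F : Ultrafilter α), #α = κ ∧ (∀ x : α, {x} ∉ F) ∧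
    ∀ s : Set (Set α), #s < κ → (∀ A ∈ s, A ∈ F) → ⋂₀ s ∈ F

theorem main : ∃ φ : Fml 0,
    (∀ (M : Type (u + 1)) (E : M → M → Prop), Fml.Sat E φ ![] ↔ Fs.Config E) ∧
    ((∃ δ κ : Cardinal.{u}, ℵ₀ < δ ∧ δ < κ ∧
        (∃ U U' : Ultrafilter δ.ord.ToType, IsNormalUlt δ U ∧ IsNormalUlt δ U' ∧ U ≠ U') ∧ IsMeas κ) →
      ∃ (M : Type (u + 1)) (E : M → M → Prop), (∀ ψ ∈ Fml.ZFC, Fml.Sat E ψ ![]) ∧ Fml.Sat E φ ![]) := by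
  refine ⟨Fm.fConfig, fun M E => Fm.sat3_fConfig E, ?_⟩
  rintro ⟨δ, κ, hδ, hδκ, ⟨U, U', hU, hU', hne⟩, hκ⟩
  obtain ⟨inst⟩ := exists_sett hδ hδκ hU hU' hne hκ
  have hN : Nonempty (Pool.MP_8fac41_lc.FR.E δ.ord.ToType κ.ord.ToType) := nonempty_E
  obtain ⟨M, E, hZ, hφ⟩ := exists_model_ZFC (RO (Pool.MP_8fac41_lc.FR.E δ.ord.ToType κ.ord.ToType))
  exact ⟨M, E, hZ, hφ _ (bv_Config δ.ord.ToType κ.ord.ToType)⟩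

end Pool.Agent.Lib.MP_8fac41_lc.FR
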