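import Pool.Agent.Lib.MP_8fac41_lc.FR.B.Decide

/-!
# Membership and equality in the ultrapower (module FR-B-MemU)

`fo_MemU`: (→) `fo_ex_mem` with `enu_uB` (densely some `X ∈ U`), `enu_sbS`, `fo_App_fnB`, `fo_beq_refl`. (←) `fo_UL`, conversely: for `S ∈ U` take the name `sbS P S`.
-/

universe u

namespace Pool.Agent.Lib.MP_8fac41_lc.FR

open Pool.Agent.Lib.MP_4d8715_gt.KR

variable {P : Type u} [Preorder P] {D : Type u} [LinearOrder D] [WellFoundedLT D] {U : Ultrafilter D}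

private theorem memU_body {θ : BSet (RO P) → BSet (RO P) → RO P}
    (hl : ∀ b, BSet.Ext fun a => θ a b) (hr : ∀ a, BSet.Ext fun b => θ a b)
    {r : P} {H G : D → BSet (RO P)} {S : Set D} :
    Fo r (⨅ x, ⨅ a, ⨅ b, BSet.bmem x (sbS P S) ⇨ Kb.App (fnB H) x a ⇨ Kb.App (fnB G) x b ⇨ θ a b) ↔
      ∀ x ∈ S, Fo r (θ (H x) (G x)) := by
  constructor
  · intro h x hx
    have h1 := fo_iInf.1 (fo_iInf.1 (fo_iInf.1 h (ob P x)) (H x)) (G x)
    have h2 := fo_himp.1 h1 r le_rfl (fo_mem_sbS.2 hx)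
    have h3 := fo_himp.1 h2 r le_rfl ((fo_App_fnB H x (H x)).2 (fo_beq_refl _))
    exact fo_himp.1 h3 r le_rfl ((fo_App_fnB G x (G x)).2 (fo_beq_refl _))
  · intro h
    refine fo_iInf.2 fun z => fo_iInf.2 fun a => fo_iInf.2 fun b => ?_
    refine fo_himp.2 fun q1 hq1 hz => fo_himp.2 fun q2 hq2 ha => fo_himp.2 fun q3 hq3 hb => ?_
    refine fo_reg fun q hq => ?_
    obtain ⟨s, hs, i, hi⟩ := (enu_sbS q S).cov q le_rfl z (hz.mono (hq.trans (hq3.trans hq2)))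
    refine ⟨s, hs, ?_⟩
    have ha' : Fo s (Kb.App (fnB H) z a) := ha.mono (hs.trans (hq.trans hq3))
    have hb' : Fo s (Kb.App (fnB G) z b) := hb.mono (hs.trans hq)
    have ha1 : Fo s (Kb.App (fnB H) (ob P i.1) a) :=
      fo_ext (ψ := fun w => Kb.App (fnB H) w a) (Kb.ext_App_a _ _) hi ha'
    have hb1 : Fo s (Kb.App (fnB G) (ob P i.1) b) :=
      fo_ext (ψ := fun w => Kb.App (fnB G) w b) (Kb.ext_App_a _ _) hi hb'
    have ha2 := (fo_App_fnB H i.1 a).1 ha1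
    have hb2 := (fo_App_fnB G i.1 b).1 hb1
    have hle : s ≤ r := hs.trans (hq.trans (hq3.trans (hq2.trans hq1)))
    have h0 : Fo s (θ (H i.1) (G i.1)) := (h i.1 i.2).mono hle
    have h1 : Fo s (θ a (G i.1)) :=
      fo_ext (ψ := fun w => θ w (G i.1)) (hl _) (fo_beq_symm ha2) h0
    exact fo_ext (ψ := fun w => θ a w) (hr _) (fo_beq_symm hb2) h1

private theorem memU_gen {θ : BSet (RO P) → BSet (RO P) → RO P}
    (hl : ∀ b, BSet.Ext fun a => θ a b) (hr : ∀ a, BSet.Ext fun b => θ a b)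
    {p : P} {H G : D → BSet (RO P)} :
    Fo p (⨆ X, BSet.bmem X (uB P U) ⊓
      (⨅ x, ⨅ a, ⨅ b, BSet.bmem x X ⇨ Kb.App (fnB H) x a ⇨ Kb.App (fnB G) x b ⇨ θ a b)) ↔
      Fo p (UL U fun x => θ (H x) (G x)) := by
  have hext : BSet.Ext fun X : BSet (RO P) =>
      (⨅ x, ⨅ a, ⨅ b, BSet.bmem x X ⇨ Kb.App (fnB H) x a ⇨ Kb.App (fnB G) x b ⇨ θ a b) :=
    BSet.Ext.iInf fun x => BSet.Ext.iInf fun a => BSet.Ext.iInf fun b =>
      (BSet.ext_bmem_right x).himp (BSet.ext_const _)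
  rw [fo_ex_mem (enu_uB p U) hext le_rfl, fo_UL]
  constructor
  · intro h q hq
    obtain ⟨r, hr1, i, hi⟩ := h q hq
    exact ⟨r, hr1, i.1, i.2, (memU_body hl hr).1 hi⟩
  · intro h q hq
    obtain ⟨r, hr1, S, hS, hi⟩ := h q hq
    exact ⟨r, hr1, ⟨S, hS⟩, (memU_body hl hr).2 hi⟩

theorem fo_MemU {p : P} {H G : D → BSet (RO P)} :
    Fo p (Kc.MemU (uB P U) (fnB H) (fnB G)) ↔ Fo p (UL U fun x => BSet.bmem (H x) (G x)) :=
  memU_gen (θ := fun a b => BSet.bmem a b) (fun b => BSet.ext_bmem_left b)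
    (fun a => BSet.ext_bmem_right a)

theorem fo_EqlU {p : P} {H G : D → BSet (RO P)} :
    Fo p (Kc.EqlU (uB P U) (fnB H) (fnB G)) ↔ Fo p (UL U fun x => BSet.beq (H x) (G x)) :=
  memU_gen (θ := fun a b => BSet.beq a b)
    (fun b => by
      have h := BSet.ext_beq_right (B := RO P) b
      have e : (fun a : BSet (RO P) => BSet.beq a b) = fun a => BSet.beq b a := by
        funext a
        exact BSet.beq_symm a b
      rw [e]
      exact h)
    (fun a => BSet.ext_beq_right a)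

theorem fo_beq_fnB {p : P} {H G : D → BSet (RO P)} :
    Fo p (BSet.beq (fnB H) (fnB G)) ↔ ∀ x, Fo p (BSet.beq (H x) (G x)) := by
  constructor
  · intro h x
    have h1 : Fo p (Kb.App (fnB H) (ob P x) (H x)) := (fo_App_fnB H x (H x)).2 (fo_beq_refl _)
    exact (fo_App_fnB G x (H x)).1
      (fo_ext (ψ := fun f => Kb.App f (ob P x) (H x)) (Kb.ext_App_f _ _) h h1)
  · intro h
    have key : ∀ (F E : D → BSet (RO P)) (_ : ∀ x, Fo p (BSet.beq (F x) (E x))) (z : BSet (RO P)),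
        ∀ q ≤ p, Fo q (BSet.bmem z (fnB F)) → Fo q (BSet.bmem z (fnB E)) := by
      intro F E hFE z q hq hz
      refine fo_reg fun r hr => ?_
      have hz' := hz.mono hr
      unfold fnB relB at hz'
      rw [BSet.basic_bmem_mk, fo_iSup] at hz'
      obtain ⟨s, hs, x, h2⟩ := hz' r le_rfl
      refine ⟨s, hs, ?_⟩
      have h3 := (fo_inf.1 h2).2
      have h4 : Fo s (Kb.App (fnB E) (ob P x) (F x)) :=
        (fo_App_fnB E x (F x)).2 ((hFE x).mono (hs.trans (hr.trans hq)))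
      exact fo_ext (ψ := fun w => BSet.bmem w (fnB E)) (BSet.ext_bmem_left _) (fo_beq_symm h3)
        (fo_App.1 h4)
    exact fo_beq_iff.2 fun z q hq => ⟨key H G h z q hq,
      key G H (fun x => fo_beq_symm (h x)) z q hq⟩

end Pool.Agent.Lib.MP_8fac41_lc.FR
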