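import Pool.Agent.Lib.MP_8fac41_lc.FR.B.Force

/-!
# Standard names of ordinals and of their subsets

`A` is a well-ordered type. `ob P a` is the name of the ordinal which is the order type of `{b | b < a}`, with
the elements `ob P b`, `b < a`. `obS P A` is the name of the order type of `A`, `sbS P X` the name of the subset
`X` and `nmS v` the name of the subset whose element `a` has the value `v a`.
-/

universe u

namespace Pool.Agent.Lib.MP_8fac41_lc.FR

open Pool.Agent.Lib.MP_4d8715_gt.KR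

section

variable (P : Type u) [Preorder P] {A : Type u} [LinearOrder A] [WellFoundedLT A]

/-- the name of the ordinal `a` -/
noncomputable def ob : A → BSet (RO P) :=
  WellFounded.fix (C := fun _ => BSet (RO P)) (wellFounded_lt (α := A))
    (fun a f => BSet.mk {b : A // b < a} (fun b => f b.1 b.2) (fun _ => ⊤))

theorem ob_eq (a : A) : ob P a = BSet.mk {b : A // b < a} (fun b => ob P b.1) (fun _ => ⊤) := by
  unfold ob
  rw [WellFounded.fix_eq]

end

/-- the name of the order type of `A` -/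
noncomputable def obS (P : Type u) [Preorder P] (A : Type u) [LinearOrder A] [WellFoundedLT A] :
    BSet (RO P) := BSet.mk A (ob P) (fun _ => ⊤)

/-- the name of the set of the `a` whose value is `v a` -/
noncomputable def nmS {P : Type u} [Preorder P] {A : Type u} [LinearOrder A] [WellFoundedLT A]
    (v : A → RO P) : BSet (RO P) := BSet.mk A (ob P) v

/-- the name of the set `X` -/
noncomputable def sbS (P : Type u) [Preorder P] {A : Type u} [LinearOrder A] [WellFoundedLT A] (X : Set A) :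
    BSet (RO P) := BSet.mk {a : A // a ∈ X} (fun a => ob P a.1) (fun _ => ⊤)

variable {P : Type u} [Preorder P] {A : Type u} [LinearOrder A] [WellFoundedLT A]

private theorem ob_mem_top {a b : A} (h : b < a) : BSet.bmem (ob P b) (ob P a) = ⊤ := by
  rw [ob_eq P a, BSet.basic_bmem_mk]
  refine top_unique (le_iSup_of_le ⟨b, h⟩ ?_)
  rw [BSet.beq_refl, top_inf_eq]

theorem enu_ob (p : P) (a : A) : Enu p (ob P a) (fun b : {b : A // b < a} => ob P b.1) := by
  refine ⟨fun b => ?_, fun q hq x hx => ?_⟩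
  · rw [ob_mem_top b.2]
    exact fo_top
  · rw [ob_eq P a, BSet.basic_bmem_mk] at hx
    obtain ⟨r, h1, b, h2⟩ := fo_iSup.1 hx q le_rfl
    exact ⟨r, h1, b, (fo_inf.1 h2).2⟩

private theorem ob_ne (a : A) : ∀ b < a, ∀ p : P, ¬ Fo p (BSet.beq (ob P a) (ob P b)) := by
  induction a using WellFoundedLT.induction with
  | ind a ih =>
    intro b hb p h
    have h1 : Fo p (BSet.bmem (ob P b) (ob P a)) := (enu_ob p a).mem ⟨b, hb⟩
    have h2 : Fo p (BSet.bmem (ob P b) (ob P b)) :=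
      fo_ext (ψ := fun y => BSet.bmem (ob P b) y) (BSet.ext_bmem_right _) h h1
    obtain ⟨q, -, c, h3⟩ := (enu_ob p b).cov p le_rfl _ h2
    exact ih b hb c.1 c.2 q h3

theorem fo_beq_ob {p : P} {a b : A} : Fo p (BSet.beq (ob P a) (ob P b)) ↔ a = b := by
  constructor
  · intro h
    rcases lt_trichotomy a b with h1 | h1 | h1
    · exact absurd (fo_beq_symm h) (ob_ne b a h1 p)
    · exact h1
    · exact absurd h (ob_ne a b h1 p)
  · rintro rfl
    exact fo_beq_refl _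

theorem fo_mem_ob {p : P} {a b : A} : Fo p (BSet.bmem (ob P b) (ob P a)) ↔ b < a := by
  constructor
  · intro h
    obtain ⟨q, -, c, h2⟩ := (enu_ob p a).cov p le_rfl _ h
    rw [fo_beq_ob.1 h2]
    exact c.2
  · intro h
    exact (enu_ob p a).mem ⟨b, h⟩

theorem fo_mem_nmS {v : A → RO P} {p : P} {a : A} : Fo p (BSet.bmem (ob P a) (nmS v)) ↔ Fo p (v a) := by
  unfold nmS
  rw [BSet.basic_bmem_mk, fo_iSup]
  constructor
  · intro h
    refine fo_reg fun q hq => ?_
    obtain ⟨r, h1, b, h2⟩ := h q hq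
    obtain ⟨h3, h4⟩ := fo_inf.1 h2
    refine ⟨r, h1, ?_⟩
    rw [fo_beq_ob.1 h4]
    exact h3
  · intro h q hq
    exact ⟨q, le_rfl, a, fo_inf.2 ⟨h.mono hq, fo_beq_refl _⟩⟩

theorem cov_nmS {v : A → RO P} {p : P} {x : BSet (RO P)} (h : Fo p (BSet.bmem x (nmS v))) :
    ∃ q ≤ p, ∃ a, Fo q (v a) ∧ Fo q (BSet.beq x (ob P a)) := by
  unfold nmS at h
  rw [BSet.basic_bmem_mk] at h
  obtain ⟨r, h1, b, h2⟩ := fo_iSup.1 h p le_rfl
  exact ⟨r, h1, b, fo_inf.1 h2⟩

theorem enu_obS (p : P) : Enu p (obS P A) (ob P : A → BSet (RO P)) := by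
  refine ⟨fun a => ?_, fun q hq x hx => ?_⟩
  · exact fo_mem_nmS.2 fo_top
  · obtain ⟨r, h1, a, -, h2⟩ := cov_nmS hx
    exact ⟨r, h1, a, h2⟩

theorem enu_sbS (p : P) (X : Set A) : Enu p (sbS P X) (fun a : {a : A // a ∈ X} => ob P a.1) := by
  refine ⟨fun a => ?_, fun q hq x hx => ?_⟩
  · unfold sbS
    rw [BSet.basic_bmem_mk]
    refine Fo.of_le (x := ⊤) fo_top (le_iSup_of_le a ?_)
    rw [BSet.beq_refl, top_inf_eq]
  · unfold sbS at hx
    rw [BSet.basic_bmem_mk] at hx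
    obtain ⟨r, h1, a, h2⟩ := fo_iSup.1 hx q le_rfl
    exact ⟨r, h1, a, (fo_inf.1 h2).2⟩

theorem fo_mem_sbS {p : P} {X : Set A} {a : A} : Fo p (BSet.bmem (ob P a) (sbS P X)) ↔ a ∈ X := by
  constructor
  · intro h
    obtain ⟨q, -, b, h2⟩ := (enu_sbS p X).cov p le_rfl _ h
    rw [fo_beq_ob.1 h2]
    exact b.2
  · intro h
    exact (enu_sbS p X).mem ⟨a, h⟩

theorem fo_Sub {p : P} {x y : BSet (RO P)} :
    Fo p (Kb.Sub x y) ↔ ∀ z, ∀ q ≤ p, Fo q (BSet.bmem z x) → Fo q (BSet.bmem z y) := by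
  unfold Kb.Sub
  rw [fo_iInf]
  exact forall_congr' fun z => fo_himp

theorem fo_sub_nmS {v : A → RO P} {p : P} : Fo p (Kb.Sub (nmS v) (obS P A)) := by
  refine fo_Sub.2 fun z q hq hz => fo_reg fun r hr => ?_
  obtain ⟨s, hs, a, -, h⟩ := cov_nmS (hz.mono hr)
  exact ⟨s, hs, fo_ext (ψ := fun y => BSet.bmem y (obS P A)) (BSet.ext_bmem_left _) (fo_beq_symm h)
    ((enu_obS s).mem a)⟩

theorem fo_sub_sbS {X : Set A} {p : P} : Fo p (Kb.Sub (sbS P X) (obS P A)) := by
  refine fo_Sub.2 fun z q hq hz => fo_reg fun r hr => ?_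
  obtain ⟨s, hs, a, h⟩ := (enu_sbS r X).cov r le_rfl z (hz.mono hr)
  exact ⟨s, hs, fo_ext (ψ := fun y => BSet.bmem y (obS P A)) (BSet.ext_bmem_left _) (fo_beq_symm h)
    ((enu_obS s).mem a.1)⟩

/-- subsets of `obS P A` are equal if they have the same standard elements -/
theorem fo_beq_of_sub {p : P} {x y : BSet (RO P)} (hx : Fo p (Kb.Sub x (obS P A)))
    (hy : Fo p (Kb.Sub y (obS P A)))
    (h : ∀ a : A, ∀ q ≤ p, (Fo q (BSet.bmem (ob P a) x) ↔ Fo q (BSet.bmem (ob P a) y))) :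
    Fo p (BSet.beq x y) := by
  refine fo_beq_iff.2 fun z q hq => ⟨fun hz => fo_reg fun r hr => ?_, fun hz => fo_reg fun r hr => ?_⟩
  · obtain ⟨s, hs, a, ha⟩ := (enu_obS r).cov r le_rfl z (fo_Sub.1 hx z r (hr.trans hq) (hz.mono hr))
    refine ⟨s, hs, fo_ext (ψ := fun w => BSet.bmem w y) (BSet.ext_bmem_left _) (fo_beq_symm ha) ?_⟩
    refine (h a s ((hs.trans hr).trans hq)).1 ?_
    exact fo_ext (ψ := fun w => BSet.bmem w x) (BSet.ext_bmem_left _) ha (hz.mono (hs.trans hr))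
  · obtain ⟨s, hs, a, ha⟩ := (enu_obS r).cov r le_rfl z (fo_Sub.1 hy z r (hr.trans hq) (hz.mono hr))
    refine ⟨s, hs, fo_ext (ψ := fun w => BSet.bmem w x) (BSet.ext_bmem_left _) (fo_beq_symm ha) ?_⟩
    refine (h a s ((hs.trans hr).trans hq)).2 ?_
    exact fo_ext (ψ := fun w => BSet.bmem w y) (BSet.ext_bmem_left _) ha (hz.mono (hs.trans hr))

end Pool.Agent.Lib.MP_8fac41_lc.FR
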