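import Pool.Agent.Lib.MP_8fac41_lc.FR.B.S0Mem

/-!
# The system is coherent (module FR-B-S0Coh)

`hC`: `hCW`. `opn`: `Fo.mono`. `den`: `Distr.split` (`distr_E D X`) for `eqB xs α β`. `mem`: `hx_mem`.
`h1`, `h2`: let `ξ ∈ Z`, so `p` forces that `xs γ ξ` and `xs β ξ` agree below `β`. If `xs β ξ`, `xs α ξ` agree below `α` then `xs γ ξ`, `xs α ξ` agree below `α`, and conversely (`α < β`). So `ξ ∈ Y ↔ ξ ∈ T`
(if `ξ ∉ T`, then `p` forces the complement of `eqB xs α γ ξ`, similarly for `Y`).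
-/

universe u

namespace Pool.Agent.Lib.MP_8fac41_lc.FR

open Pool.Agent.Lib.MP_4d8715_gt.KR Pool.MP_8fac41_lc.FR

variable {D X : Type u} [LinearOrder D] [WellFoundedLT D] [LinearOrder X] [WellFoundedLT X] [Sett D X]
  {rep : X → D → X}

private theorem S0Coh_eqB {xs : X → D → BSet (RO (E D X))} {a b : X} {i : D} {p : E D X} :
    Fo p (eqB xs a b i) ↔ ∀ c < a, ∀ q ≤ p,
      (Fo q (BSet.bmem (ob (E D X) c) (xs b i)) ↔ Fo q (BSet.bmem (ob (E D X) c) (xs a i))) := by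
  unfold eqB
  rw [fo_iInf]
  constructor
  · intro h c hc
    exact fo_iffB.1 (h ⟨c, hc⟩)
  · intro h c
    exact fo_iffB.2 (h c.1 c.2)

theorem hx_coh (hr : Rep (V0 D X) rep) {C : Set X} (hCW : C ∈ VW D X)
    (hC : ∀ a ∈ C, {i | rep a i = a} ∈ V0 D X)
    {c0 : E D X} {A : BSet (RO (E D X))} {xs : X → D → BSet (RO (E D X))}
    (hs : Seg rep C c0 A xs) : HH c0 C (Hx C c0 xs) := by
  refine ⟨hCW, ?_, ?_, ?_, ?_, ?_⟩
  · rintro α β Y p q hq ⟨h1, h2, h3, h4, h5, h6⟩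
    exact ⟨h1, h2, h3, hq.trans h4, fun i hi => (h5 i hi).mono hq, fun i hi => (h6 i hi).mono hq⟩
  · intro α hα β hβ hαβ p hp
    obtain ⟨q, hq, Y, h1, h2⟩ := (distr_E D X).split (eqB xs α β) p
    exact ⟨q, hq, Y, hα, hβ, hαβ, hq.trans hp, h1, h2⟩
  · intro α β Y p h
    exact hx_mem hr hC hs h
  · intro α β γ Y Z T p hαβ hβγ hY hZ hT ξ hξY hξZ
    by_contra hξT
    have h1 := S0Coh_eqB.1 (hY.2.2.2.2.1 ξ hξY)
    have h2 := S0Coh_eqB.1 (hZ.2.2.2.2.1 ξ hξZ)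
    refine fo_compl.1 (hT.2.2.2.2.2 ξ hξT) p le_rfl (S0Coh_eqB.2 fun c hc q hq => ?_)
    exact (h2 c (hc.trans hαβ) q hq).trans (h1 c hc q hq)
  · intro α β γ Y Z T p hαβ hβγ hY hZ hT ξ hξT hξZ
    by_contra hξY
    have h1 := S0Coh_eqB.1 (hT.2.2.2.2.1 ξ hξT)
    have h2 := S0Coh_eqB.1 (hZ.2.2.2.2.1 ξ hξZ)
    refine fo_compl.1 (hY.2.2.2.2.2 ξ hξY) p le_rfl (S0Coh_eqB.2 fun c hc q hq => ?_)
    exact (h2 c (hc.trans hαβ) q hq).symm.trans (h1 c hc q hq)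

end Pool.Agent.Lib.MP_8fac41_lc.FR
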