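import Pool.Agent.Lib.MP_8fac41_lc.FR.B.S0Defs

/-!
# A thread gives a representing sequence (module FR-B-S0Thr)

`Fx` is the union along the thread. Proof of `seg_thread`: `fo_iffB`; let `p ≤ q`. Choose `a ∈ C` with `c < a` (`hcof`), and (`hT2`) `p' ≤ p` with `{i | T p' a i} ∈ U₀`; `S = {i | T p' a i, rep c i < a} ∈ U₀` (`Rep.lt`, `hC`).
(*) for `i ∈ S`, `e < a`, `r ≤ p'`: `Fo r (bmem (ob _ e) (Fx i)) ↔ Fo r (bmem (ob _ e) (xs a i))`. (←) by definition (`fo_mem_nmS`, `fo_iSup`, `fo_ro`, `hT1`). (→) densely there are `b ∈ C`, `e < b` and `s` with `T s b i` (`s` may be taken below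
the given condition by `hT1`, `fo_ro`) and `ob _ e ∈ xs b i`. If `b = a` done. If `b < a`: some `s' ≤ s` has `Hx C c0 xs b a Y s'` (`hcoh.den`), `i ∈ Y` by `hT3`, so `s'` forces `eqB xs b a i`, `e < b`: `ob _ e ∈ xs a i`. If `a < b`: `Hx C c0 xs a b Y s'`, the same with
`eqB xs a b i`, `e < a`.
So `rep c i ∈ Fx i` iff `rep c i ∈ xs a i` for `i ∈ S` (`fo_UL_mono`), and `Seg` for `a` gives the claim (for density use `fo_reg`: it suffices to prove both directions below `p'`).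
-/

universe u

namespace Pool.Agent.Lib.MP_8fac41_lc.FR

open Pool.Agent.Lib.MP_4d8715_gt.KR Pool.MP_8fac41_lc.FR

variable {D X : Type u} [LinearOrder D] [WellFoundedLT D] [LinearOrder X] [WellFoundedLT X] [Sett D X]
  {rep : X → D → X}

/-- the union along the thread -/
noncomputable def Fx (C : Set X) (xs : X → D → BSet (RO (E D X))) (T : E D X → X → D → Prop) (i : D) :
    BSet (RO (E D X)) :=
  nmS fun e : X => ⨆ a : {a : X // a ∈ C ∧ e < a}, ro {s | T s a.1 i} ⊓ BSet.bmem (ob (E D X) e) (xs a.1 i)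

private theorem s0thr_star {C : Set X} {c0 p' : E D X} {xs : X → D → BSet (RO (E D X))}
    (hcoh : HH c0 C (Hx C c0 xs)) {T : E D X → X → D → Prop} (hp' : p' ≤ c0)
    (hT1 : ∀ s s' a i, s' ≤ s → T s a i → T s' a i)
    (hT3 : ∀ s a b i Y, a ∈ C → b ∈ C → a < b → T s a i → T s b i → Hx C c0 xs a b Y s → i ∈ Y)
    {a : X} (ha : a ∈ C) {i : D} (hi : T p' a i) {e : X} (he : e < a) {r : E D X} (hr : r ≤ p') :
    Fo r (BSet.bmem (ob (E D X) e) (Fx C xs T i)) ↔ Fo r (BSet.bmem (ob (E D X) e) (xs a i)) := by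
  unfold Fx
  rw [fo_mem_nmS, fo_iSup]
  have hopen : ∀ (b : X) (i : D), ∀ p ∈ {s : E D X | T s b i}, ∀ q ≤ p, q ∈ {s : E D X | T s b i} :=
    fun b i p hp q hq => hT1 p q b i hq hp
  constructor
  · intro h
    refine fo_reg fun r' hr' => ?_
    obtain ⟨s, hs, ⟨b, hb, heb⟩, h1⟩ := h r' hr'
    obtain ⟨h2, h3⟩ := fo_inf.1 h1
    obtain ⟨s1, hs1, h4⟩ := (fo_ro (hopen b i)).1 h2 s le_rfl
    have h5 := h3.mono hs1
    have h6 : T s1 b i := h4
    have hle : s1 ≤ p' := (hs1.trans hs).trans (hr'.trans hr)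
    have h7 : T s1 a i := hT1 p' s1 a i hle hi
    rcases lt_trichotomy b a with h8 | h8 | h8
    · obtain ⟨s2, hs2, Y, hY⟩ := hcoh.den b hb a ha h8 s1 (hle.trans hp')
      have hiY := hT3 s2 b a i Y hb ha h8 (hT1 s1 s2 b i hs2 h6) (hT1 s1 s2 a i hs2 h7) hY
      obtain ⟨-, -, -, -, h9, -⟩ := hY
      have h10 := h9 i hiY
      unfold eqB at h10
      have h11 := fo_iffB.1 (fo_iInf.1 h10 ⟨e, heb⟩) s2 le_rfl
      exact ⟨s2, hs2.trans (hs1.trans hs), h11.2 (h5.mono hs2)⟩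
    · rw [← h8]
      exact ⟨s1, hs1.trans hs, h5⟩
    · obtain ⟨s2, hs2, Y, hY⟩ := hcoh.den a ha b hb h8 s1 (hle.trans hp')
      have hiY := hT3 s2 a b i Y ha hb h8 (hT1 s1 s2 a i hs2 h7) (hT1 s1 s2 b i hs2 h6) hY
      obtain ⟨-, -, -, -, h9, -⟩ := hY
      have h10 := h9 i hiY
      unfold eqB at h10
      have h11 := fo_iffB.1 (fo_iInf.1 h10 ⟨e, he⟩) s2 le_rfl
      exact ⟨s2, hs2.trans (hs1.trans hs), h11.1 (h5.mono hs2)⟩
  · intro h r' hr'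
    refine ⟨r', le_rfl, ⟨a, ha, he⟩, fo_inf.2 ⟨(fo_ro (hopen a i)).2 fun s hs => ⟨s, le_rfl, ?_⟩,
      h.mono hr'⟩⟩
    exact hT1 p' s a i (hs.trans (hr'.trans hr)) hi

theorem seg_thread (hr : Rep (V0 D X) rep) {C : Set X}
    (hC : ∀ a ∈ C, {i | rep a i = a} ∈ V0 D X)
    (hcof : ∀ c : X, ∃ a ∈ C, c < a) {c0 q : E D X} {A : BSet (RO (E D X))}
    {xs : X → D → BSet (RO (E D X))} (hs : Seg rep C c0 A xs) (hcoh : HH c0 C (Hx C c0 xs))
    {T : E D X → X → D → Prop} (hq : q ≤ c0) (hT1 : ∀ s s' a i, s' ≤ s → T s a i → T s' a i)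
    (hT2 : ∀ s, s ≤ q → ∀ a ∈ C, ∃ s', s' ≤ s ∧ ∀ᶠ i in F0 D X, T s' a i)
    (hT3 : ∀ s a b i Y, a ∈ C → b ∈ C → a < b → T s a i → T s b i → Hx C c0 xs a b Y s → i ∈ Y) (c : X) :
    Fo q (iffB (BSet.bmem (ob (E D X) c) A)
      (UL (V0 D X) fun i => BSet.bmem (ob (E D X) (rep c i)) (Fx C xs T i))) := by
  have key : ∀ p ≤ q, ∃ p' ≤ p, ∀ r ≤ p', (Fo r (BSet.bmem (ob (E D X) c) A) ↔
      Fo r (UL (V0 D X) fun i => BSet.bmem (ob (E D X) (rep c i)) (Fx C xs T i))) := by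
    intro p hp
    obtain ⟨a, ha, hca⟩ := hcof c
    obtain ⟨p', hp', hT⟩ := hT2 p hp a ha
    have hp'c : p' ≤ c0 := hp'.trans (hp.trans hq)
    have hS : {i | T p' a i} ∩ ({i | rep c i < rep a i} ∩ {i | rep a i = a}) ∈ V0 D X :=
      Filter.inter_mem hT (Filter.inter_mem (hr.lt c a hca) (hC a ha))
    have hstar : ∀ i ∈ {i | T p' a i} ∩ ({i | rep c i < rep a i} ∩ {i | rep a i = a}), ∀ r ≤ p',
        (Fo r (BSet.bmem (ob (E D X) (rep c i)) (Fx C xs T i)) ↔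
          Fo r (BSet.bmem (ob (E D X) (rep c i)) (xs a i))) := by
      rintro i ⟨h1, h2, h3⟩ r hr
      refine s0thr_star hcoh hp'c hT1 hT3 ha h1 ?_ hr
      have h4 : rep c i < rep a i := h2
      have h5 : rep a i = a := h3
      rwa [h5] at h4
    refine ⟨p', hp', fun r hr => ?_⟩
    have h1 := fo_iffB.1 (hs a ha c hca) r (hr.trans hp'c)
    rw [h1]
    constructor
    · intro h2
      exact fo_UL_mono hS (fun i hi v hv h3 _ => (hstar i hi v (hv.trans hr)).2 h3) h2 h2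
    · intro h2
      exact fo_UL_mono hS (fun i hi v hv h3 _ => (hstar i hi v (hv.trans hr)).1 h3) h2 h2
  refine fo_iffB.2 fun p hp => ⟨fun h => fo_reg fun r hr => ?_, fun h => fo_reg fun r hr => ?_⟩
  · obtain ⟨p', hp', h1⟩ := key r (hr.trans hp)
    exact ⟨p', hp', (h1 p' le_rfl).1 (h.mono (hp'.trans hr))⟩
  · obtain ⟨p', hp', h1⟩ := key r (hr.trans hp)
    exact ⟨p', hp', (h1 p' le_rfl).2 (h.mono (hp'.trans hr))⟩

end Pool.Agent.Lib.MP_8fac41_lc.FR
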