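import Pool.Agent.Lib.MP_8fac41_lc.FR.B.S0Seg
import Pool.Agent.Lib.MP_8fac41_lc.FR.B.S0Coh
import Pool.Agent.Lib.MP_8fac41_lc.FR.B.S0Thr
import Pool.Agent.Lib.MP_8fac41_lc.FR.T.Goal
import Pool.Agent.Lib.MP_8fac41_lc.FR.U.RepFix

/-!
# There are no fresh subsets over the ultrapower by `U₀`
-/

universe u

namespace Pool.Agent.Lib.MP_8fac41_lc.FR

open Pool.Agent.Lib.MP_4d8715_gt.KR Cardinal Pool.MP_8fac41_lc.FR

variable {D X : Type u} [LinearOrder D] [WellFoundedLT D] [LinearOrder X] [WellFoundedLT X] [Sett D X]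

theorem not_fresh (c0 : E D X) (A : BSet (RO (E D X))) :
    ¬ Fo c0 (Kc.Fresh (obS (E D X) D) (uB (E D X) (V0 D X)) (obS (E D X) X) A) := by
  intro h
  have hDX : #D < #X := Sett.DX
  obtain ⟨rep, hr⟩ := exists_rep (nuf0 D X) (nufW D X) hDX
  have hCW : {a : X | {i | rep a i = a} ∈ V0 D X} ∈ VW D X :=
    hr.fix (nufW D X) hDX
  obtain ⟨xs, hs⟩ := exists_seg hr h {a : X | {i | rep a i = a} ∈ V0 D X}
  have hC : ∀ a ∈ {a : X | {i | rep a i = a} ∈ V0 D X},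
      {i | rep a i = a} ∈ V0 D X := fun a ha => ha
  have hcoh := hx_coh hr hCW hC hs
  obtain ⟨q, hq, T, hT1, hT2, hT3⟩ := thread hcoh
  have hcof : ∀ c : X, ∃ a ∈ {a : X | {i | rep a i = a} ∈ V0 D X}, c < a := by
    intro c
    obtain ⟨a, ha1, ha2⟩ := Ultrafilter.nonempty_of_mem (Filter.inter_mem hCW ((nufW D X).tail c))
    exact ⟨a, ha1, ha2⟩
  have hfin := seg_thread hr hC hcof hs hcoh hq hT1 hT2 hT3
  have hne' : Nonempty X := nonempty_X D X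
  unfold Kc.Fresh at h
  obtain ⟨h1, h2⟩ := fo_inf.1 h
  obtain ⟨h3, -⟩ := fo_inf.1 h2
  refine fo_compl.1 h3 q hq ?_
  exact inUlt_intro (distr_E D X) hr (h1.mono hq) (Fx _ xs T) (fun i => fo_sub_nmS) hfin

end Pool.Agent.Lib.MP_8fac41_lc.FR
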