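import Pool.Agent.Lib.MP_8fac41_lc.FR.B.Bridge
import Pool.Agent.Lib.MP_8fac41_lc.FR.B.Elim
import Pool.Agent.Lib.MP_8fac41_lc.FR.B.Intro
import Pool.Agent.Lib.MP_8fac41_lc.FR.T.Defs

/-!
# The side of `U₀`: definitions

`E D X` is the poset of the combinatorial part (`P/Defs.lean`), with its preorder; for the `B/S0*` modules nothing about its structure is needed.
-/

universe u

namespace Pool.Agent.Lib.MP_8fac41_lc.FR

open Pool.Agent.Lib.MP_4d8715_gt.KR Pool.MP_8fac41_lc.FR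

variable {D X : Type u} [LinearOrder D] [WellFoundedLT D] [LinearOrder X] [WellFoundedLT X] [Sett D X]

/-- the value of: `xs b i` and `xs a i` have the same elements below `a` -/
noncomputable def eqB (xs : X → D → BSet (RO (E D X))) (a b : X) (i : D) : RO (E D X) :=
  ⨅ c : {c : X // c < a}, iffB (BSet.bmem (ob (E D X) c.1) (xs b i)) (BSet.bmem (ob (E D X) c.1) (xs a i))

/-- for `a ∈ C` the set `A ∩ a` is represented by the sequence `xs a` -/
def Seg (rep : X → D → X) (C : Set X) (c0 : E D X) (A : BSet (RO (E D X))) (xs : X → D → BSet (RO (E D X))) : Prop :=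
  ∀ a ∈ C, ∀ c < a, Fo c0 (iffB (BSet.bmem (ob (E D X) c) A)
    (UL (V0 D X) fun i => BSet.bmem (ob (E D X) (rep c i)) (xs a i)))

/-- `p` decides that `Y` is the set of all `i` such that `xs b i` and `xs a i` agree below `a` -/
def Hx (C : Set X) (c0 : E D X) (xs : X → D → BSet (RO (E D X))) (a b : X) (Y : Set D) (p : E D X) : Prop :=
  a ∈ C ∧ b ∈ C ∧ a < b ∧ p ≤ c0 ∧ (∀ i ∈ Y, Fo p (eqB xs a b i)) ∧ ∀ i ∉ Y, Fo p (eqB xs a b i)ᶜ

end Pool.Agent.Lib.MP_8fac41_lc.FR
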