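import Pool.Agent.Lib.MP_8fac41_lc.FR.B.S0Defs

/-!
# The decided sets belong to `U₀` (module FR-B-S0Mem)

Let `U₀ = V0 D X`. Suppose `Y ∉ U₀`. By `Distr.choose` (`distr_E D X`; for `i ∉ Y` some condition below decides `c < a` such that `iffB ..` is forced to fail for `c`: `fo_compl`, `fo_iInf`) there are `q ≤ p` and `g : D → X` with, for `i ∉ Y`: `g i < a` and
`Fo q (iffB (bmem (ob _ (g i)) (xs b i)) (bmem (ob _ (g i)) (xs a i)))ᶜ`. `Rep.cov` gives `c` with `rep c = g` mod `U₀`; since `{i | rep a i = a} ∈ U₀` (`hC`), `c < a` (`Rep.lt_iff`). By `fo_decide` some `r ≤ q` forces `bmem (ob _ c) A` or its complement.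
By `Seg` for `a` and for `b` (`c < a < b`) it forces `UL U₀` of `rep c i ∈ xs a i` and of `rep c i ∈ xs b i`, or of the complements (`fo_UL_compl`). `fo_UL_mono` (e.g. with `e = ⊥`), `fo_UL_false`: contradiction.
-/

universe u

namespace Pool.Agent.Lib.MP_8fac41_lc.FR

open Pool.Agent.Lib.MP_4d8715_gt.KR Pool.MP_8fac41_lc.FR

variable {D X : Type u} [LinearOrder D] [WellFoundedLT D] [LinearOrder X] [WellFoundedLT X] [Sett D X]
  {rep : X → D → X}

private theorem s0mem_not {P : Type u} [Preorder P] {q : P} {x : RO P} (h : ¬ Fo q x) :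
    ∃ r ≤ q, Fo r xᶜ := by
  by_contra hcon
  refine h (fo_reg fun r hr => ?_)
  obtain ⟨s, hs, h1 | h1⟩ := fo_decide x r
  · exact ⟨s, hs, h1⟩
  · exact absurd ⟨s, hs.trans hr, h1⟩ hcon

private theorem s0mem_compl {P : Type u} [Preorder P] {q : P} {x y : RO P} (h : Fo q (iffB x y))
    (hx : Fo q xᶜ) : Fo q yᶜ :=
  fo_compl.2 fun r hr hy => fo_compl.1 hx r hr ((fo_iffB.1 h r hr).2 hy)

private theorem s0mem_false {P : Type u} [Preorder P] {U : Ultrafilter D} {q r : P}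
    (hr : r ≤ q) {x y : D → RO P} {S : Set D} (hS : S ∈ U)
    (h : ∀ i ∈ S, Fo q (iffB (x i) (y i))ᶜ) {x' y' : D → RO P}
    (h' : ∀ i, ∀ v : P, Fo v (x' i) → Fo v (y' i) → Fo v (iffB (x i) (y i)))
    (hx : Fo r (UL U x')) (hy : Fo r (UL U y')) : False := by
  obtain ⟨r1, h1, S1, hS1, h2⟩ := fo_UL.1 hx r le_rfl
  obtain ⟨r2, h3, S2, hS2, h4⟩ := fo_UL.1 hy r1 h1
  obtain ⟨i, hi⟩ := U.nonempty_of_mem (Filter.inter_mem hS (Filter.inter_mem hS1 hS2))
  exact fo_compl.1 (h i hi.1) r2 ((h3.trans h1).trans hr)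
    (h' i r2 ((h2 i hi.2.1).mono h3) (h4 i hi.2.2))

theorem hx_mem (hr : Rep (V0 D X) rep) {C : Set X} (hC : ∀ a ∈ C, {i | rep a i = a} ∈ V0 D X)
    {c0 : E D X} {A : BSet (RO (E D X))} {xs : X → D → BSet (RO (E D X))}
    (hs : Seg rep C c0 A xs) {a b : X} {Y : Set D} {p : E D X} (h : Hx C c0 xs a b Y p) :
    Y ∈ V0 D X := by
  obtain ⟨ha, hb, hab, hpc, -, h2⟩ := h
  by_contra hY
  have hYc : Yᶜ ∈ V0 D X := Ultrafilter.compl_mem_iff_notMem.2 hY
  have hd := distr_E D X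
  obtain ⟨q, hq, g, hg⟩ := hd.choose (Z := X) (fun i c s => i ∉ Y → (c < a ∧
      Fo s (iffB (BSet.bmem (ob (E D X) c) (xs b i)) (BSet.bmem (ob (E D X) c) (xs a i)))ᶜ)) p
    (fun i c s s' hs hss hi => ⟨(hs hi).1, (hs hi).2.mono hss⟩) (by
      intro i q hq
      by_cases hi : i ∈ Y
      · exact ⟨q, le_rfl, a, fun h => absurd hi h⟩
      · have h3 : ¬ Fo q (eqB xs a b i) := fo_compl.1 (h2 i hi) q hq
        unfold eqB at h3
        rw [fo_iInf] at h3
        push Not at h3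
        obtain ⟨⟨c, hc⟩, h4⟩ := h3
        obtain ⟨r, hr, h5⟩ := s0mem_not h4
        exact ⟨r, hr, c, fun _ => ⟨hc, h5⟩⟩)
  obtain ⟨c, hc⟩ := hr.cov g
  have hca : c < a := by
    refine (hr.lt_iff).1 (Filter.mem_of_superset (Filter.inter_mem hYc
      (Filter.inter_mem hc (hC a ha))) ?_)
    rintro i ⟨h3, h4, h5⟩
    have h6 : rep c i = g i := h4
    have h7 : rep a i = a := h5
    show rep c i < rep a i
    rw [h6, h7]
    exact (hg i h3).1
  have hS : Yᶜ ∩ {i | rep c i = g i} ∈ V0 D X := Filter.inter_mem hYc hc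
  have hgS : ∀ i ∈ Yᶜ ∩ {i | rep c i = g i}, Fo q (iffB
      (BSet.bmem (ob (E D X) (rep c i)) (xs b i)) (BSet.bmem (ob (E D X) (rep c i)) (xs a i)))ᶜ := by
    rintro i ⟨h3, h4⟩
    have h5 : rep c i = g i := h4
    rw [h5]
    exact (hg i h3).2
  have hqc : q ≤ c0 := hq.trans hpc
  obtain ⟨r, hrq, h3 | h3⟩ := fo_decide (BSet.bmem (ob (E D X) c) A) q
  · have h4 := (fo_iffB.1 (hs a ha c hca) r (hrq.trans hqc)).1 h3
    have h5 := (fo_iffB.1 (hs b hb c (hca.trans hab)) r (hrq.trans hqc)).1 h3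
    refine s0mem_false hrq hS hgS (fun i v h6 h7 => ?_) h5 h4
    exact fo_iffB.2 fun w hw => ⟨fun _ => h7.mono hw, fun _ => h6.mono hw⟩
  · have h4 := (fo_UL_compl hd).1 (s0mem_compl ((hs a ha c hca).mono (hrq.trans hqc)) h3)
    have h5 := (fo_UL_compl hd).1
      (s0mem_compl ((hs b hb c (hca.trans hab)).mono (hrq.trans hqc)) h3)
    refine s0mem_false hrq hS hgS (fun i v h6 h7 => ?_) h5 h4
    exact fo_iffB.2 fun w hw => ⟨fun h8 => absurd h8 (fo_compl.1 h6 w hw),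
      fun h8 => absurd h8 (fo_compl.1 h7 w hw)⟩

end Pool.Agent.Lib.MP_8fac41_lc.FR
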