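import Pool.Agent.Lib.MP_8fac41_lc.FR.B.S0Defs

/-!
# Names of the initial segments (module FR-B-S0Seg)

For `a : X` let `Aa = nmS (fun c => ⨆ _ : c < a, bmem (ob _ c) A)` be the name of `A ∩ a`. `Fo c0 (⨅ z, iffB (bmem z Aa) (bmem z A ⊓ bmem z (ob _ a)))` (`cov_nmS`, `fo_mem_nmS`, `enu_ob`). The third conjunct of `Kc.Fresh` gives
`Fo c0 (InUlt .. Aa)`; `inUlt_elim` (`distr_E D X`) gives `xs a`. For `c < a`, `bmem (ob _ c) Aa` and `bmem (ob _ c) A` are forced by the same conditions.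
-/

universe u

namespace Pool.Agent.Lib.MP_8fac41_lc.FR

open Pool.Agent.Lib.MP_4d8715_gt.KR Pool.MP_8fac41_lc.FR

variable {D X : Type u} [LinearOrder D] [WellFoundedLT D] [LinearOrder X] [WellFoundedLT X] [Sett D X]
  {rep : X → D → X}

/-- the value of `c` in the name of `A ∩ a` -/
private noncomputable def segV (A : BSet (RO (E D X))) (a c : X) : RO (E D X) :=
  ⨆ _ : c < a, BSet.bmem (ob (E D X) c) A

private theorem fo_segV {A : BSet (RO (E D X))} {a c : X} {p : E D X} :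
    Fo p (segV A a c) ↔ c < a ∧ Fo p (BSet.bmem (ob (E D X) c) A) := by
  unfold segV
  by_cases h : c < a
  · simp only [h, iSup_pos, true_and]
  · simp only [h, iSup_false, false_and, iff_false]
    exact fo_bot

private theorem fo_seg_iff {A : BSet (RO (E D X))} {a : X} {p : E D X} :
    Fo p (⨅ z, iffB (BSet.bmem z (nmS (segV A a))) (BSet.bmem z A ⊓ BSet.bmem z (ob (E D X) a))) := by
  refine fo_iInf.2 fun z => fo_iffB.2 fun q hq => ⟨fun hz => fo_reg fun r hr => ?_,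
    fun hz => fo_reg fun r hr => ?_⟩
  · obtain ⟨s, hs, c, h1, h2⟩ := cov_nmS (hz.mono hr)
    obtain ⟨h3, h4⟩ := fo_segV.1 h1
    refine ⟨s, hs, fo_inf.2 ⟨?_, ?_⟩⟩
    · exact fo_ext (ψ := fun y => BSet.bmem y A) (BSet.ext_bmem_left _) (fo_beq_symm h2) h4
    · exact fo_ext (ψ := fun y => BSet.bmem y (ob (E D X) a)) (BSet.ext_bmem_left _)
        (fo_beq_symm h2) (fo_mem_ob.2 h3)
  · obtain ⟨h1, h2⟩ := fo_inf.1 hz
    obtain ⟨s, hs, b, h3⟩ := (enu_ob r a).cov r le_rfl z (h2.mono hr)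
    refine ⟨s, hs, ?_⟩
    have h4 : Fo s (BSet.bmem (ob (E D X) b.1) A) :=
      fo_ext (ψ := fun y => BSet.bmem y A) (BSet.ext_bmem_left _) h3 (h1.mono (hs.trans hr))
    exact fo_ext (ψ := fun y => BSet.bmem y (nmS (segV A a))) (BSet.ext_bmem_left _)
      (fo_beq_symm h3) (fo_mem_nmS.2 (fo_segV.2 ⟨b.2, h4⟩))

theorem exists_seg (hr : Rep (V0 D X) rep) {c0 : E D X} {A : BSet (RO (E D X))}
    (h : Fo c0 (Kc.Fresh (obS (E D X) D) (uB (E D X) (V0 D X)) (obS (E D X) X) A)) (C : Set X) :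
    ∃ xs : X → D → BSet (RO (E D X)), Seg rep C c0 A xs := by
  have key : ∀ a : X, ∃ xs : D → BSet (RO (E D X)), ∀ c < a,
      Fo c0 (iffB (BSet.bmem (ob (E D X) c) A)
        (UL (V0 D X) fun i => BSet.bmem (ob (E D X) (rep c i)) (xs i))) := by
    intro a
    have h1 := fo_iInf.1 (fo_iInf.1 (fo_inf.1 (fo_inf.1 h).2).2 (ob (E D X) a)) (nmS (segV A a))
    have h2 := fo_himp.1 h1 c0 le_rfl ((enu_obS c0).mem a)
    have h3 := fo_himp.1 h2 c0 le_rfl fo_seg_iff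
    obtain ⟨xs, hxs⟩ := inUlt_elim (distr_E D X) hr h3
    refine ⟨xs, fun c hc => fo_iffB.2 fun q hq => ?_⟩
    rw [← fo_iffB.1 (hxs c) q hq, fo_mem_nmS, fo_segV]
    exact ⟨fun h4 => ⟨hc, h4⟩, fun h4 => h4.2⟩
  choose xs hxs using key
  exact ⟨xs, fun a _ c hc => hxs a c hc⟩

end Pool.Agent.Lib.MP_8fac41_lc.FR
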