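import Pool.Agent.Lib.MP_8fac41_lc.FR.B.Bridge
import Pool.Agent.Lib.MP_8fac41_lc.FR.B.Elim
import Pool.Agent.Lib.MP_8fac41_lc.FR.B.Intro
import Pool.Agent.Lib.MP_8fac41_lc.FR.P.Top

/-!
# The side of `U₁`: the generic relations (module FR-B-S1Defs)

`rB i a b` is the Boolean value of: `a` is below `b` in the generic relation with index `i`. `fo_rB'`: `fo_ro`; `{p | p.1.r i a b}` is open (`TS.sup`, `le_iff`). `fo_rB`: if `a, b ∈ p.1.a` and `r ≤ p` then `r.1.r i a b ↔ p.1.r i a b`.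
`AB` is the name of the fresh set.
`exists_big`: `exists_top` twice (choose the tops with `NUF.exists_gt` of `nufW`); `exists_larger`: `exists_top`.
`ts q` gives the fields `lt`, `trans`, `tree`, `meas` of a condition `q`.
-/

universe u

namespace Pool.Agent.Lib.MP_8fac41_lc.FR

open Pool.Agent.Lib.MP_4d8715_gt.KR Pool.MP_8fac41_lc.FR

variable {D X : Type u} [LinearOrder D] [WellFoundedLT D] [LinearOrder X] [WellFoundedLT X] [Sett D X]

theorem ts (q : E D X) : TS q.1 := q.2.1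

/-- `a` is below `b` in the generic relation with index `i` -/
noncomputable def rB (i : D) (a b : X) : RO (E D X) := ro {p | p.1.r i a b}

private theorem s1d_r_iff {p q : E D X} (hq : q ≤ p) {i : D} {a b : X} (ha : a ∈ p.1.a) (hb : b ∈ p.1.a) :
    q.1.r i a b ↔ p.1.r i a b :=
  (show q.1 ≤ p.1 from hq).2 i a ha b hb

theorem fo_rB' {p : E D X} {i : D} {a b : X} : Fo p (rB i a b) ↔ ∀ q ≤ p, ∃ r ≤ q, r.1.r i a b := by
  refine fo_ro fun p hp q hq => ?_
  have hp' : p.1.r i a b := hp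
  obtain ⟨ha, hb⟩ := (ts p).sup i a b hp'
  exact (s1d_r_iff hq ha hb).2 hp'

theorem fo_rB {p : E D X} {i : D} {a b : X} (ha : a ∈ p.1.a) (hb : b ∈ p.1.a) :
    Fo p (rB i a b) ↔ p.1.r i a b := by
  rw [fo_rB']
  constructor
  · intro h
    obtain ⟨r, hr, h2⟩ := h p le_rfl
    exact (s1d_r_iff hr ha hb).1 h2
  · intro h q hq
    exact ⟨q, le_rfl, (s1d_r_iff hq ha hb).2 h⟩

theorem exists_big (p : E D X) (c : X) :
    ∃ q ≤ p, ∃ a b : X, a ∈ q.1.a ∧ b ∈ q.1.a ∧ c < a ∧ a < b := by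
  obtain ⟨m, hm⟩ := (nufW D X).exists_gt (max (top p) c)
  obtain ⟨q, hq, hqm, -⟩ := exists_top p ((le_max_left _ _).trans_lt hm)
  obtain ⟨m', hm'⟩ := (nufW D X).exists_gt m
  obtain ⟨r, hr, hrm, -⟩ := exists_top q (m := m') (by rw [hqm]; exact hm')
  refine ⟨r, hr.trans hq, m, m', ?_, ?_, (le_max_right _ _).trans_lt hm, hm'⟩
  · exact (show r.1 ≤ q.1 from hr).1 (by rw [← hqm]; exact top_mem q)
  · rw [← hrm]
    exact top_mem r

/-- for every element of a condition there is an extension with a larger element -/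
theorem exists_larger (p : E D X) {a : X} (ha : a ∈ p.1.a) :
    ∃ q ≤ p, ∃ b : X, b ∈ q.1.a ∧ a < b := by
  obtain ⟨m, hm⟩ := (nufW D X).exists_gt (top p)
  obtain ⟨q, hq, hqm, -⟩ := exists_top p hm
  refine ⟨q, hq, m, ?_, (le_top' p ha).trans_lt hm⟩
  rw [← hqm]
  exact top_mem q

variable (D) in
/-- the fresh set: the ordinals `c` such that for some `a`, `rep c i` is below `a` for `U₁`-many `i` -/
noncomputable def AB (rep : X → D → X) : BSet (RO (E D X)) :=
  nmS fun c : X => ⨆ a : X, UL (V1 D X) fun i => rB i (rep c i) a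

end Pool.Agent.Lib.MP_8fac41_lc.FR
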