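import Pool.Agent.Lib.MP_8fac41_lc.FR.B.S1Seg

/-!
# The initial segments belong to the ultrapower (module FR-B-S1In)

`fo_iInf`, `fo_himp`; let `q` force `a' ∈ obS _ X` and that `C` is the intersection of `AB` and `a'`. Density (`fo_reg`): `enu_obS` gives `r ≤ q` with `a' = ob _ a`, `exists_big` gives `s ≤ r` and `b ∈ s.1.a`, `a < b`. Apply `inUlt_intro` at `s` (`distr_E D X`, `nonempty_X D X`) to
`xs i = nmS (fun c => ⨆ _ : c < rep a i, rB i c b)`. `C ⊆ obS _ X`: `C ⊆ AB`, `fo_sub_nmS`. For `c : X` and `s' ≤ s`: `ob _ c ∈ C` iff `c < a` and `ob _ c ∈ AB` (`fo_mem_ob`). If `c < a` then `{i | rep c i < b} ∈ U₁` (`Rep.exists_const` for `b`: `j ≥ b > c`, `rep j = b`, `Rep.lt`),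
so (`fo_AB_seg`) iff `UL (V1 D X) fun i => rB i (rep c i) b`, and `rep c i < rep a i` for `U₁`-many `i`; `fo_UL_mono`. If `a ≤ c` then `rep a i ≤ rep c i` for `U₁`-many `i`, so `ob _ (rep c i) ∉ xs i`, `fo_UL_false`.
-/

universe u

namespace Pool.Agent.Lib.MP_8fac41_lc.FR

open Pool.Agent.Lib.MP_4d8715_gt.KR Pool.MP_8fac41_lc.FR

variable {D X : Type u} [LinearOrder D] [WellFoundedLT D] [LinearOrder X] [WellFoundedLT X] [Sett D X]
  {rep : X → D → X}

private theorem s1in_sup {P : Type u} [Preorder P] {t : P} {Q : Prop} {x : RO P} :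
    Fo t (⨆ _ : Q, x) ↔ Q ∧ Fo t x := by
  constructor
  · intro h
    have h1 := fo_iSup.1 h
    obtain ⟨r, -, hQ, -⟩ := h1 t le_rfl
    refine ⟨hQ, fo_reg fun q hq => ?_⟩
    obtain ⟨r, hr, -, h2⟩ := h1 q hq
    exact ⟨r, hr, h2⟩
  · rintro ⟨hQ, h⟩
    exact h.of_le (le_iSup (fun _ : Q => x) hQ)

private theorem s1in_mem {P : Type u} [Preorder P] {t : P} {v : X → RO P} {Q : X → Prop} {c : X} :
    Fo t (BSet.bmem (ob P c) (nmS fun c => ⨆ _ : Q c, v c)) ↔ Q c ∧ Fo t (v c) := by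
  rw [fo_mem_nmS]
  exact s1in_sup

theorem fo_AB_in (hr : Rep (V1 D X) rep) (p : E D X) :
    Fo p (⨅ a, ⨅ C, BSet.bmem a (obS (E D X) X) ⇨
      (⨅ z, iffB (BSet.bmem z C) (BSet.bmem z (AB D rep) ⊓ BSet.bmem z a)) ⇨
        Kc.InUlt (obS (E D X) D) (uB (E D X) (V1 D X)) C) := by
  refine fo_iInf.2 fun a' => fo_iInf.2 fun C => fo_himp.2 fun q _ h1 => fo_himp.2 fun q2 hq2 h2 => ?_
  refine fo_reg fun r0 hr0 => ?_
  obtain ⟨r1, hr1, a, ha⟩ := (enu_obS r0).cov r0 le_rfl a' (h1.mono (hr0.trans hq2))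
  obtain ⟨s, hs, b, -, hb, -, hab, -⟩ := exists_big r1 a
  refine ⟨s, hs.trans hr1, ?_⟩
  have hne : Nonempty X := nonempty_X D X
  have hsq : s ≤ q2 := (hs.trans hr1).trans hr0
  have memC : ∀ z, ∀ t ≤ s, (Fo t (BSet.bmem z C) ↔
      Fo t (BSet.bmem z (AB D rep)) ∧ Fo t (BSet.bmem z a')) := by
    intro z t ht
    have h3 := (fo_iffB.1 (fo_iInf.1 h2 z)) t (ht.trans hsq)
    rw [fo_inf] at h3
    exact h3
  have mema : ∀ c : X, ∀ t ≤ s, (Fo t (BSet.bmem (ob (E D X) c) a') ↔ c < a) := by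
    intro c t ht
    have h3 : Fo t (BSet.beq a' (ob (E D X) a)) := ha.mono (ht.trans hs)
    constructor
    · intro h4
      exact fo_mem_ob.1 (fo_ext (ψ := fun w => BSet.bmem (ob (E D X) c) w) (BSet.ext_bmem_right _) h3 h4)
    · intro h4
      exact fo_ext (ψ := fun w => BSet.bmem (ob (E D X) c) w) (BSet.ext_bmem_right _) (fo_beq_symm h3)
        (fo_mem_ob.2 h4)
  refine inUlt_intro (distr_E D X) hr (p := s) (x := C) ?_
    (fun i => nmS fun c => ⨆ _ : c < rep a i, rB i c b) (fun i => fo_sub_nmS) ?_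
  · refine fo_Sub.2 fun z t ht hz => ?_
    have h3 := ((memC z t ht).1 hz).1
    have h4 : Fo t (Kb.Sub (AB D rep) (obS (E D X) X)) := fo_sub_nmS
    exact fo_Sub.1 h4 z t le_rfl h3
  · intro c
    refine fo_iffB.2 fun t ht => ?_
    have hbt : b ∈ t.1.a := ht.1 hb
    by_cases hca : c < a
    · -- the main case
      have h5 : {i | rep c i < b} ∈ V1 D X := by
        obtain ⟨j, hj, hj2⟩ := hr.exists_const b
        have h6 : {i | rep c i < rep j i} ∈ V1 D X := hr.lt c j ((hca.trans hab).trans_le hj)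
        refine Filter.mem_of_superset (Filter.inter_mem h6 hj2) ?_
        rintro i ⟨h7, h8⟩
        have h7' : rep c i < rep j i := h7
        have h8' : rep j i = b := h8
        show rep c i < b
        rw [← h8']
        exact h7'
      have h6 : {i | rep c i < rep a i} ∈ V1 D X := hr.lt c a hca
      have h7 := (fo_iffB.1 (fo_AB_seg (p := t) hbt h5)) t le_rfl
      constructor
      · intro h8
        have h9 := h7.1 ((memC _ t ht).1 h8).1
        refine fo_UL_mono (U := V1 D X) h6 ?_ h9 h9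
        intro i hi q _ h10 _
        exact s1in_mem.2 ⟨hi, h10⟩
      · intro h8
        refine (memC _ t ht).2 ⟨h7.2 ?_, (mema c t ht).2 hca⟩
        refine fo_UL_mono (U := V1 D X) h6 ?_ h8 h8
        intro i _ q _ h10 _
        exact (s1in_mem.1 h10).2
    · constructor
      · intro h8
        exact absurd ((mema c t ht).1 ((memC _ t ht).1 h8).2) hca
      · intro h8
        exfalso
        have hac : a ≤ c := not_lt.1 hca
        have h9 : {i | rep a i ≤ rep c i} ∈ V1 D X := by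
          rcases hac.lt_or_eq with h10 | h10
          · exact Filter.mem_of_superset (hr.lt a c h10) fun i hi => le_of_lt hi
          · subst h10
            exact Filter.mem_of_superset Filter.univ_mem fun i _ => le_rfl
        refine fo_UL_false (U := V1 D X) h9 ?_ h8
        intro i hi q _ h10
        exact absurd (s1in_mem.1 h10).1 (not_lt.2 hi)

end Pool.Agent.Lib.MP_8fac41_lc.FR
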