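import Pool.Agent.Lib.MP_8fac41_lc.FR.B.S1Seg
import Pool.Agent.Lib.MP_8fac41_lc.FR.U.RepBasic

/-!
# The decided sets belong to `U₁` (module FR-B-S1Mem)

Suppose `Y ∉ U₁`. `Rep.exists_const`: `j` with `rep j i = a` for `U₁`-many `i`; `exists_larger`: `q' ≤ q`, `a < b ∈ q'.1.a`; so `q'` forces `UL (V1 D X) fun i => rB i (rep j i) b` (`TS.meas`, `fo_rB`, `fo_UL_of`), `ob _ j ∈ AB` (`fo_mem_nmS`, `fo_iSup`), and by `hxs` `UL (V1 D X) fun i => bmem (ob _ (rep j i)) (xs i)`, so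
(`fo_UL`) some `r ≤ q'` and `S ∈ U₁` with `Fo r (bmem (ob _ a) (xs i))` for `i ∈ S`. For `i ∈ S`, `i ∉ Y` the second part of `eqA xs a i` is forced to fail; by `Distr.choose` (`distr_E D X`) there are `s ≤ r`, `g : D → X` with `g i < a` and
`Fo s (iffB (bmem (ob _ (g i)) (xs i)) (rB i (g i) a))ᶜ` for `i ∈ S` with `i ∉ Y`. `Rep.cov`: `c` with `rep c = g` mod `U₁`; `fo_AB_seg` (`{i | rep c i < a} ∈ U₁`) and `hxs` say that `UL (V1 D X)` of `rB i (rep c i) a` and of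
`bmem (ob _ (rep c i)) (xs i)` are equivalent below `s`. `fo_decide` (for one of them), `fo_UL_compl`, `fo_UL_mono` (with `e = ⊥`), `fo_UL_false`: contradiction.
-/

universe u

namespace Pool.Agent.Lib.MP_8fac41_lc.FR

open Pool.Agent.Lib.MP_4d8715_gt.KR Cardinal Pool.MP_8fac41_lc.FR

variable {D X : Type u} [LinearOrder D] [WellFoundedLT D] [LinearOrder X] [WellFoundedLT X] [Sett D X]
  {rep : X → D → X}

/-- the value of: `a ∈ xs i`, and the elements of `xs i` below `a` are the predecessors of `a` -/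
noncomputable def eqA (xs : D → BSet (RO (E D X))) (a : X) (i : D) : RO (E D X) :=
  BSet.bmem (ob (E D X) a) (xs i) ⊓
    ⨅ c : {c : X // c < a}, iffB (BSet.bmem (ob (E D X) c.1) (xs i)) (rB i c.1 a)

/-- `q` decides that `Y` is the set of all `i` with `eqA xs a i` -/
def Gx (c0 : E D X) (xs : D → BSet (RO (E D X))) (a : X) (Y : Set D) (q : E D X) : Prop :=
  q ≤ c0 ∧ a ∈ q.1.a ∧ (∀ i ∈ Y, Fo q (eqA xs a i)) ∧ ∀ i ∉ Y, Fo q (eqA xs a i)ᶜ

private theorem exists_compl_s1mem {p : E D X} {x : RO (E D X)} (h : ¬ Fo p x) :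
    ∃ q ≤ p, Fo q xᶜ := by
  by_contra hcon
  push Not at hcon
  refine h (fo_reg fun q hq => ?_)
  obtain ⟨r, hr, h2⟩ := fo_decide x q
  rcases h2 with h2 | h2
  · exact ⟨r, hr, h2⟩
  · exact absurd h2 (hcon r (hr.trans hq))

theorem gx_mem (hr : Rep (V1 D X) rep) {c0 : E D X} {xs : D → BSet (RO (E D X))}
    (hxs : ∀ c : X, Fo c0 (iffB (BSet.bmem (ob (E D X) c) (AB D rep))
      (UL (V1 D X) fun i => BSet.bmem (ob (E D X) (rep c i)) (xs i))))
    {a : X} {Y : Set D} {q : E D X} (h : Gx c0 xs a Y q) : Y ∈ V1 D X := by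
  classical
  by_contra hY
  have hYc : Yᶜ ∈ V1 D X := uf_or hY
  obtain ⟨hqc, haq, hin, hout⟩ := h
  obtain ⟨j, -, hj⟩ := hr.exists_const a
  obtain ⟨q', hq', b, hb, hab⟩ := exists_larger q haq
  have hq'c : q' ≤ c0 := hq'.trans hqc
  have haq' : a ∈ q'.1.a := hq'.1 haq
  -- `q'` forces that `j` is in the fresh set
  have h1 : Fo q' (BSet.bmem (ob (E D X) j) (AB D rep)) := by
    unfold AB
    rw [fo_mem_nmS]
    have hm : {i | q'.1.r i a b} ∈ V1 D X := (ts q').meas a haq' b hb hab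
    have h2 : Fo q' (UL (V1 D X) fun i => rB i (rep j i) b) := by
      refine fo_UL_of (Filter.inter_mem hj hm) ?_
      rintro i ⟨hi1, hi2⟩
      have hi1' : rep j i = a := hi1
      show Fo q' (rB i (rep j i) b)
      rw [hi1']
      exact (fo_rB haq' hb).2 hi2
    exact h2.of_le (le_iSup (fun b : X => UL (V1 D X) fun i => rB i (rep j i) b) b)
  have h2 := (fo_iffB.1 (hxs j) q' hq'c).1 h1
  obtain ⟨r, hrq, S, hS, h3⟩ := fo_UL.1 h2 q' le_rfl
  have hS' : S ∩ {i | rep j i = a} ∈ V1 D X := Filter.inter_mem hS hj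
  have h4 : ∀ i ∈ S ∩ {i | rep j i = a}, Fo r (BSet.bmem (ob (E D X) a) (xs i)) := by
    rintro i ⟨hi1, hi2⟩
    have h5 := h3 i hi1
    have hi2' : rep j i = a := hi2
    rwa [hi2'] at h5
  -- choice of the counterexamples
  obtain ⟨s, hsr, g, hg⟩ := (distr_E D X).choose
    (fun i (z : X) (t : E D X) => (i ∈ S ∩ {i | rep j i = a} ∧ i ∉ Y) →
      (z < a ∧ Fo t (iffB (BSet.bmem (ob (E D X) z) (xs i)) (rB i z a))ᶜ)) r
    (fun i z t u htz hut hi => ⟨(htz hi).1, (htz hi).2.mono hut⟩)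
    (fun i t htr => by
      by_cases hi : i ∈ S ∩ {i | rep j i = a} ∧ i ∉ Y
      · have h5 : ¬ Fo t (eqA xs a i) :=
          fo_compl.1 (hout i hi.2) t ((htr.trans hrq).trans hq')
        unfold eqA at h5
        rw [fo_inf, not_and] at h5
        have h6 := h5 ((h4 i hi.1).mono htr)
        rw [fo_iInf] at h6
        push Not at h6
        obtain ⟨z, hz⟩ := h6
        obtain ⟨u, hu, hu2⟩ := exists_compl_s1mem hz
        exact ⟨u, hu, z.1, fun _ => ⟨z.2, hu2⟩⟩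
      · exact ⟨t, le_rfl, a, fun hi2 => absurd hi2 hi⟩)
  obtain ⟨c, hc⟩ := hr.cov g
  have hT : (S ∩ {i | rep j i = a}) ∩ Yᶜ ∩ {i | rep c i = g i} ∈ V1 D X :=
    Filter.inter_mem (Filter.inter_mem hS' hYc) hc
  have hT2 : ∀ i ∈ (S ∩ {i | rep j i = a}) ∩ Yᶜ ∩ {i | rep c i = g i},
      rep c i < a ∧ Fo s (iffB (BSet.bmem (ob (E D X) (rep c i)) (xs i)) (rB i (rep c i) a))ᶜ := by
    rintro i ⟨⟨hi1, hi2⟩, hi3⟩
    have hi3' : rep c i = g i := hi3
    rw [hi3']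
    exact hg i ⟨hi1, hi2⟩
  have hlt : {i | rep c i < a} ∈ V1 D X := Filter.mem_of_superset hT fun i hi => (hT2 i hi).1
  have hsq : s ≤ q := (hsr.trans hrq).trans hq'
  have h6 := fo_AB_seg (p := s) (hsq.1 haq) hlt
  have h7 := (hxs c).mono (hsq.trans hqc)
  have h8 : ∀ u ≤ s, (Fo u (UL (V1 D X) fun i => rB i (rep c i) a) ↔
      Fo u (UL (V1 D X) fun i => BSet.bmem (ob (E D X) (rep c i)) (xs i))) := fun u hu =>
    (fo_iffB.1 h6 u hu).symm.trans (fo_iffB.1 h7 u hu)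
  obtain ⟨u, hu, hu2⟩ := fo_decide (UL (V1 D X) fun i => rB i (rep c i) a) s
  rcases hu2 with hu2 | hu2
  · have h9 := (h8 u hu).1 hu2
    have h10 : Fo u (UL (V1 D X) fun _ => (⊥ : RO (E D X))) :=
      fo_UL_mono hT (fun i hi v hv hv1 hv2 => by
        exfalso
        refine fo_compl.1 (hT2 i hi).2 v (hv.trans hu) ?_
        exact fo_iffB.2 fun w hw => ⟨fun _ => hv1.mono hw, fun _ => hv2.mono hw⟩) hu2 h9
    exact fo_UL_false (Filter.univ_mem) (fun _ _ _ _ => fo_bot) h10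
  · have h9 : Fo u (UL (V1 D X) fun i => BSet.bmem (ob (E D X) (rep c i)) (xs i))ᶜ :=
      fo_compl.2 fun v hv hv2 => fo_compl.1 hu2 v hv ((h8 v (hv.trans hu)).2 hv2)
    rw [fo_UL_compl (distr_E D X)] at hu2 h9
    have h10 : Fo u (UL (V1 D X) fun _ => (⊥ : RO (E D X))) :=
      fo_UL_mono hT (fun i hi v hv hv1 hv2 => by
        exfalso
        refine fo_compl.1 (hT2 i hi).2 v (hv.trans hu) ?_
        exact fo_iffB.2 fun w hw => ⟨fun hw2 => absurd hw2 (fo_compl.1 hv2 w hw),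
          fun hw2 => absurd hw2 (fo_compl.1 hv1 w hw)⟩) hu2 h9
    exact fo_UL_false (Filter.univ_mem) (fun _ _ _ _ => fo_bot) h10

end Pool.Agent.Lib.MP_8fac41_lc.FR
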