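import Pool.Agent.Lib.MP_8fac41_lc.FR.B.S1Defs

/-!
# The initial segments of the fresh set (module FR-B-S1Seg)

`fo_AB_seg`: let `a ∈ p.1.a` and `{i | rep c i < a} ∈ U₁`. (←) `fo_mem_nmS`, `fo_iSup`. (→) densely there is `b` with `UL (V1 D X) fun i => rB i (rep c i) b` forced, so densely some `r ≤ p` and `S ∈ U₁` with `Fo r (rB i (rep c i) b)` for `i ∈ S`; by
`Distr` (`distr_E D X`) we may assume `r.1.r i (rep c i) b` for `i ∈ S` (`fo_rB'`; `G i r ↔ (i ∈ S → r.1.r ..)`); `S` is nonempty so `b ∈ r.1.a` (`TS.sup`). If `b = a` done. If `a < b`: `{i | r.1.r i a b} ∈ U₁` (`TS.meas`), `TS.tree`: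
`r.1.r i (rep c i) a` for `U₁`-many `i`. If `b < a`: `r.1.r i b a`, `TS.trans`. Then `fo_UL_of`, `fo_rB`.
`fo_AB_unb`: `fo_sub_nmS`; given `a` (`fo_all_mem`, `enu_obS`) and `p`: `exists_big` gives `q ≤ p`, `b < d` in `q.1.a`, `a < b`; `Rep.exists_const` gives `j ≥ b` with `rep j i = b` for `U₁`-many `i`; `{i | q.1.r i b d} ∈ U₁`, so `q` forces `ob _ j ∈ AB`, and `a < j`.
-/

universe u

namespace Pool.Agent.Lib.MP_8fac41_lc.FR

open Pool.Agent.Lib.MP_4d8715_gt.KR Pool.MP_8fac41_lc.FR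

variable {D X : Type u} [LinearOrder D] [WellFoundedLT D] [LinearOrder X] [WellFoundedLT X] [Sett D X]
  {rep : X → D → X}

private theorem fo_rB_of_r {p : E D X} {i : D} {a b : X} (h : p.1.r i a b) : Fo p (rB i a b) :=
  (fo_rB ((ts p).sup i a b h).1 ((ts p).sup i a b h).2).2 h

private theorem r_mono_s1seg {q r : E D X} (h : r ≤ q) {i : D} {a b : X} (hr : q.1.r i a b) :
    r.1.r i a b :=
  (h.2 i a ((ts q).sup i a b hr).1 b ((ts q).sup i a b hr).2).2 hr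

theorem fo_AB_seg {p : E D X} {a c : X} (ha : a ∈ p.1.a) (hc : {i | rep c i < a} ∈ V1 D X) :
    Fo p (iffB (BSet.bmem (ob (E D X) c) (AB D rep)) (UL (V1 D X) fun i => rB i (rep c i) a)) := by
  rw [fo_iffB]
  intro q hq
  unfold AB
  rw [fo_mem_nmS]
  constructor
  · intro h
    refine fo_reg fun q1 hq1 => ?_
    obtain ⟨r, hr, b, hb⟩ := fo_iSup.1 h q1 hq1
    obtain ⟨r2, hr2, S, hS, h2⟩ := fo_UL.1 hb r le_rfl
    obtain ⟨r3, hr3, h3⟩ := distr_E D X (fun i s => i ∈ S → s.1.r i (rep c i) b) r2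
      (fun i s t hs hts hi => r_mono_s1seg hts (hs hi))
      (fun i s hs => by
        by_cases hi : i ∈ S
        · obtain ⟨t, ht, ht2⟩ := fo_rB'.1 (h2 i hi) s hs
          exact ⟨t, ht, fun _ => ht2⟩
        · exact ⟨s, le_rfl, fun hi2 => absurd hi2 hi⟩)
    refine ⟨r3, (hr3.trans hr2).trans hr, ?_⟩
    have hb3 : b ∈ r3.1.a := by
      obtain ⟨i, hi⟩ := Ultrafilter.nonempty_of_mem hS
      exact ((ts r3).sup i _ _ (h3 i hi)).2
    have hle : r3 ≤ p := (((hr3.trans hr2).trans hr).trans hq1).trans hq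
    have ha3 : a ∈ r3.1.a := hle.1 ha
    rcases lt_trichotomy a b with hab | hab | hab
    · have hm : {i | r3.1.r i a b} ∈ V1 D X := (ts r3).meas a ha3 b hb3 hab
      refine fo_UL_of (Filter.inter_mem (Filter.inter_mem hS hm) hc) ?_
      rintro i ⟨⟨hi1, hi2⟩, hi3⟩
      exact fo_rB_of_r ((ts r3).tree i _ _ _ (h3 i hi1) hi2 hi3)
    · subst hab
      exact fo_UL_of hS fun i hi => fo_rB_of_r (h3 i hi)
    · have hm : {i | r3.1.r i b a} ∈ V1 D X := (ts r3).meas b hb3 a ha3 hab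
      refine fo_UL_of (Filter.inter_mem hS hm) ?_
      rintro i ⟨hi1, hi2⟩
      exact fo_rB_of_r ((ts r3).trans i _ _ _ (h3 i hi1) hi2)
  · intro h
    exact h.of_le (le_iSup (fun a : X => UL (V1 D X) fun i => rB i (rep c i) a) a)

theorem fo_AB_unb (hr : Rep (V1 D X) rep) (p : E D X) :
    Fo p (Kc.Unb (obS (E D X) X) (AB D rep)) := by
  unfold Kc.Unb
  rw [fo_inf]
  refine ⟨fo_sub_nmS, ?_⟩
  have hext : BSet.Ext (fun a : BSet (RO (E D X)) =>
      ⨆ b, BSet.bmem b (AB D rep) ⊓ BSet.bmem a b) :=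
    BSet.Ext.iSup fun b => (BSet.ext_const _).inf (BSet.ext_bmem_left b)
  refine (fo_all_mem (enu_obS p) hext le_rfl).2 fun a => ?_
  refine fo_iSup.2 fun q hq => ?_
  obtain ⟨q', hq', b, d, hb, hd, hab, hbd⟩ := exists_big q a
  obtain ⟨j, hbj, hj⟩ := hr.exists_const b
  refine ⟨q', hq', ob (E D X) j, ?_⟩
  rw [fo_inf]
  constructor
  · unfold AB
    rw [fo_mem_nmS]
    have hm : {i | q'.1.r i b d} ∈ V1 D X := (ts q').meas b hb d hd hbd
    have h1 : Fo q' (UL (V1 D X) fun i => rB i (rep j i) d) := by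
      refine fo_UL_of (Filter.inter_mem hj hm) ?_
      rintro i ⟨hi1, hi2⟩
      have hi1' : rep j i = b := hi1
      show Fo q' (rB i (rep j i) d)
      rw [hi1']
      exact fo_rB_of_r hi2
    exact h1.of_le (le_iSup (fun a : X => UL (V1 D X) fun i => rB i (rep j i) a) d)
  · exact fo_mem_ob.2 (lt_of_lt_of_le hab hbj)

end Pool.Agent.Lib.MP_8fac41_lc.FR
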