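import Pool.Agent.Lib.MP_8fac41_lc.FR.B.OrdB

/-!
# Names of relations and sequences
-/

universe u

namespace Pool.Agent.Lib.MP_8fac41_lc.FR

open Pool.Agent.Lib.MP_4d8715_gt.KR

variable {P : Type u} [Preorder P]

theorem fo_App {p : P} {f a b : BSet (RO P)} : Fo p (Kb.App f a b) ↔ Fo p (BSet.bmem (BSet.opair a b) f) := by
  rw [Kb.App_eq]

/-- a set of ordered pairs -/
noncomputable def relB {ι : Type u} (X Y : ι → BSet (RO P)) : BSet (RO P) :=
  BSet.mk ι (fun i => BSet.opair (X i) (Y i)) (fun _ => ⊤)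

theorem fo_App_relB {ι : Type u} {X Y : ι → BSet (RO P)} {p : P} {x y : BSet (RO P)} :
    Fo p (Kb.App (relB X Y) x y) ↔ ∀ q ≤ p, ∃ r ≤ q, ∃ i, Fo r (BSet.beq x (X i)) ∧ Fo r (BSet.beq y (Y i)) := by
  rw [fo_App]
  unfold relB
  rw [BSet.basic_bmem_mk, fo_iSup]
  have h : ∀ (r : P) (i : ι), Fo r (⊤ ⊓ BSet.beq (BSet.opair x y) (BSet.opair (X i) (Y i))) ↔
      Fo r (BSet.beq x (X i)) ∧ Fo r (BSet.beq y (Y i)) := by
    intro r i
    rw [top_inf_eq, BSet.beq_opair, fo_inf]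
  simp only [h]

/-- a function on an enumerated set is a sequence -/
theorem exists_seqB {p : P} {f d : BSet (RO P)} (hf : Fo p (Kb.FunOn f d)) {ι : Type*} (X : ι → BSet (RO P))
    (hX : ∀ i, Fo p (BSet.bmem (X i) d)) :
    ∃ Y : ι → BSet (RO P), ∀ i y, ∀ q ≤ p, (Fo q (Kb.App f (X i) y) ↔ Fo q (BSet.beq y (Y i))) := by
  have h1 := (fo_inf.1 hf).2
  have h2 : ∀ i, ∃ Y, Fo p (⨅ y, iffB (Kb.App f (X i) y) (BSet.beq y Y)) := by
    intro i
    have h3 := (fo_himp.1 (fo_iInf.1 h1 (X i))) p le_rfl (hX i)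
    refine exists_fo (ψ := fun Y => ⨅ y, iffB (Kb.App f (X i) y) (BSet.beq y Y)) ?_ h3
    exact BSet.Ext.iInf fun y => (BSet.ext_const _).iffB (BSet.ext_beq_right y)
  choose Y hY using h2
  refine ⟨Y, fun i y q hq => ?_⟩
  exact (fo_iffB.1 (fo_iInf.1 (hY i) y)) q hq

/-- sequences are functions -/
theorem fo_FunOn_relB {p : P} {d : BSet (RO P)} {ι : Type u} {X : ι → BSet (RO P)}
    (hX : Enu p d X) (hinj : ∀ i j, ∀ q ≤ p, Fo q (BSet.beq (X i) (X j)) → i = j) (Y : ι → BSet (RO P)) :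
    Fo p (Kb.FunOn (relB X Y) d) := by
  unfold Kb.FunOn
  refine fo_inf.2 ⟨?_, ?_⟩
  · refine fo_iInf.2 fun z => fo_himp.2 fun q hq hz => ?_
    unfold relB at hz
    rw [BSet.basic_bmem_mk, fo_iSup] at hz
    refine fo_reg fun r hr => ?_
    obtain ⟨s, hs, i, h2⟩ := hz r hr
    refine ⟨s, hs, ?_⟩
    have h3 : Fo s (BSet.bmem (X i) d) := (hX.mem i).mono ((hs.trans hr).trans hq)
    have h4 : Fo s (BSet.bmem (X i) d ⊓ Kb.Pair z (X i) (Y i)) := by
      refine fo_inf.2 ⟨h3, ?_⟩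
      rw [Kb.Pair_eq]
      exact (fo_inf.1 h2).2
    exact (h4.of_le (le_iSup (fun b => BSet.bmem (X i) d ⊓ Kb.Pair z (X i) b) (Y i))).of_le
      (le_iSup (fun a => ⨆ b, BSet.bmem a d ⊓ Kb.Pair z a b) (X i))
  · refine (fo_all_mem hX (ψ := fun a => ⨆ b, ⨅ y, iffB (Kb.App (relB X Y) a y)
      (BSet.beq y b)) ?_ le_rfl).2 fun i => ?_
    · exact BSet.Ext.iSup fun b => BSet.Ext.iInf fun y =>
        (Kb.ext_App_a _ y).iffB (BSet.ext_const _)
    · refine Fo.of_le ?_ (le_iSup (fun b => ⨅ y, iffB (Kb.App (relB X Y) (X i) y)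
        (BSet.beq y b)) (Y i))
      refine fo_iInf.2 fun y => fo_iffB.2 fun q hq => ⟨fun h => ?_, fun h => ?_⟩
      · refine fo_reg fun r hr => ?_
        obtain ⟨s, hs, j, h3, h4⟩ := fo_App_relB.1 h r hr
        have h5 : s ≤ p := (hs.trans hr).trans hq
        rw [hinj i j s h5 h3]
        exact ⟨s, hs, h4⟩
      · exact fo_App_relB.2 fun r hr => ⟨r, le_rfl, i, fo_beq_refl _, h.mono hr⟩

/-- the value of a sequence -/
theorem fo_App_relB_self {p : P} {ι : Type u} {X : ι → BSet (RO P)}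
    (hinj : ∀ i j, ∀ q ≤ p, Fo q (BSet.beq (X i) (X j)) → i = j) (Y : ι → BSet (RO P)) (i : ι) (y : BSet (RO P)) :
    Fo p (Kb.App (relB X Y) (X i) y) ↔ Fo p (BSet.beq y (Y i)) := by
  constructor
  · intro h
    refine fo_reg fun q hq => ?_
    obtain ⟨r, hr, j, h3, h4⟩ := fo_App_relB.1 h q hq
    rw [hinj i j r (hr.trans hq) h3]
    exact ⟨r, hr, h4⟩
  · intro h
    exact fo_App_relB.2 fun r hr => ⟨r, le_rfl, i, fo_beq_refl _, h.mono hr⟩

/-! ### functions with domain `obS P D` -/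

variable {D : Type u} [LinearOrder D] [WellFoundedLT D]

/-- the function with the values `F x` at `ob P x` -/
noncomputable def fnB (F : D → BSet (RO P)) : BSet (RO P) := relB (ob P) F

theorem ob_inj {p : P} (x y : D) : ∀ q ≤ p, Fo q (BSet.beq (ob P x) (ob P y)) → x = y :=
  fun _ _ h => fo_beq_ob.1 h

theorem fo_App_fnB {p : P} (F : D → BSet (RO P)) (x : D) (y : BSet (RO P)) :
    Fo p (Kb.App (fnB F) (ob P x) y) ↔ Fo p (BSet.beq y (F x)) := fo_App_relB_self ob_inj F x y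

theorem fo_FunOn_fnB {p : P} (F : D → BSet (RO P)) : Fo p (Kb.FunOn (fnB F) (obS P D)) :=
  fo_FunOn_relB (enu_obS p) ob_inj F

/-- every function with domain `obS P D` has the form `fnB F` -/
theorem exists_fnB {p : P} {f : BSet (RO P)} (hf : Fo p (Kb.FunOn f (obS P D))) :
    ∃ F : D → BSet (RO P), Fo p (BSet.beq f (fnB F)) := by
  obtain ⟨F, hF⟩ := exists_seqB hf (ob P : D → BSet (RO P)) (enu_obS p).mem
  refine ⟨F, fo_beq_iff.2 fun z q hq => ⟨fun h => fo_reg fun r hr => ?_, fun h => fo_reg fun r hr => ?_⟩⟩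
  · have h1 := (fo_himp.1 (fo_iInf.1 (fo_inf.1 hf).1 z)) r (hr.trans hq) (h.mono hr)
    obtain ⟨s, hs, a, h2⟩ := fo_iSup.1 h1 r le_rfl
    obtain ⟨s', hs', b, h3⟩ := fo_iSup.1 h2 s le_rfl
    obtain ⟨h4, h5⟩ := fo_inf.1 h3
    obtain ⟨t, ht, x, hx⟩ := (enu_obS s').cov s' le_rfl a h4
    rw [Kb.Pair_eq] at h5
    have h6 : Fo t (BSet.bmem (BSet.opair a b) f) :=
      fo_ext (ψ := fun w => BSet.bmem w f) (BSet.ext_bmem_left _) (h5.mono ht)
        (h.mono (((ht.trans hs').trans hs).trans hr))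
    have h7 : Fo t (Kb.App f (ob P x) b) := by
      refine fo_ext (ψ := fun w => Kb.App f w b) (Kb.ext_App_a f b) hx ?_
      exact fo_App.2 h6
    have ht' : t ≤ p := (((ht.trans hs').trans hs).trans hr).trans hq
    have h8 := (hF x b t ht').1 h7
    refine ⟨t, (ht.trans hs').trans hs, ?_⟩
    have h9 : Fo t (BSet.bmem (BSet.opair a b) (fnB F)) := by
      refine fo_App.1 ?_
      refine fo_ext (ψ := fun w => Kb.App (fnB F) w b) (Kb.ext_App_a _ b) (fo_beq_symm hx) ?_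
      exact (fo_App_fnB F x b).2 h8
    exact fo_ext (ψ := fun w => BSet.bmem w (fnB F)) (BSet.ext_bmem_left _) (fo_beq_symm (h5.mono ht)) h9
  · unfold fnB relB at h
    rw [BSet.basic_bmem_mk] at h
    obtain ⟨s, hs, x, h2⟩ := fo_iSup.1 h r hr
    have h3 := (fo_inf.1 h2).2
    refine ⟨s, hs, fo_ext (ψ := fun w => BSet.bmem w f) (BSet.ext_bmem_left _) (fo_beq_symm h3) ?_⟩
    exact fo_App.1 ((hF x (F x) s ((hs.trans hr).trans hq)).2 (fo_beq_refl _))

end Pool.Agent.Lib.MP_8fac41_lc.FR
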