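import Pool.Agent.Lib.MP_8fac41_lc.FR.B.Decide
import Pool.Agent.Lib.MP_8fac41_lc.FR.U.Defs

/-!
# The name of `U` is an ultrafilter (module FR-B-UltraF)

Use `fo_iInf`, `fo_himp`, `fo_iffB`; replace elements of `uB P U` by `sbS P X` with `X ∈ U` (`enu_uB`, `fo_reg`, `fo_ext`), and subsets `Y` of `obS P D` by `sbS P X`
(`exists_subset`, `fo_reg`, `fo_ext`; the statement to be forced respects equality, `Kb.ext_Sub_x`, `BSet.ext_bmem_left`). If `Z` is forced to be the intersection of `sbS P X` and `sbS P Y`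
then `Z = sbS P (X ∩ Y)` (`fo_beq_iff`, `enu_sbS`, `fo_mem_sbS`), similarly for complements.
-/

universe u

namespace Pool.Agent.Lib.MP_8fac41_lc.FR

open Pool.Agent.Lib.MP_4d8715_gt.KR

variable {P : Type u} [Preorder P] {D : Type u} [LinearOrder D] [WellFoundedLT D] {U : Ultrafilter D}

/-- replace the left member of a membership by an equal name -/
theorem ufMemL {p : P} {x y z : BSet (RO P)} (h : Fo p (BSet.beq x y)) (hx : Fo p (BSet.bmem x z)) :
    Fo p (BSet.bmem y z) :=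
  fo_ext (ψ := fun w => BSet.bmem w z) (BSet.ext_bmem_left _) h hx

/-- replace the right member of a membership by an equal name -/
theorem ufMemR {p : P} {x y z : BSet (RO P)} (h : Fo p (BSet.beq x y)) (hx : Fo p (BSet.bmem z x)) :
    Fo p (BSet.bmem z y) :=
  fo_ext (ψ := fun w => BSet.bmem z w) (BSet.ext_bmem_right _) h hx

/-- elements of the name of `U` are standard, densely -/
theorem ufCov {p : P} {x : BSet (RO P)} (h : Fo p (BSet.bmem x (uB P U))) :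
    ∃ q ≤ p, ∃ X ∈ U, Fo q (BSet.beq x (sbS P X)) := by
  obtain ⟨q, hq, X, hX⟩ := (enu_uB p U).cov p le_rfl x h
  exact ⟨q, hq, X.1, X.2, hX⟩

/-- a name equal to a standard set of `U` -/
theorem ufMem {p : P} {x : BSet (RO P)} {X : Set D} (h : Fo p (BSet.beq x (sbS P X))) :
    Fo p (BSet.bmem x (uB P U)) ↔ X ∈ U := by
  constructor
  · intro h2
    exact fo_mem_uB.1 (ufMemL h h2)
  · intro h2
    exact ufMemL (fo_beq_symm h) (fo_mem_uB.2 h2)

/-- elements of the name `x = sbS P X` -/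
theorem ufStd {p : P} {x : BSet (RO P)} {X : Set D} (h : Fo p (BSet.beq x (sbS P X))) {a : D} :
    Fo p (BSet.bmem (ob P a) x) ↔ a ∈ X := by
  constructor
  · intro h2
    exact fo_mem_sbS.1 (ufMemR h h2)
  · intro h2
    exact ufMemR (fo_beq_symm h) (fo_mem_sbS.2 h2)

/-- a name equal to a standard subset is a subset -/
theorem ufSub {p : P} {x : BSet (RO P)} {X : Set D} (h : Fo p (BSet.beq x (sbS P X))) :
    Fo p (Kb.Sub x (obS P D)) := by
  refine fo_Sub.2 fun z q hq hz => ?_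
  exact fo_Sub.1 (fo_sub_sbS (P := P) (X := X) (p := p)) z q hq (ufMemR (h.mono hq) hz)

/-- intersections -/
theorem ufInter {p : P} {x y z : BSet (RO P)} {X Y : Set D} (hx : Fo p (BSet.beq x (sbS P X)))
    (hy : Fo p (BSet.beq y (sbS P Y)))
    (h : Fo p (⨅ w, iffB (BSet.bmem w z) (BSet.bmem w x ⊓ BSet.bmem w y))) :
    Fo p (BSet.beq z (sbS P (X ∩ Y))) := by
  have h1 : ∀ w, ∀ q ≤ p, (Fo q (BSet.bmem w z) ↔ Fo q (BSet.bmem w x) ∧ Fo q (BSet.bmem w y)) := by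
    intro w q hq
    rw [← fo_inf]
    exact (fo_iffB.1 (fo_iInf.1 h w)) q hq
  refine fo_beq_of_sub ?_ fo_sub_sbS ?_
  · refine fo_Sub.2 fun w q hq hw => ?_
    exact fo_Sub.1 (ufSub hx) w q hq ((h1 w q hq).1 hw).1
  · intro a q hq
    rw [h1 _ q hq, ufStd (hx.mono hq), ufStd (hy.mono hq), fo_mem_sbS]
    exact Iff.rfl

/-- complements -/
theorem ufCompl {p : P} {x y : BSet (RO P)} {X : Set D} (hx : Fo p (BSet.beq x (sbS P X)))
    (h : Fo p (⨅ w, iffB (BSet.bmem w y) (BSet.bmem w (obS P D) ⊓ (BSet.bmem w x)ᶜ))) :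
    Fo p (BSet.beq y (sbS P Xᶜ)) := by
  have h1 : ∀ w, ∀ q ≤ p, (Fo q (BSet.bmem w y) ↔ Fo q (BSet.bmem w (obS P D)) ∧ ∀ r ≤ q, ¬ Fo r (BSet.bmem w x)) := by
    intro w q hq
    rw [← fo_compl, ← fo_inf]
    exact (fo_iffB.1 (fo_iInf.1 h w)) q hq
  refine fo_beq_of_sub ?_ fo_sub_sbS ?_
  · exact fo_Sub.2 fun w q hq hw => ((h1 w q hq).1 hw).1
  · intro a q hq
    rw [h1 _ q hq, fo_mem_sbS]
    constructor
    · rintro ⟨-, h2⟩ h3
      exact h2 q le_rfl ((ufStd (hx.mono hq)).2 h3)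
    · intro h2
      refine ⟨(enu_obS q).mem a, fun r hr h3 => h2 ((ufStd (hx.mono (hr.trans hq))).1 h3)⟩

theorem fo_UltraF (hd : Distr P D) (p : P) : Fo p (Kc.UltraF (obS P D) (uB P U)) := by
  unfold Kc.UltraF
  rw [fo_inf, fo_inf, fo_inf]
  refine ⟨?_, ?_, ?_, ?_⟩
  · refine fo_iInf.2 fun x => fo_himp.2 fun q _ hx => ?_
    refine fo_Sub.2 fun z r hr hz => fo_reg fun s hs => ?_
    obtain ⟨t, ht, X, -, hX⟩ := ufCov (hx.mono (hs.trans hr))
    exact ⟨t, ht, fo_Sub.1 (ufSub hX) z t le_rfl (hz.mono (ht.trans hs))⟩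
  · refine fo_iInf.2 fun x => fo_iInf.2 fun y => fo_himp.2 fun q _ hx => fo_himp.2 fun r hr hxy =>
      fo_himp.2 fun s hs hy => fo_reg fun t ht => ?_
    obtain ⟨a, ha, X, hXU, hX⟩ := ufCov (hx.mono ((ht.trans hs).trans hr))
    obtain ⟨b, hb, Y, hY⟩ := exists_subset hd (hy.mono (ha.trans ht))
    refine ⟨b, hb.trans ha, (ufMem hY).2 (Filter.mem_of_superset hXU ?_)⟩
    intro c hc
    refine (ufStd hY).1 ?_
    exact fo_Sub.1 hxy _ b (((hb.trans ha).trans ht).trans hs) ((ufStd (hX.mono hb)).2 hc)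
  · refine fo_iInf.2 fun x => fo_iInf.2 fun y => fo_iInf.2 fun z => fo_himp.2 fun q _ hx =>
      fo_himp.2 fun r hr hy => fo_himp.2 fun s hs hz => fo_reg fun t ht => ?_
    obtain ⟨a, ha, X, hXU, hX⟩ := ufCov (hx.mono ((ht.trans hs).trans hr))
    obtain ⟨b, hb, Y, hYU, hY⟩ := ufCov (hy.mono ((ha.trans ht).trans hs))
    refine ⟨b, hb.trans ha, (ufMem (ufInter (hX.mono hb) hY (hz.mono ((hb.trans ha).trans ht)))).2
      (Filter.inter_mem hXU hYU)⟩
  · refine fo_iInf.2 fun x => fo_iInf.2 fun y => fo_himp.2 fun q _ hx => fo_himp.2 fun r hr hy =>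
      fo_reg fun s hs => ?_
    obtain ⟨a, ha, X, hX⟩ := exists_subset hd (hx.mono (hs.trans hr))
    refine ⟨a, ha, fo_iffB.2 fun b hb => ?_⟩
    rw [ufMem (hX.mono hb), fo_compl]
    have hY : Fo a (BSet.beq y (sbS P Xᶜ)) := ufCompl hX (hy.mono (ha.trans hs))
    constructor
    · intro h1 c hc h2
      have h3 := (ufMem (hY.mono (hc.trans hb))).1 h2
      exact (Ultrafilter.compl_mem_iff_notMem.1 h3) h1
    · intro h1
      by_contra h2
      exact h1 b le_rfl ((ufMem (hY.mono hb)).2 (Ultrafilter.compl_mem_iff_notMem.2 h2))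

theorem fo_NonPr (hU : NUF U) (p : P) : Fo p (Kc.NonPr (obS P D) (uB P U)) := by
  unfold Kc.NonPr
  refine fo_iInf.2 fun a => fo_iInf.2 fun x => fo_himp.2 fun q _ ha => fo_himp.2 fun r hr hx =>
    fo_compl.2 fun s hs hxU => ?_
  obtain ⟨t, ht, b, hb⟩ := (enu_obS s).cov s le_rfl a (ha.mono (hs.trans hr))
  obtain ⟨v, hv, X, hXU, hX⟩ := ufCov (hxU.mono ht)
  obtain ⟨c, hcX, hcb⟩ := Ultrafilter.nonempty_of_mem (Filter.inter_mem hXU (hU.tail b))
  have h1 : Fo v (BSet.bmem (ob P c) x) := (ufStd hX).2 hcX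
  have h2 : Fo v (BSet.beq (ob P c) a) :=
    (fo_iffB.1 (fo_iInf.1 hx (ob P c)) v ((hv.trans ht).trans hs)).1 h1
  have h3 := fo_beq_ob.1 (fo_beq_trans h2 (hb.mono hv))
  exact absurd h3 (ne_of_gt hcb)

end Pool.Agent.Lib.MP_8fac41_lc.FR
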