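import Pool.Agent.Lib.MP_8fac41_lc.FR.B.Decide

/-!
# The values of a function into `U` (module FR-B-ValB)

`F` is forced to be a function from `d` to `uB P U`, and the `ob P x`, `x ∈ I`, are forced to be elements of `d`. By `exists_seqB` (index type `I`) there are names `Y x` of the values, they are elements of `uB P U` (second part of
`Kb.FunTo`), and by `Distr.choose` (`enu_uB`; for `x ∉ I` take `Set.univ`) there are `q ≤ p` and `X : D → Set D` with `X x ∈ U`, `Fo q (beq (Y x) (sbS P (X x)))` for `x ∈ I`.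
-/

universe u

namespace Pool.Agent.Lib.MP_8fac41_lc.FR

open Pool.Agent.Lib.MP_4d8715_gt.KR

variable {P : Type u} [Preorder P] {D : Type u} [LinearOrder D] [WellFoundedLT D] {U : Ultrafilter D}

/-- the arguments of a function are elements of its domain -/
theorem fo_App_dom {p : P} {d F b y : BSet (RO P)} (hF : Fo p (Kb.FunOn F d)) (h : Fo p (Kb.App F b y)) :
    Fo p (BSet.bmem b d) := by
  have h1 := (fo_himp.1 (fo_iInf.1 (fo_inf.1 hF).1 (BSet.opair b y))) p le_rfl (fo_App.1 h)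
  refine fo_reg fun q hq => ?_
  obtain ⟨r, hr, a, h2⟩ := fo_iSup.1 h1 q hq
  obtain ⟨s, hs, c, h3⟩ := fo_iSup.1 h2 r le_rfl
  obtain ⟨h4, h5⟩ := fo_inf.1 h3
  rw [Kb.Pair_eq, BSet.beq_opair] at h5
  exact ⟨s, hs.trans hr, fo_ext (ψ := fun w => BSet.bmem w d) (BSet.ext_bmem_left _)
    (fo_beq_symm (fo_inf.1 h5).1) h4⟩

theorem exists_val (hd : Distr P D) {p : P} {d F : BSet (RO P)} (hF : Fo p (Kb.FunTo F d (uB P U))) (I : Set D)
    (hI : ∀ x ∈ I, Fo p (BSet.bmem (ob P x) d)) :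
    ∃ q ≤ p, ∃ X : D → Set D, (∀ x, X x ∈ U) ∧
      ∀ x ∈ I, ∀ y, ∀ r ≤ q, (Fo r (Kb.App F (ob P x) y) ↔ Fo r (BSet.beq y (sbS P (X x)))) := by
  have hF1 := (fo_inf.1 hF).1
  have hF2 := (fo_inf.1 hF).2
  obtain ⟨Y, hY⟩ := exists_seqB hF1 (fun x : I => ob P x.1) (fun x => hI x.1 x.2)
  have hYm : ∀ x : I, Fo p (BSet.bmem (Y x) (uB P U)) := by
    intro x
    have h1 : Fo p (Kb.App F (ob P x.1) (Y x)) := (hY x (Y x) p le_rfl).2 (fo_beq_refl _)
    exact (fo_himp.1 (fo_iInf.1 (fo_iInf.1 hF2 (ob P x.1)) (Y x))) p le_rfl h1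
  obtain ⟨q, hq, f, hf⟩ := Distr.choose hd (Z := {X : Set D // X ∈ U})
    (fun x Z q => ∀ hx : x ∈ I, Fo q (BSet.beq (Y ⟨x, hx⟩) (sbS P Z.1))) p
    (fun x z p q h hqp hx => (h hx).mono hqp)
    (fun x q hq => by
      by_cases hx : x ∈ I
      · obtain ⟨r, hr, Z, hZ⟩ := (enu_uB p U).cov q hq (Y ⟨x, hx⟩) ((hYm ⟨x, hx⟩).mono hq)
        exact ⟨r, hr, Z, fun _ => hZ⟩
      · exact ⟨q, le_rfl, ⟨Set.univ, Filter.univ_mem⟩, fun h => absurd h hx⟩)
  refine ⟨q, hq, fun x => (f x).1, fun x => (f x).2, fun x hx y r hr => ?_⟩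
  have h1 := hY ⟨x, hx⟩ y r (hr.trans hq)
  have h2 : Fo r (BSet.beq (Y ⟨x, hx⟩) (sbS P (f x).1)) := (hf x hx).mono hr
  constructor
  · intro h
    exact fo_beq_trans (h1.1 h) h2
  · intro h
    exact h1.2 (fo_beq_trans h (fo_beq_symm h2))

end Pool.Agent.Lib.MP_8fac41_lc.FR
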